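import Pool.Agent.Y204.MC.Cert

/-!
# Normalised data from solutions of the polynomial conditions
-/

open Polynomial

namespace Pool.Agent.Y204.MC

open Pool.Agent.H403R3

/-- a cubic polynomial -/
noncomputable def quadP (a : ℕ → ℂ) : ℂ[X] :=
  C (a 0) + C (a 1) * X + C (a 2) * X ^ 2 + C (a 3) * X ^ 3

lemma coeff_poly7 (h : ℕ → ℂ) (c : ℕ) :
    (C (h 0) + C (h 1) * X + C (h 2) * X ^ 2 + C (h 3) * X ^ 3 + C (h 4) * X ^ 4 +
      C (h 5) * X ^ 5 + C (h 6) * X ^ 6 : ℂ[X]).coeff c =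
      if c ≤ 6 then h c else 0 := by
  simp only [coeff_add, coeff_C, coeff_C_mul, coeff_X, coeff_X_pow]
  rcases c with _ | _ | _ | _ | _ | _ | _ | c
  · simp
  · simp
  · simp
  · simp
  · simp
  · simp
  · simp
  · have : ¬ (c + 1 + 1 + 1 + 1 + 1 + 1 + 1 ≤ 6) := by omega
    simp only [this, if_false]
    simp

lemma conv_gt {R : Type*} [CommRing R] (a b : ℕ → R) {c : ℕ} (h : 6 < c) : conv a b c = 0 := by
  obtain ⟨k, rfl⟩ : ∃ k, c = k + 7 := ⟨c - 7, by omega⟩
  rfl

lemma wcf_gt {R : Type*} [CommRing R] (a b : ℕ → R) {c : ℕ} (h : 4 < c) : wcf a b c = 0 := by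
  obtain ⟨k, rfl⟩ : ∃ k, c = k + 5 := ⟨c - 5, by omega⟩
  rfl

lemma quad_mul (a b : ℕ → ℂ) (c : ℕ) : (quadP a * quadP b).coeff c = conv a b c := by
  have : quadP a * quadP b = C (conv a b 0) + C (conv a b 1) * X + C (conv a b 2) * X ^ 2 +
      C (conv a b 3) * X ^ 3 + C (conv a b 4) * X ^ 4 + C (conv a b 5) * X ^ 5 +
      C (conv a b 6) * X ^ 6 := by
    simp only [quadP, conv, C_add, C_mul]
    ring
  rw [this, coeff_poly7]
  split
  · rfl
  · rw [conv_gt]; omega

lemma quad_wr (a b : ℕ → ℂ) (c : ℕ) :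
    (derivative (quadP a) * quadP b - quadP a * derivative (quadP b)).coeff c = wcf a b c := by
  have : derivative (quadP a) * quadP b - quadP a * derivative (quadP b) =
      C (wcf a b 0) + C (wcf a b 1) * X + C (wcf a b 2) * X ^ 2 +
      C (wcf a b 3) * X ^ 3 + C (wcf a b 4) * X ^ 4 + C (wcf a b 5) * X ^ 5 +
      C (wcf a b 6) * X ^ 6 := by
    simp only [quadP, wcf, C_mul, C_sub, C_add, derivative_add, derivative_mul, derivative_C,
      derivative_X, derivative_X_pow, C_0]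
    have h2 : (C (2 : ℂ) : ℂ[X]) = 2 := rfl
    have h3 : (C (3 : ℂ) : ℂ[X]) = 3 := rfl
    simp only [Nat.cast_ofNat, h2, h3]
    norm_num
    ring
  rw [this, coeff_poly7]
  split
  · rfl
  · rw [wcf_gt]; omega

lemma quad_eval (a : ℕ → ℂ) (x : ℂ) : (quadP a).eval x = qe a x := by
  simp [quadP, qe]

lemma quad_wr_eval (a b : ℕ → ℂ) (x : ℂ) :
    (derivative (quadP a) * quadP b - quadP a * derivative (quadP b)).eval x =
      qw (wcf a b) x := by
  simp only [quadP, wcf, qw, derivative_add, derivative_mul, derivative_C,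
      derivative_X, derivative_X_pow, eval_add, eval_mul, eval_sub, eval_C, eval_X, eval_pow,
      eval_zero, eval_one]
  norm_num
  ring

lemma lin_mul_coeff_zero (a b : ℂ) (ψ : ℂ[X]) : ((C a + C b * X) * ψ).coeff 0 = a * ψ.coeff 0 := by
  simp [mul_coeff_zero]

lemma lin_mul_coeff_succ (a b : ℂ) (ψ : ℂ[X]) (c : ℕ) :
    ((C a + C b * X) * ψ).coeff (c + 1) = a * ψ.coeff (c + 1) + b * ψ.coeff c := by
  rw [add_mul, coeff_add, coeff_C_mul, mul_assoc, coeff_C_mul, coeff_X_mul]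

section

variable {n : ℕ} (hn : 6 ≤ n) (P : Fin 3 → Vec n) (z : RR n → ℂ)

/-- the numerators -/
noncomputable def Gp (m : Fin (n + 1)) : ℂ[X] :=
  ∑ k ∈ Finset.range (mu n m + 1), C (gc z m k) * X ^ k

def rp (m : Fin (n + 1)) (k : Fin (mu n m)) : ℂ := z (Sum.inr (Sum.inl ⟨m, k⟩))

lemma rp_eq (m : Fin (n + 1)) (k : Fin (mu n m)) : rp z m k = rc z m k := by
  unfold rp rc
  rw [dif_pos k.2]

lemma Gp_eval (m : Fin (n + 1)) (x : ℂ) : (Gp z m).eval x = Gev z m x := by
  unfold Gp Gev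
  rw [eval_finsetSum]
  simp

lemma Gp_coeff (m : Fin (n + 1)) (k : ℕ) : (Gp z m).coeff k = gc z m k := by
  unfold Gp
  rw [finsetSum_coeff]
  simp only [coeff_C_mul, coeff_X_pow]
  by_cases hk : k < mu n m + 1
  · rw [Finset.sum_eq_single k]
    · simp
    · intro b _ hb
      simp [Ne.symm hb]
    · intro h
      exact absurd (Finset.mem_range.mpr hk) h
  · rw [Finset.sum_eq_zero]
    · unfold gc
      rw [dif_neg hk]
    · intro b hb
      have : k ≠ b := by
        rintro rfl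
        exact hk (Finset.mem_range.mp hb)
      simp [this]

lemma Dp_eq (m : Fin (n + 1)) : (∏ k, (X - C (rp z m k)) : ℂ[X]) =
    ∏ k ∈ Finset.range (mu n m), (X - C (rc z m k)) := by
  rw [← Fin.prod_univ_eq_prod_range (fun k => (X - C (rc z m k) : ℂ[X]))]
  exact Finset.prod_congr rfl fun k _ => by rw [rp_eq]

lemma Dp_eval (m : Fin (n + 1)) (x : ℂ) : (∏ k, (X - C (rp z m k)) : ℂ[X]).eval x = Dev z m x := by
  rw [Dp_eq]
  unfold Dev
  rw [eval_prod]
  simp

lemma Gp_e7 (j : Fin 7) : Gp z (e7 hn j) = quadP (gc z (e7 hn j)) := by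
  unfold Gp quadP
  rw [mu_e7]
  simp [Finset.sum_range_succ]

lemma Dp_e7 (j : Fin 7) : (∏ k, (X - C (rp z (e7 hn j) k)) : ℂ[X]) =
    quadP (dcf (rc z (e7 hn j))) := by
  rw [Dp_eq, mu_e7]
  unfold quadP dcf
  rw [Finset.prod_range_succ, Finset.prod_range_succ, Finset.prod_range_succ,
    Finset.prod_range_zero]
  simp only [C_mul, C_neg, C_add, C_1]
  ring

lemma shf_conv (g d : ℕ → ℂ) (a b : ℂ) (c : ℕ) :
    ((C a + C b * X) * (quadP g * quadP d)).coeff c =
      a * shf (conv g d) 0 c + b * shf (conv g d) 1 c := by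
  rcases c with _ | c
  · rw [lin_mul_coeff_zero, quad_mul]
    simp [shf]
  · rw [lin_mul_coeff_succ, quad_mul, quad_mul]
    simp [shf]

lemma shf_wcf (g d : ℕ → ℂ) (a b : ℂ) (c : ℕ) :
    ((C a + C b * X) * (derivative (quadP g) * quadP d - quadP g * derivative (quadP d))).coeff c =
      a * shf (wcf g d) 0 c + b * shf (wcf g d) 1 c := by
  rcases c with _ | c
  · rw [lin_mul_coeff_zero, quad_wr]
    simp [shf]
  · rw [lin_mul_coeff_succ, quad_wr, quad_wr]
    simp [shf]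

/-- the first matrix -/
lemma star_of_det {g d : Fin 7 → ℕ → ℂ} (h : (M1 g d).det ≠ 0) (c : Fin 7 → Fin 2 → ℂ)
    (h1 : ∑ j, (C (c j 0) + C (c j 1) * X) * (quadP (g j) * quadP (d j)) = 0)
    (h2 : ∑ j, (C (c j 0) + C (c j 1) * X) *
      (derivative (quadP (g j)) * quadP (d j) - quadP (g j) * derivative (quadP (d j))) = 0) :
    c = 0 := by
  set v : Fin 14 → ℂ := ![c 0 0, c 0 1, c 1 0, c 1 1, c 2 0, c 2 1, c 3 0, c 3 1, c 4 0, c 4 1,
    c 5 0, c 5 1, c 6 0, c 6 1] with hv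
  have e1 : ∀ k : ℕ, ∑ j, (c j 0 * shf (conv (g j) (d j)) 0 k +
      c j 1 * shf (conv (g j) (d j)) 1 k) = 0 := by
    intro k
    have := congrArg (fun φ => coeff φ k) h1
    simp only [finsetSum_coeff, shf_conv, coeff_zero] at this
    exact this
  have e2 : ∀ k : ℕ, ∑ j, (c j 0 * shf (wcf (g j) (d j)) 0 k +
      c j 1 * shf (wcf (g j) (d j)) 1 k) = 0 := by
    intro k
    have := congrArg (fun φ => coeff φ k) h2
    simp only [finsetSum_coeff, shf_wcf, coeff_zero] at this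
    exact this
  have h3 : Matrix.vecMul v (M1 g d) = 0 := by
    funext k
    rw [Pi.zero_apply]
    by_cases hk : (k : ℕ) < 8
    · rw [← e1 k]
      simp only [Matrix.vecMul, dotProduct, M1, Matrix.of_apply, hk, if_true]
      simp only [Fin.sum_univ_succ, Fin.sum_univ_zero]
      simp [hv]
      ring
    · rw [← e2 (k - 8)]
      simp only [Matrix.vecMul, dotProduct, M1, Matrix.of_apply, hk, if_false]
      simp only [Fin.sum_univ_succ, Fin.sum_univ_zero]
      simp [hv]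
      ring
  have h4 := Matrix.eq_zero_of_vecMul_eq_zero h h3
  have h5 : ∀ i, v i = 0 := fun i => congrFun h4 i
  funext j k
  fin_cases j <;> fin_cases k
  · exact h5 0
  · exact h5 1
  · exact h5 2
  · exact h5 3
  · exact h5 4
  · exact h5 5
  · exact h5 6
  · exact h5 7
  · exact h5 8
  · exact h5 9
  · exact h5 10
  · exact h5 11
  · exact h5 12
  · exact h5 13

/-- the second matrix -/
lemma quints_of_det {g d : Fin 7 → ℕ → ℂ} (h : (M2 g d).det ≠ 0) (y : Fin 21 → ℂ)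
    (h1 : ∀ j j', cf (quadP (g j) * quadP (d j')) (quadP (d j) * quadP (g j')) y = 0)
    (h2 : ∀ i : Fin 21, (i : ℕ) < 9 → y i = 0) : y = 0 := by
  have key : ∀ j j', ∑ c, kap (conv (g j) (d j')) (conv (d j) (g j')) c * y c = 0 := by
    intro j j'
    rw [← h1 j j']
    simp only [cf, quad_mul]
    simp only [Fin.sum_univ_succ, Fin.sum_univ_zero]
    simp only [kap]
    simp [prs]
    ring
  have h3 : (fun c : Fin 12 => y ⟨c + 9, by omega⟩) = 0 := by
    refine Matrix.eq_zero_of_mulVec_eq_zero h ?_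
    funext i
    rw [Pi.zero_apply]
    have h4 := key (rws i).1 (rws i).2
    have h5 : ∀ F : Fin 21 → ℂ, ∑ c, F c =
        ∑ c : Fin 9, F ⟨c, by omega⟩ + ∑ c : Fin 12, F ⟨c + 9, by omega⟩ := by
      intro F
      simp only [Fin.sum_univ_succ, Fin.sum_univ_zero]
      simp
      ring
    rw [h5] at h4
    rw [Finset.sum_eq_zero fun (c : Fin 9) _ => by rw [h2 _ c.2, mul_zero], zero_add] at h4
    exact h4
  funext c
  rw [Pi.zero_apply]
  by_cases hc : (c : ℕ) < 9
  · exact h2 c hc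
  · have := congrFun h3 ⟨c - 9, by omega⟩
    simp only [Pi.zero_apply] at this
    rw [← this]
    congr 1
    apply Fin.ext
    simp only
    omega

/-- the third matrix -/
lemma dirs_of_det {g d : Fin 7 → ℕ → ℂ} {s t : ℂ} (h : (M3 g d s t).det ≠ 0) (x y w : ℂ)
    (h1 : ∀ j, x * qw (wcf (g j) (d j)) s * qe (d j) t ^ 2 +
      y * qw (wcf (g j) (d j)) t * qe (d j) s ^ 2 +
      w * (qe (g j) t * qe (d j) t * qe (d j) s ^ 2) = 0) : x = 0 ∧ y = 0 := by
  have h2 : Matrix.vecMul ![x, y, w] (M3 g d s t) = 0 := by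
    funext j
    rw [Pi.zero_apply, ← h1 (tr j)]
    simp only [Matrix.vecMul, dotProduct, Fin.sum_univ_three, M3, Matrix.of_apply]
    simp
    ring
  have h3 := Matrix.eq_zero_of_vecMul_eq_zero h h2
  exact ⟨congrFun h3 0, congrFun h3 1⟩

end

end Pool.Agent.Y204.MC
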