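import Pool.Agent.Y204.MC.Data

/-!
# The nonvanishing conditions modulo `97`
-/

namespace Pool.Agent.Y204.MC

lemma h68 : 6 ≤ 8 := by omega

abbrev gA : Fin 7 → ℕ → ℤ := fun j => gc (zN AA) (e7 h68 j)

abbrev dA : Fin 7 → ℕ → ℤ := fun j => dcf (rc (zN AA) (e7 h68 j))

theorem A1 : ∀ l l' : Fin 9, l ≠ l' → ¬ (97 : ℤ) ∣ ta (zN AA) l - ta (zN AA) l' := by
  decide +kernel

theorem A2 : ∀ l : Fin 9, ¬ (97 : ℤ) ∣ lm (zN AA) l := by
  decide +kernel

theorem A3 : ∀ s : (Σ m : Fin (8 + 1), Fin (mu 8 m)), ∀ l : Fin 9,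
    ¬ (97 : ℤ) ∣ zN AA (Sum.inr (Sum.inl s)) - ta (zN AA) l := by
  decide +kernel

theorem A4 : ∀ s s' : (Σ m : Fin (8 + 1), Fin (mu 8 m)), s ≠ s' →
    ¬ (97 : ℤ) ∣ zN AA (Sum.inr (Sum.inl s)) - zN AA (Sum.inr (Sum.inl s')) := by
  decide +kernel

theorem A5 : ∀ s : (Σ m : Fin (8 + 1), Fin (mu 8 m)),
    ¬ (97 : ℤ) ∣ Gev (zN AA) s.1 (zN AA (Sum.inr (Sum.inl s))) := by
  decide +kernel

theorem A6 : ¬ (97 : ℤ) ∣ gc (zN AA) (e7 h68 0) 3 := by
  decide +kernel

def N1 : ℕ := 51242542088941469971366448881303564221226995499959305931491018304398349449741928446567899895029501233731675095481538767503402301447304953748443042624442838069725670831761423146128172278994005828271845456563252212417669602076689813861022953864463845050951409352993939937450816213355484922014221186025233294107422739942056720296429321773983069630374161767660697906121744304692114209024401998979994779595276356440999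

def N2 : ℕ := 1461208853131922002336231131878819517047886122607138586181916435040638365830089003682358914716142360188800129890075915703699338290503902954564623254161860651676357809555831475269292912025844126025185079712256380543673686050974878387056640033772994015205691191668079312823635598453041078327655596044594109

/-- the inverse matrices -/
def I1 : Matrix (Fin 14) (Fin 14) ℤ := fun i j => ((N1 / 2 ^ (7 * (14 * (i : ℕ) + j)) % 128 : ℕ) : ℤ)

def I2 : Matrix (Fin 12) (Fin 12) ℤ := fun i j => ((N2 / 2 ^ (7 * (12 * (i : ℕ) + j)) % 128 : ℕ) : ℤ)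

theorem A7 : ∀ i j, (97 : ℤ) ∣ (∑ k, M1 gA dA i k * I1 k j) - (if i = j then 1 else 0) := by
  decide +kernel

theorem A8 : ∀ i j, (97 : ℤ) ∣ (∑ k, M2 gA dA i k * I2 k j) - (if i = j then 1 else 0) := by
  decide +kernel

/-- a `3 × 3` determinant -/
def det3 (A : Matrix (Fin 3) (Fin 3) ℤ) : ℤ :=
  A 0 0 * A 1 1 * A 2 2 - A 0 0 * A 1 2 * A 2 1 - A 0 1 * A 1 0 * A 2 2 + A 0 1 * A 1 2 * A 2 0 +
    A 0 2 * A 1 0 * A 2 1 - A 0 2 * A 1 1 * A 2 0

theorem A9 : ∀ i, ¬ (97 : ℤ) ∣ det3 (M3 gA dA (ta (zN AA) (la i)) (ta (zN AA) (lb i))) := by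
  decide +kernel

end Pool.Agent.Y204.MC
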