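import Pool.Agent.Y204.MC.NormK
import Pool.Agent.H403R3.Ext

/-!
# The curve data of a normalised curve
-/

open Polynomial Module

namespace Pool.Agent.Y204.MC

open Pool.Agent.H403R3

/-- the first `n + 1` indices -/
def iL {n : ℕ} (m : Fin (n + 1)) : Fin (n + 4) := Fin.castLE (by omega) m

/-- the last three indices -/
def iR {n : ℕ} (k : Fin 3) : Fin (n + 4) := ⟨n + 1 + k, by omega⟩

lemma iL_inj {n : ℕ} {m m' : Fin (n + 1)} (h : iL m = iL m') : m = m' :=
  Fin.castLE_injective _ h

lemma iR_inj {n : ℕ} {k k' : Fin 3} (h : (iR k : Fin (n + 4)) = iR k') : k = k' := by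
  have := congrArg Fin.val h
  simp only [iR] at this
  exact Fin.ext (by omega)

lemma iL_ne_iR {n : ℕ} (m : Fin (n + 1)) (k : Fin 3) : (iL m : Fin (n + 4)) ≠ iR k := by
  intro h
  have := congrArg Fin.val h
  simp only [iL, iR, Fin.val_castLE] at this
  omega

lemma iL_or_iR {n : ℕ} (i : Fin (n + 4)) : (∃ m, i = iL m) ∨ ∃ k, i = iR k := by
  by_cases h : (i : ℕ) < n + 1
  · exact Or.inl ⟨⟨i, h⟩, by simp [iL]⟩
  · refine Or.inr ⟨⟨i - (n + 1), by omega⟩, Fin.ext ?_⟩
    simp only [iR]
    omega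

/-- the coordinate points and three more points -/
noncomputable def nPts {n : ℕ} (P : Fin 3 → Vec n) : Fin (n + 4) → Vec n := fun i =>
  if h : (i : ℕ) < n + 1 then Pi.single ⟨i, h⟩ 1 else P ⟨i - (n + 1), by omega⟩

lemma nPts_iL {n : ℕ} (P : Fin 3 → Vec n) (m : Fin (n + 1)) :
    nPts P (iL m) = Pi.single m 1 := by
  unfold nPts
  have : ((iL m : Fin (n + 4)) : ℕ) < n + 1 := m.2
  rw [dif_pos this]
  rfl

lemma nPts_iR {n : ℕ} (P : Fin 3 → Vec n) (k : Fin 3) : nPts P (iR k) = P k := by
  unfold nPts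
  have : ¬ ((iR k : Fin (n + 4)) : ℕ) < n + 1 := by simp only [iR]; omega
  rw [dif_neg this]
  congr 1
  apply Fin.ext
  simp only [iR]
  omega

/-- the contacts -/
abbrev QQ (n : ℕ) : Type := (Σ m : Fin (n + 1), Fin (mu n m)) ⊕ Fin 9

/-- the points of the contacts -/
def ptQ (n : ℕ) : QQ n → Fin (n + 4) := Sum.elim (fun s => iL s.1) (fun l => iR (ix l))

lemma card_QQ (n : ℕ) : Fintype.card (QQ n) = Norm.dg n + 9 := by
  rw [Fintype.card_sum, Fintype.card_sigma]
  simp [Norm.dg]

lemma dg_eq {n : ℕ} (hn : 6 ≤ n) : Norm.dg n = 4 * n - 3 := by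
  unfold Norm.dg mu
  rw [Fin.sum_univ_eq_sum_range (fun m => if m < 7 then 3 else 4)]
  induction n, hn using Nat.le_induction with
  | base => decide
  | succ n hn ih =>
    rw [Finset.sum_range_succ, ih]
    simp only [show ¬ (n + 1 < 7) by omega, if_false]
    omega

lemma card_fiber_iL {n : ℕ} (m : Fin (n + 1)) :
    (Finset.univ.filter (fun q => ptQ n q = iL m)).card = mu n m := by
  have : Finset.univ.filter (fun q => ptQ n q = iL m) =
      (Finset.univ : Finset (Fin (mu n m))).map
        ⟨fun k => Sum.inl ⟨m, k⟩, fun k k' h => by simpa using h⟩ := by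
    ext q
    simp only [Finset.mem_filter, Finset.mem_univ, true_and, Finset.mem_map,
      Function.Embedding.coeFn_mk]
    constructor
    · intro h
      rcases q with ⟨m', k⟩ | l
      · have := iL_inj h
        simp only at this
        subst this
        exact ⟨k, rfl⟩
      · exact absurd h.symm (iL_ne_iR _ _)
    · rintro ⟨k, rfl⟩
      rfl
  rw [this, Finset.card_map, Finset.card_univ, Fintype.card_fin]

lemma card_fiber_iR {n : ℕ} (k : Fin 3) :
    (Finset.univ.filter (fun q => ptQ n q = iR k)).card =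
      (Finset.univ.filter (fun l => ix l = k)).card := by
  have : Finset.univ.filter (fun q => ptQ n q = iR k) =
      (Finset.univ.filter (fun l => ix l = k)).map ⟨Sum.inr, Sum.inr_injective⟩ := by
    ext q
    simp only [Finset.mem_filter, Finset.mem_univ, true_and, Finset.mem_map,
      Function.Embedding.coeFn_mk]
    constructor
    · intro h
      rcases q with ⟨m', k'⟩ | l
      · exact absurd h (iL_ne_iR _ _)
      · exact ⟨l, iR_inj h, rfl⟩
    · rintro ⟨l, hl, rfl⟩
      rw [← hl]; rfl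
  rw [this, Finset.card_map]

lemma card_fiber_ix (k : Fin 3) :
    (Finset.univ.filter (fun l => ix l = k)).card = 3 := by
  revert k; decide

namespace Norm

variable {n : ℕ} {P : Fin 3 → Vec n} (N : Norm n P)

noncomputable def Gv (m : Fin (n + 1)) (a : Fin 2 → ℂ) : ℂ := hev (mu n m) (N.G m) a
noncomputable def Dv (m : Fin (n + 1)) (a : Fin 2 → ℂ) : ℂ := hev (mu n m) (N.D m) a
noncomputable def Dcv (m : Fin (n + 1)) (a : Fin 2 → ℂ) : ℂ := hev (dg n - mu n m) (N.Dc m) a
noncomputable def DDv (a : Fin 2 → ℂ) : ℂ := hev (dg n) N.DD a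

lemma hev_f (m : Fin (n + 1)) (a : Fin 2 → ℂ) :
    hev (dg n) (N.f m) a = N.Gv m a * N.Dcv m a := by
  have := le_dg n m
  exact hev_mul' (by omega) (N.degG m) (N.natDegree_Dc m).le a

lemma hev_DD (m : Fin (n + 1)) (a : Fin 2 → ℂ) : N.DDv a = N.Dv m a * N.Dcv m a := by
  have := le_dg n m
  unfold DDv
  rw [N.DD_eq m]
  exact hev_mul' (by omega) (N.natDegree_D m).le (N.natDegree_Dc m).le a

lemma Gv_e7 (j : Fin 7) (a : Fin 2 → ℂ) : N.Gv (e7 N.hn j) a = N.g j a := by
  unfold Gv g; rw [mu_e7]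

lemma Dv_e7 (j : Fin 7) (a : Fin 2 → ℂ) : N.Dv (e7 N.hn j) a = N.d j a := by
  unfold Dv d; rw [mu_e7]

/-- the zeros of `DD` -/
lemma pole_of {a : Fin 2 → ℂ} (ha : a ≠ 0) (h : N.DDv a = 0) :
    ∃ s, ∃ x : ℂ, x ≠ 0 ∧ a = x • ![1, N.rr s] := by
  have ha0 : a 0 ≠ 0 := by
    intro h0
    unfold DDv at h
    rw [hev_of_eq h0] at h
    have h1 := N.monic_DD.coeff_natDegree
    rw [N.natDegree_DD] at h1
    rw [h1, one_mul] at h
    exact a1_ne ha h0 (pow_eq_zero_iff (by have := dg_pos n; omega) |>.mp h)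
  unfold DDv at h
  rw [hev_of_ne N.natDegree_DD.le ha0] at h
  have h2 := (mul_eq_zero.mp h).resolve_left (pow_ne_zero _ ha0)
  rw [N.DD_sigma, eval_prod, Finset.prod_eq_zero_iff] at h2
  obtain ⟨s, _, hs⟩ := h2
  simp only [eval_sub, eval_X, eval_C, sub_eq_zero] at hs
  refine ⟨s, a 0, ha0, ?_⟩
  funext i
  fin_cases i
  · simp
  · simp only [Pi.smul_apply, smul_eq_mul]
    rw [← hs]
    simp
    field_simp

lemma f_pole (s : Σ m : Fin (n + 1), Fin (mu n m)) :
    vev N.f (N.rr s) = (N.f s.1).eval (N.rr s) • (Pi.single s.1 (1 : ℂ) : Vec n) := by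
  funext m
  by_cases hm : m = s.1
  · subst hm; simp [vev]
  · rw [vev, N.eval_f_rr_of_ne hm]
    simp [Pi.single_eq_of_ne hm]

lemma vhev_pole (s : Σ m : Fin (n + 1), Fin (mu n m)) (x : ℂ) :
    vhev (dg n) N.f (x • ![1, N.rr s]) =
      (x ^ dg n * (N.f s.1).eval (N.rr s)) • (Pi.single s.1 (1 : ℂ) : Vec n) := by
  rw [vhev_smul_arg, vhev_one N.natDegree_f, N.f_pole, smul_smul]

lemma notPole_contra {b : Fin 2 → ℂ} (hb : b ≠ 0) (hD : N.DDv b ≠ 0) (m₀ : Fin (n + 1))
    (h : ∀ m, m ≠ m₀ → vhev (dg n) N.f b m = 0) : False := by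
  obtain ⟨j, hj, hg⟩ := N.star_G' hb m₀
  have h1 := h _ hj
  unfold vhev at h1
  rw [N.hev_f, N.Gv_e7] at h1
  have h2 := (mul_eq_zero.mp h1).resolve_left hg
  rw [N.hev_DD (e7 N.hn j), h2, mul_zero] at hD
  exact hD rfl

lemma inj {a b : Fin 2 → ℂ} (ha : a ≠ 0) (hb : b ≠ 0)
    (h : vhev (dg n) N.f b ∈ Submodule.span ℂ {vhev (dg n) N.f a}) :
    (∃ c : ℂ, b = c • a) ∨ ∃ q q' : QQ n, q ≠ q' ∧ ptQ n q = ptQ n q' ∧
      (∃ c : ℂ, a = c • ![1, Sum.elim N.rr N.τ q]) ∧ ∃ c : ℂ, b = c • ![1, Sum.elim N.rr N.τ q'] := by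
  rw [Submodule.mem_span_singleton] at h
  obtain ⟨c, hc⟩ := h
  by_cases hDb : N.DDv b = 0
  · obtain ⟨s', y, hy, rfl⟩ := N.pole_of hb hDb
    rw [N.vhev_pole] at hc
    have hne : y ^ dg n * (N.f s'.1).eval (N.rr s') ≠ 0 :=
      mul_ne_zero (pow_ne_zero _ hy) (N.eval_f_rr s')
    have hc0 : c ≠ 0 := by
      rintro rfl
      have := congrFun hc s'.1
      simp only [Pi.smul_apply, Pi.single_eq_same, smul_eq_mul, mul_one, zero_mul] at this
      exact hne this.symm
    have hz : ∀ m, m ≠ s'.1 → vhev (dg n) N.f a m = 0 := by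
      intro m hm
      have := congrFun hc m
      simp only [Pi.smul_apply, Pi.single_eq_of_ne hm, smul_eq_mul, mul_zero] at this
      exact (mul_eq_zero.mp this).resolve_left hc0
    by_cases hDa : N.DDv a = 0
    · obtain ⟨s, x, hx, rfl⟩ := N.pole_of ha hDa
      rw [N.vhev_pole] at hz
      have hne' : x ^ dg n * (N.f s.1).eval (N.rr s) ≠ 0 :=
        mul_ne_zero (pow_ne_zero _ hx) (N.eval_f_rr s)
      have hss : s.1 = s'.1 := by
        by_contra hss
        have := hz s.1 hss
        simp only [Pi.smul_apply, Pi.single_eq_same, smul_eq_mul, mul_one] at this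
        exact hne' this
      by_cases hs : s = s'
      · subst hs
        exact Or.inl ⟨y / x, by rw [smul_smul, div_mul_cancel₀ _ hx]⟩
      · refine Or.inr ⟨Sum.inl s, Sum.inl s', fun h => hs (Sum.inl_injective h), ?_,
          ⟨x, rfl⟩, ⟨y, rfl⟩⟩
        simp only [ptQ, Sum.elim_inl, hss]
    · exact (N.notPole_contra ha hDa s'.1 hz).elim
  · by_cases hDa : N.DDv a = 0
    · obtain ⟨s, x, hx, rfl⟩ := N.pole_of ha hDa
      refine (N.notPole_contra hb hDb s.1 fun m hm => ?_).elim
      rw [← hc, N.vhev_pole]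
      simp [Pi.single_eq_of_ne hm]
    · have hp := N.pairs ha hb (by
        intro j j'
        have e1 := congrFun hc (e7 N.hn j)
        have e2 := congrFun hc (e7 N.hn j')
        simp only [Pi.smul_apply, smul_eq_mul, vhev, N.hev_f, N.Gv_e7] at e1 e2
        have a1 := N.hev_DD (e7 N.hn j) a
        have a2 := N.hev_DD (e7 N.hn j') a
        have b1 := N.hev_DD (e7 N.hn j) b
        have b2 := N.hev_DD (e7 N.hn j') b
        rw [N.Dv_e7] at a1 a2 b1 b2
        apply mul_left_cancel₀ (mul_ne_zero hDa hDb)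
        set A := N.DDv a
        set B := N.DDv b
        set x := N.Dcv (e7 N.hn j) a
        set x' := N.Dcv (e7 N.hn j') a
        set y := N.Dcv (e7 N.hn j) b
        set y' := N.Dcv (e7 N.hn j') b
        set g1 := N.g j a
        set g1' := N.g j' a
        set g2 := N.g j b
        set g2' := N.g j' b
        set d1 := N.d j a
        set d1' := N.d j' a
        set d2 := N.d j b
        set d2' := N.d j' b
        have l1 : A * B * (g1 * d1' * (d2 * g2')) = (g1 * x) * (g2' * y') * (d1 * d1' * d2 * d2') := by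
          rw [a1, b2]; ring
        have l2 : A * B * (g2 * d2' * (d1 * g1')) = (g2 * y) * (g1' * x') * (d1 * d1' * d2 * d2') := by
          rw [a2, b1]; ring
        rw [l1, l2, ← e1, ← e2]
        ring)
      rcases hp with h0 | ⟨l, l', hll, hix, hca, hcb⟩
      · left
        by_cases h00 : a 0 = 0
        · have ha1 := a1_ne ha h00
          rw [h00, zero_mul, zero_sub, neg_eq_zero] at h0
          have hb0 := (mul_eq_zero.mp h0).resolve_left ha1
          refine ⟨b 1 / a 1, ?_⟩
          funext i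
          fin_cases i
          · simp [h00, hb0]
          · simp; field_simp
        · refine ⟨b 0 / a 0, ?_⟩
          funext i
          fin_cases i
          · simp; field_simp
          · simp only [Fin.mk_one, Pi.smul_apply, smul_eq_mul]
            field_simp
            linear_combination h0
      · right
        refine ⟨Sum.inr l, Sum.inr l', fun h => hll (Sum.inr_injective h), ?_, hca, hcb⟩
        simp only [ptQ, Sum.elim_inr, hix]

lemma hev_eq_zero_of_wr {δ : ℕ} {φ ψ : ℂ[X]} (hδ : 1 ≤ δ) (hφ : φ.natDegree ≤ δ)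
    (hψ : ψ.natDegree ≤ δ) (a : Fin 2 → ℂ) :
    hev (δ - 1) (der0 δ φ) a * hev (δ - 1) (derivative ψ) a -
      hev (δ - 1) (derivative φ) a * hev (δ - 1) (der0 δ ψ) a =
      -(δ : ℂ) * hev (2 * δ - 2) (derivative φ * ψ - φ * derivative ψ) a := by
  have e : δ - 1 + (δ - 1) = 2 * δ - 2 := by omega
  rw [← hev_mul' e (natDegree_der0 hφ) (natDegree_derivative_le' hψ),
    ← hev_mul' e (natDegree_derivative_le' hφ) (natDegree_der0 hψ), ← hev_sub, ← hev_C_mul]
  congr 1
  unfold der0
  rw [C_neg]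
  ring

lemma imm {a : Fin 2 → ℂ} (ha : a ≠ 0) {c₀ c₁ : ℂ}
    (h : c₀ • vhev (dg n - 1) (fun j => der0 (dg n) (N.f j)) a +
      c₁ • vhev (dg n - 1) (fun j => derivative (N.f j)) a = 0) : c₀ = 0 ∧ c₁ = 0 := by
  have hδ := dg_pos n
  have hδ0 : (dg n : ℂ) ≠ 0 := by exact_mod_cast (by omega : dg n ≠ 0)
  by_cases hD : N.DDv a = 0
  · obtain ⟨s, x, hx, rfl⟩ := N.pole_of ha hD
    set t := N.rr s with ht
    rw [vhev_smul_arg, vhev_smul_arg, vhev_one (fun j => natDegree_der0 (N.natDegree_f j)),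
      vhev_one (fun j => natDegree_derivative_le' (N.natDegree_f j))] at h
    have h1 : ∀ m, c₀ * (dg n * (N.f m).eval t - t * (derivative (N.f m)).eval t) +
        c₁ * (derivative (N.f m)).eval t = 0 := by
      intro m
      have h2 := congrFun h m
      simp only [Pi.add_apply, Pi.smul_apply, smul_eq_mul, vev, der0, eval_sub, eval_mul, eval_C,
        eval_X, Pi.zero_apply] at h2
      apply mul_left_cancel₀ (pow_ne_zero (dg n - 1) hx)
      linear_combination h2
    obtain ⟨j, hj, hg⟩ := N.star_G' (pair_ne_zero t) s.1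
    rw [N.g_one] at hg
    have h2 := h1 (e7 N.hn j)
    rw [N.eval_f_rr_of_ne hj] at h2
    have h3 := N.eval_df_rr hj
    have h4 : (derivative (N.f (e7 N.hn j))).eval t ≠ 0 := by
      intro h0
      rw [h0, zero_mul] at h3
      exact (mul_ne_zero hg (N.eval_dDD_rr s)) h3.symm
    have h5 : c₁ - c₀ * t = 0 := by
      have : (c₁ - c₀ * t) * (derivative (N.f (e7 N.hn j))).eval t = 0 := by
        linear_combination h2
      exact (mul_eq_zero.mp this).resolve_right h4
    have h6 := h1 s.1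
    have h7 : c₀ * (dg n * (N.f s.1).eval t) = 0 := by
      linear_combination h6 - (derivative (N.f s.1)).eval t * h5
    have h8 : c₀ = 0 := (mul_eq_zero.mp h7).resolve_right (mul_ne_zero hδ0 (N.eval_f_rr s))
    refine ⟨h8, ?_⟩
    rw [h8] at h5
    simpa using h5
  · by_contra hcon
    -- all Wronskians vanish
    have h1 : ∀ m m', hev (dg n - 1) (der0 (dg n) (N.f m)) a *
        hev (dg n - 1) (derivative (N.f m')) a -
        hev (dg n - 1) (derivative (N.f m)) a * hev (dg n - 1) (der0 (dg n) (N.f m')) a = 0 := by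
      intro m m'
      have e1 := congrFun h m
      have e2 := congrFun h m'
      simp only [Pi.add_apply, Pi.smul_apply, smul_eq_mul, vhev, Pi.zero_apply] at e1 e2
      by_cases h0 : c₀ = 0
      · have h1' : c₁ ≠ 0 := fun h1' => hcon ⟨h0, h1'⟩
        apply mul_left_cancel₀ h1'
        linear_combination hev (dg n - 1) (der0 (dg n) (N.f m)) a * e2 -
          hev (dg n - 1) (der0 (dg n) (N.f m')) a * e1
      · apply mul_left_cancel₀ h0
        linear_combination hev (dg n - 1) (derivative (N.f m')) a * e1 -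
          hev (dg n - 1) (derivative (N.f m)) a * e2
    have h2 : ∀ j j', cf (N.KK j j') (N.KK' j j') (vv (ee a a)) = 0 := by
      intro j j'
      have e1 := h1 (e7 N.hn j) (e7 N.hn j')
      rw [hev_eq_zero_of_wr (by omega) (N.natDegree_f _) (N.natDegree_f _)] at e1
      have e2 := (mul_eq_zero.mp e1).resolve_left (neg_ne_zero.mpr hδ0)
      have e3 : (N.D (e7 N.hn j) * N.D (e7 N.hn j') * (N.D (e7 N.hn j) * N.D (e7 N.hn j'))) *
          (derivative (N.f (e7 N.hn j)) * N.f (e7 N.hn j') -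
            N.f (e7 N.hn j) * derivative (N.f (e7 N.hn j'))) =
          (N.DD * N.DD) * (derivative (N.KK j j') * N.KK' j j' -
            N.KK j j' * derivative (N.KK' j j')) := by
        obtain ⟨h, hh⟩ : ∃ h, h = N.D (e7 N.hn j) * N.D (e7 N.hn j') := ⟨_, rfl⟩
        rw [← hh]
        have f1 : h * N.f (e7 N.hn j) = N.DD * N.KK j j' := by
          rw [hh, KK]
          linear_combination N.D (e7 N.hn j') * N.f_D (e7 N.hn j)
        have f2 : h * N.f (e7 N.hn j') = N.DD * N.KK' j j' := by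
          rw [hh, KK']
          linear_combination N.D (e7 N.hn j) * N.f_D (e7 N.hn j')
        have g1 := congrArg derivative f1
        have g2 := congrArg derivative f2
        rw [derivative_mul, derivative_mul] at g1 g2
        have l1 : h * h * (derivative (N.f (e7 N.hn j)) * N.f (e7 N.hn j') -
            N.f (e7 N.hn j) * derivative (N.f (e7 N.hn j'))) =
            (derivative h * N.f (e7 N.hn j) + h * derivative (N.f (e7 N.hn j))) *
              (h * N.f (e7 N.hn j')) - (h * N.f (e7 N.hn j)) *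
              (derivative h * N.f (e7 N.hn j') + h * derivative (N.f (e7 N.hn j'))) := by ring
        rw [l1, g1, g2, f1, f2]
        ring
      have e4 := congrArg (fun φ => hev (2 * dg n + 10) φ a) e3
      beta_reduce at e4
      have hd4 : (N.D (e7 N.hn j) * N.D (e7 N.hn j')).natDegree ≤ 6 :=
        natDegree_mul_le_of_le (N.degD7 j) (N.degD7 j')
      have hd8 : (N.D (e7 N.hn j) * N.D (e7 N.hn j') *
          (N.D (e7 N.hn j) * N.D (e7 N.hn j'))).natDegree ≤ 12 :=
        natDegree_mul_le_of_le hd4 hd4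
      have hw1 := natDegree_wr (by omega) (N.natDegree_f (e7 N.hn j)) (N.natDegree_f (e7 N.hn j'))
      have hw2 := natDegree_wr (d := 6) (by omega) (N.natDegree_KK j j') (N.natDegree_KK' j j')
      have hDD2 : (N.DD * N.DD).natDegree ≤ dg n + dg n :=
        natDegree_mul_le_of_le N.natDegree_DD.le N.natDegree_DD.le
      rw [hev_mul' (show 12 + (2 * dg n - 2) = 2 * dg n + 10 by omega) hd8 hw1, e2, mul_zero,
        hev_mul' (show (dg n + dg n) + 10 = 2 * dg n + 10 by omega) hDD2 hw2,
        hev_mul' rfl N.natDegree_DD.le N.natDegree_DD.le] at e4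
      have e5' := (mul_eq_zero.mp e4.symm).resolve_left (mul_ne_zero hD hD)
      have e6 := wr_eq (N.KK j j') (N.KK' j j') a
      have e7 := hev_eq_zero_of_wr (δ := 6) (by norm_num) (N.natDegree_KK j j')
        (N.natDegree_KK' j j') a
      norm_num at e7
      have e8 : hev 10 (derivative (N.KK j j') * N.KK' j j' -
            N.KK j j' * derivative (N.KK' j j')) a = 0 := e5'
      rw [e6, e8, mul_zero, neg_zero] at e7
      exact (mul_eq_zero.mp e7).resolve_left (by norm_num)
    have hne := ee_ne ha ha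
    obtain ⟨i, hi⟩ := N.lemK h2
    rw [Submodule.mem_span_singleton] at hi
    obtain ⟨c, hc⟩ := hi
    have e0 := congrFun hc 0
    have e1 := congrFun hc 1
    have e2 := congrFun hc 2
    simp only [qq, qv, ee, Pi.smul_apply, smul_eq_mul, Matrix.cons_val_zero, Matrix.cons_val_one,
      Matrix.cons_val] at e0 e1 e2
    rw [mul_one] at e0
    have hc0 : c ≠ 0 := by
      rintro rfl
      rw [zero_smul] at hc
      exact hne hc.symm
    have h3 : N.τ (la i) - N.τ (lb i) = 0 := by
      have : (c * c) * ((N.τ (la i) - N.τ (lb i)) * (N.τ (la i) - N.τ (lb i))) = 0 := by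
        linear_combination (c * (N.τ (la i) + N.τ (lb i)) + (a 0 * a 1 + a 1 * a 0)) * e1 -
          4 * c * e2 - 4 * (a 1 * a 1) * e0
      have h4 := (mul_eq_zero.mp this).resolve_left (mul_ne_zero hc0 hc0)
      exact mul_self_eq_zero.mp h4
    exact la_ne_lb i (N.τ_inj (sub_eq_zero.mp h3))

end Norm

end Pool.Agent.Y204.MC
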