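import Pool.Agent.Y204.MC.Pairs

/-!
# Infinitely many pairs of quartics: the implicit function theorem
-/

open Polynomial Module Filter Topology

namespace Pool.Agent.Y204.MC

open Pool.Agent.H403R3

/-- the unknowns of one pair -/
abbrev ZZ : Type := Fin 5 ⊕ Fin 4 → ℂ

/-- the values -/
noncomputable def Psi (τ lam : Fin 9 → ℂ) (z : ZZ) (l : Fin 9) : ℂ :=
  (∑ j, z (Sum.inl j) * τ l ^ ((j : Fin 5) : ℕ)) / (lam l * ∏ k, (τ l - z (Sum.inr k)))

section

variable {τ lam : Fin 9 → ℂ} (hτ : Function.Injective τ) (hlam : ∀ l, lam l ≠ 0)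

/-- the good unknowns -/
def OZ (τ : Fin 9 → ℂ) (z : ZZ) : Prop := Opn τ (fun j => z (Sum.inl j), fun k => z (Sum.inr k))

include hlam in
lemma den_ne' {z : ZZ} (hz : OZ τ z) (l : Fin 9) : lam l * ∏ k, (τ l - z (Sum.inr k)) ≠ 0 := by
  refine mul_ne_zero (hlam l) (Finset.prod_ne_zero_iff.mpr fun k _ => ?_)
  have := hz.2.1 k l
  simp only at this
  intro h
  apply this
  linear_combination (-1 : ℂ) * h

include hlam in
lemma contDiffAt_Psi {z : ZZ} (hz : OZ τ z) : ContDiffAt ℂ 1 (Psi τ lam) z := by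
  rw [contDiffAt_pi]
  intro l
  have h1 : ContDiff ℂ 1 fun z : ZZ => ∑ j, z (Sum.inl j) * τ l ^ ((j : Fin 5) : ℕ) :=
    ContDiff.sum fun j _ => (contDiff_apply ℂ ℂ (Sum.inl j)).mul contDiff_const
  have h2 : ContDiff ℂ 1 fun z : ZZ => lam l * ∏ k, (τ l - z (Sum.inr k)) :=
    contDiff_const.mul (contDiff_prod fun k _ => contDiff_const.sub
      (contDiff_apply ℂ ℂ (Sum.inr k)))
  exact ContDiffAt.fun_div h1.contDiffAt h2.contDiffAt (den_ne' hlam hz l)

/-- the derivative of the denominator -/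
noncomputable def dv (z v : ZZ) : ℂ[X] :=
  -∑ k : Fin 4, C (v (Sum.inr k)) * ∏ k' ∈ Finset.univ.erase k, (X - C (z (Sum.inr k')))

lemma natDegree_dv (z v : ZZ) : (dv z v).natDegree ≤ 4 := by
  unfold dv
  rw [natDegree_neg]
  refine natDegree_sum_le_of_forall_le _ _ fun k hk => ?_
  refine (natDegree_C_mul_le _ _).trans ?_
  rw [natDegree_nodes, Finset.card_erase_of_mem hk, Finset.card_univ, Fintype.card_fin]
  omega

lemma hasDeriv_aff' (a b : ℂ) : HasDerivAt (fun t : ℂ => a + t * b) b 0 := by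
  have := ((hasDerivAt_id (0 : ℂ)).mul_const b).const_add a
  simpa using! this

lemma hasDeriv_num (z v : ZZ) (x : ℂ) :
    HasDerivAt (fun t : ℂ => ∑ j, (z + t • v) (Sum.inl j) * x ^ ((j : Fin 5) : ℕ))
      ((gP fun j => v (Sum.inl j)).eval x) 0 := by
  have h1 : ∀ j ∈ (Finset.univ : Finset (Fin 5)), HasDerivAt
      (fun t : ℂ => (z (Sum.inl j) + t * v (Sum.inl j)) * x ^ (j : ℕ))
      (v (Sum.inl j) * x ^ (j : ℕ)) 0 := fun j _ => (hasDeriv_aff' _ _).mul_const _
  have h2 := HasDerivAt.fun_sum h1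
  rw [gP_eval]
  simpa using! h2

lemma hasDeriv_den (z v : ZZ) (x c : ℂ) :
    HasDerivAt (fun t : ℂ => c * ∏ k, (x - (z + t • v) (Sum.inr k)))
      (c * (dv z v).eval x) 0 := by
  have h1 : ∀ k ∈ (Finset.univ : Finset (Fin 4)), HasDerivAt
      (fun t : ℂ => x - (z (Sum.inr k) + t * v (Sum.inr k))) (-v (Sum.inr k)) 0 :=
    fun k _ => (hasDeriv_aff' _ _).const_sub x
  have h2 := (HasDerivAt.fun_finsetProd h1).const_mul c
  have h3 : (fun t : ℂ => c * ∏ k, (x - (z + t • v) (Sum.inr k))) =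
      fun t : ℂ => c * ∏ k, (x - (z (Sum.inr k) + t * v (Sum.inr k))) := by
    funext t
    simp
  rw [h3]
  refine h2.congr_deriv ?_
  rw [dv, eval_neg, eval_finsetSum, ← Finset.sum_neg_distrib]
  congr 1
  refine Finset.sum_congr rfl fun k _ => ?_
  simp only [eval_mul, eval_prod, eval_sub, eval_X, eval_C, smul_eq_mul, zero_mul, add_zero]
  ring

include hτ hlam in
lemma kernel_zero {z : ZZ} (hz : OZ τ z) {v : ZZ} (hv : fderiv ℂ (Psi τ lam) z v = 0) : v = 0 := by
  have key : ∀ l, ((gP fun j => v (Sum.inl j)) * dP (fun k => z (Sum.inr k)) -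
      (gP fun j => z (Sum.inl j)) * dv z v).eval (τ l) = 0 := by
    intro l
    have h1 := (contDiffAt_Psi hlam hz).differentiableAt one_ne_zero
    have h2 : HasDerivAt (fun t : ℂ => z + t • v) v 0 := by
      have := ((hasDerivAt_id (0 : ℂ)).smul_const v).const_add z
      simpa using! this
    have h3 : HasDerivAt (fun t : ℂ => Psi τ lam (z + t • v)) 0 0 := by
      have h4 : HasFDerivAt (Psi τ lam) (fderiv ℂ (Psi τ lam) z) (z + (0 : ℂ) • v) := by
        rw [zero_smul, add_zero]; exact h1.hasFDerivAt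
      have := h4.comp_hasDerivAt (0 : ℂ) h2
      rw [hv] at this
      exact this
    have h5 : HasDerivAt (fun t : ℂ => Psi τ lam (z + t • v) l) 0 0 := (hasDerivAt_pi.mp h3) l
    have hden := den_ne' hlam hz l
    have h6 := (hasDeriv_num z v (τ l)).fun_div (hasDeriv_den z v (τ l) (lam l)) (by
      simp only [zero_smul, add_zero]
      exact hden)
    have h7 := h5.unique h6
    simp only [zero_smul, add_zero] at h7
    have h8 := (div_eq_zero_iff.mp h7.symm).resolve_right (pow_ne_zero _ hden)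
    rw [eval_sub, eval_mul, eval_mul, dP_eval, gP_eval (fun j => z (Sum.inl j))]
    apply mul_left_cancel₀ (hlam l)
    linear_combination h8
  have hpoly : (gP fun j => v (Sum.inl j)) * dP (fun k => z (Sum.inr k)) -
      (gP fun j => z (Sum.inl j)) * dv z v = 0 := by
    refine eq_zero_of_nodes hτ ?_ key
    refine (natDegree_sub_le _ _).trans (max_le ?_ ?_)
    · exact (natDegree_mul_le_of_le (gP_natDegree _) (dP_natDegree _).le)
    · exact (natDegree_mul_le_of_le (gP_natDegree _) (natDegree_dv z v))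
  have hr : ∀ k, v (Sum.inr k) = 0 := by
    intro k
    have h1 := congrArg (eval (z (Sum.inr k))) hpoly
    rw [eval_sub, eval_mul, eval_mul, dP_eval,
      Finset.prod_eq_zero (Finset.mem_univ k) (sub_self _), mul_zero, zero_sub, eval_zero,
      neg_eq_zero] at h1
    have hG : (gP fun j => z (Sum.inl j)).eval (z (Sum.inr k)) ≠ 0 := by
      rw [gP_eval]; exact hz.2.2 k
    have h2 := (mul_eq_zero.mp h1).resolve_left hG
    rw [dv, eval_neg, neg_eq_zero, eval_finsetSum, Finset.sum_eq_single k] at h2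
    · rw [eval_mul, eval_C, eval_prod] at h2
      refine (mul_eq_zero.mp h2).resolve_right (Finset.prod_ne_zero_iff.mpr ?_)
      intro k' hk'
      simp only [eval_sub, eval_X, eval_C]
      exact hz.1 k k' (Finset.mem_erase.mp hk').1.symm
    · intro b _ hb
      rw [eval_mul, eval_prod, Finset.prod_eq_zero (Finset.mem_erase.mpr
        ⟨hb.symm, Finset.mem_univ k⟩), mul_zero]
      simp
    · intro h; exact absurd (Finset.mem_univ k) h
  have hdv : dv z v = 0 := by
    unfold dv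
    rw [neg_eq_zero]
    exact Finset.sum_eq_zero fun k _ => by rw [hr, C_0, zero_mul]
  rw [hdv, mul_zero, sub_zero] at hpoly
  have hg := gP_eq_zero ((mul_eq_zero.mp hpoly).resolve_right (dP_monic _).ne_zero)
  funext s
  rcases s with j | k
  · exact congrFun hg j
  · exact hr k

include hτ hlam in
lemma map_nhds_Psi {z : ZZ} (hz : OZ τ z) : map (Psi τ lam) (𝓝 z) = 𝓝 (Psi τ lam z) := by
  refine ((contDiffAt_Psi hlam hz).hasStrictFDerivAt one_ne_zero).map_nhds_eq_of_surj ?_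
  set L : ZZ →ₗ[ℂ] (Fin 9 → ℂ) := (fderiv ℂ (Psi τ lam) z).toLinearMap with hL
  have hinj : Function.Injective L := by
    rw [injective_iff_map_eq_zero]
    intro v hv
    exact kernel_zero hτ hlam hz hv
  have h3 : LinearMap.range L = ⊤ := by
    apply Submodule.eq_top_of_finrank_eq
    rw [LinearMap.finrank_range_of_inj hinj, finrank_pi, finrank_pi, Fintype.card_sum]
    simp
  exact h3

lemma isOpen_OZ (τ : Fin 9 → ℂ) : IsOpen {z : ZZ | OZ τ z} := by
  have : {z : ZZ | OZ τ z} =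
      (⋂ k : Fin 4, ⋂ k' : Fin 4, {z : ZZ | k ≠ k' → z (Sum.inr k) - z (Sum.inr k') ≠ 0}) ∩
      ((⋂ k : Fin 4, ⋂ l : Fin 9, {z : ZZ | z (Sum.inr k) - τ l ≠ 0}) ∩
      ⋂ k : Fin 4, {z : ZZ | ∑ j, z (Sum.inl j) * z (Sum.inr k) ^ ((j : Fin 5) : ℕ) ≠ 0}) := by
    ext z
    simp only [Set.mem_inter_iff, Set.mem_iInter]
    rfl
  rw [this]
  refine IsOpen.inter ?_ (IsOpen.inter ?_ ?_)
  · refine isOpen_iInter_of_finite fun k => isOpen_iInter_of_finite fun k' => ?_
    by_cases h : k = k'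
    · have : {z : ZZ | k ≠ k' → z (Sum.inr k) - z (Sum.inr k') ≠ 0} = Set.univ := by
        ext z; simp [h]
      rw [this]; exact isOpen_univ
    · have : {z : ZZ | k ≠ k' → z (Sum.inr k) - z (Sum.inr k') ≠ 0} =
          {z : ZZ | z (Sum.inr k) - z (Sum.inr k') ≠ 0} := by
        ext z; simp [h]
      rw [this]
      exact isOpen_ne_fun (by fun_prop) continuous_const
  · exact isOpen_iInter_of_finite fun k => isOpen_iInter_of_finite fun l =>
      isOpen_ne_fun (by fun_prop) continuous_const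
  · exact isOpen_iInter_of_finite fun k => isOpen_ne_fun (by fun_prop) continuous_const

lemma cont_of_Psi {z : ZZ} (hlam : ∀ l, lam l ≠ 0) (hz : OZ τ z) {P : Fin 3 → ℂ}
    (h : Psi τ lam z = fun l => P (ix l)) :
    Cont τ lam (fun j => z (Sum.inl j)) (fun k => z (Sum.inr k)) P := by
  intro l
  have h1 := congrFun h l
  unfold Psi at h1
  rw [div_eq_iff (den_ne' hlam hz l)] at h1
  rw [gP_eval, dP_eval, h1]
  ring

lemma Psi_of_cont {z : ZZ} (hlam : ∀ l, lam l ≠ 0) (hz : OZ τ z) {P : Fin 3 → ℂ}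
    (h : Cont τ lam (fun j => z (Sum.inl j)) (fun k => z (Sum.inr k)) P) :
    Psi τ lam z = fun l => P (ix l) := by
  funext l
  have h1 := h l
  unfold Psi
  rw [div_eq_iff (den_ne' hlam hz l)]
  rw [gP_eval, dP_eval] at h1
  rw [h1]
  ring

end

/-- infinitely many pairs -/
theorem exists_pair {τ lam : Fin 9 → ℂ} (hτ : Function.Injective τ) (hlam : ∀ l, lam l ≠ 0)
    {g0 g1 : Fin 5 → ℂ} {ρ0 ρ1 : Fin 4 → ℂ} {P0 P1 : Fin 3 → ℂ}
    (h0 : Cont τ lam g0 ρ0 P0) (o0 : Opn τ (g0, ρ0)) (h1 : Cont τ lam g1 ρ1 P1)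
    (o1 : Opn τ (g1, ρ1)) (hdis : ∀ k k', ρ0 k ≠ ρ1 k') (B : Finset ℂ) :
    ∃ (g : Fin 5 → ℂ) (ρ : Fin 4 → ℂ) (P : Fin 3 → ℂ), Cont τ lam g ρ P ∧ Opn τ (g, ρ) ∧
      ∀ k, ρ k ∉ B := by
  set Q : ℂ → ℂ[X] := fun x => (NM (fun l => C (τ l)) (fun l => C (lam l))
    (fun k => C (P0 k) + X * C (P1 k - P0 k)) (C x)).det with hQ
  have hQe : ∀ x s, (Q x).eval s = (NM τ lam (fun k => P0 k + s * (P1 k - P0 k)) x).det := by
    intro x s
    rw [hQ]
    have h2 := map_NM (evalRingHom s) (fun l => C (τ l)) (fun l => C (lam l))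
      (fun k => C (P0 k) + X * C (P1 k - P0 k)) (C x)
    simp only [coe_evalRingHom, eval_C, eval_add, eval_mul, eval_X] at h2
    rw [h2, ← RingHom.map_det]
    rfl
  have hQne : ∀ x, Q x ≠ 0 := by
    intro x hx
    by_cases hxρ : ∃ k, ρ0 k = x
    · obtain ⟨k, rfl⟩ := hxρ
      have h2 := hQe (ρ0 k) 1
      have e : (fun k => P0 k + 1 * (P1 k - P0 k)) = P1 := by funext k; ring
      rw [hx, e, eval_zero] at h2
      exact NM_det_ne hτ h1 o1 (fun k' h => hdis k k' h.symm) h2.symm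
    · push Not at hxρ
      have h2 := hQe x 0
      have e : (fun k => P0 k + 0 * (P1 k - P0 k)) = P0 := by funext k; ring
      rw [hx, e, eval_zero] at h2
      exact NM_det_ne hτ h0 o0 hxρ h2.symm
  set z0 : ZZ := Sum.elim g0 ρ0 with hz0
  have hz0o : OZ τ z0 := o0
  have hΨ0 : Psi τ lam z0 = fun l => P0 (ix l) := Psi_of_cont hlam hz0o h0
  have hU : Psi τ lam '' {z : ZZ | OZ τ z} ∈ 𝓝 (fun l => P0 (ix l)) := by
    rw [← hΨ0, ← map_nhds_Psi hτ hlam hz0o]
    exact image_mem_map ((isOpen_OZ τ).mem_nhds hz0o)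
  have hcont : Continuous fun s : ℂ => fun l : Fin 9 => P0 (ix l) + s * (P1 (ix l) - P0 (ix l)) :=
    continuous_pi fun l => continuous_const.add (continuous_id.mul continuous_const)
  have hV : {s : ℂ | (fun l : Fin 9 => P0 (ix l) + s * (P1 (ix l) - P0 (ix l))) ∈
      Psi τ lam '' {z : ZZ | OZ τ z}} ∈ 𝓝 (0 : ℂ) := by
    refine hcont.continuousAt.preimage_mem_nhds ?_
    simpa using hU
  have hinf := infinite_of_mem_nhds (0 : ℂ) hV
  set bad : Finset ℂ := B.biUnion fun x => (Q x).roots.toFinset with hbad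
  obtain ⟨s, hs, hsb⟩ := hinf.exists_notMem_finset bad
  obtain ⟨z, hz, hzP⟩ := hs
  have hc : Cont τ lam (fun j => z (Sum.inl j)) (fun k => z (Sum.inr k))
      (fun k => P0 k + s * (P1 k - P0 k)) := cont_of_Psi hlam hz hzP
  refine ⟨_, _, _, hc, hz, fun k hk => hsb ?_⟩
  rw [hbad, Finset.mem_biUnion]
  refine ⟨_, hk, ?_⟩
  rw [Multiset.mem_toFinset, mem_roots (hQne _), IsRoot.def, hQe]
  exact NM_det_eq hc k

end Pool.Agent.Y204.MC
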