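import Pool.Agent.Y204.MC.Example8
import Pool.Agent.Y204.MC.PairsIFT
import Pool.Agent.Y204.MC.IFT

/-!
# A solution over the complex numbers in every dimension
-/

open Finset

namespace Pool.Agent.Y204.MC

/-- pairs of quartics with a point -/
abbrev PairT : Type := (Fin 5 → ℂ) × (Fin 4 → ℂ) × (Fin 3 → ℂ)

lemma exists_pairs {τ lam : Fin 9 → ℂ} (hτ : Function.Injective τ) (hlam : ∀ l, lam l ≠ 0)
    {g0 g1 : Fin 5 → ℂ} {ρ0 ρ1 : Fin 4 → ℂ} {P0 P1 : Fin 3 → ℂ}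
    (h0 : Cont τ lam g0 ρ0 P0) (o0 : Opn τ (g0, ρ0)) (h1 : Cont τ lam g1 ρ1 P1)
    (o1 : Opn τ (g1, ρ1)) (hdis : ∀ k k', ρ0 k ≠ ρ1 k') (B : Finset ℂ) :
    ∃ f : ℕ → PairT, (∀ i, Cont τ lam (f i).1 (f i).2.1 (f i).2.2 ∧ Opn τ ((f i).1, (f i).2.1) ∧
      ∀ k, (f i).2.1 k ∉ B) ∧ ∀ i j, i < j → ∀ k k', (f i).2.1 k ≠ (f j).2.1 k' := by
  classical
  refine exists_seq_of_forall_finset_exists
    (fun x : PairT => Cont τ lam x.1 x.2.1 x.2.2 ∧ Opn τ (x.1, x.2.1) ∧ ∀ k, x.2.1 k ∉ B)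
    (fun x y => ∀ k k', x.2.1 k ≠ y.2.1 k') ?_
  intro s _
  obtain ⟨g, ρ, P, hc, ho, hB⟩ := exists_pair hτ hlam h0 o0 h1 o1 hdis
    (B ∪ s.biUnion fun x => Finset.univ.image x.2.1)
  refine ⟨(g, ρ, P), ⟨hc, ho, fun k hk => hB k (mem_union_left _ hk)⟩, fun x hx k k' h => ?_⟩
  refine hB k' (mem_union_right _ (mem_biUnion.mpr ⟨x, hx, mem_image.mpr ⟨k, mem_univ _, h⟩⟩))

section

variable {n : ℕ}

lemma Gev_four (z : RR n → ℂ) {m : Fin (n + 1)} (hm : mu n m = 4) (x : ℂ) :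
    Gev z m x = (gP fun k : Fin 5 => gc z m k).eval x := by
  unfold Gev
  rw [hm, gP_eval, Finset.sum_range]

lemma Dev_four (z : RR n → ℂ) {m : Fin (n + 1)} (hm : mu n m = 4) (x : ℂ) :
    Dev z m x = (dP fun k : Fin 4 => rc z m k).eval x := by
  unfold Dev
  rw [hm, dP_eval, Finset.prod_range]

lemma rc_eq (z : RR n → ℂ) (m : Fin (n + 1)) (k : Fin (mu n m)) :
    rc z m k = z (Sum.inr (Sum.inl ⟨m, k⟩)) := by
  unfold rc; rw [dif_pos k.2]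

lemma rc_eq' (z : RR n → ℂ) (m : Fin (n + 1)) {k : ℕ} (hk : k < mu n m) :
    rc z m k = z (Sum.inr (Sum.inl ⟨m, ⟨k, hk⟩⟩)) := by
  unfold rc; rw [dif_pos hk]

lemma cont_of_EE {P : Fin 3 × Fin (n + 1) → ℂ} {z : RR n → ℂ} (h : ∀ q, EE P z q = 0)
    {m : Fin (n + 1)} (hm : mu n m = 4) :
    Cont (ta z) (lm z) (fun k => gc z m k) (fun k => rc z m k) (fun i => P (i, m)) := by
  intro l
  have h1 := h (l, m)
  unfold EE at h1
  simp only at h1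
  rw [Gev_four z hm, Dev_four z hm] at h1
  linear_combination h1

lemma opn_of_good {hn : 6 ≤ n} {z : RR n → ℂ} (h : Good hn z)
    {m : Fin (n + 1)} (hm : mu n m = 4) :
    Opn (ta z) (fun k => gc z m k, fun k => rc z m k) := by
  refine ⟨fun k k' hk => ?_, fun k l => ?_, fun k => ?_⟩
  · simp only
    rw [rc_eq' z m (by omega : (k : ℕ) < mu n m), rc_eq' z m (by omega : (k' : ℕ) < mu n m)]
    refine h.r_r _ _ fun h1 => hk ?_
    have h2 := eq_of_heq (Sigma.mk.inj h1).2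
    have h3 := congrArg (fun x : Fin (mu n m) => (x : ℕ)) h2
    exact Fin.ext h3.symm
  · simp only
    rw [rc_eq' z m (by omega : (k : ℕ) < mu n m)]
    exact h.r_τ _ l
  · have h1 := h.G_r ⟨m, ⟨k, by omega⟩⟩
    simp only at h1
    rw [← rc_eq' z m (by omega : (k : ℕ) < mu n m), Gev_four z hm, gP_eval] at h1
    exact h1

end

section

variable {n : ℕ} {z8 : RR 8 → ℂ} {f : ℕ → PairT}

noncomputable def gs (z8 : RR 8 → ℂ) (f : ℕ → PairT) (m k : ℕ) : ℂ :=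
  if h : m < 7 then gc z8 (e7 h68 ⟨m, h⟩) k else if h' : k < 5 then (f (m - 7)).1 ⟨k, h'⟩ else 0

noncomputable def rs (z8 : RR 8 → ℂ) (f : ℕ → PairT) (m k : ℕ) : ℂ :=
  if h : m < 7 then rc z8 (e7 h68 ⟨m, h⟩) k else if h' : k < 4 then (f (m - 7)).2.1 ⟨k, h'⟩ else 0

noncomputable def ps (f : ℕ → PairT) (i : Fin 3) (m : ℕ) : ℂ :=
  if h : m < 7 then (P8 (i, e7 h68 ⟨m, h⟩) : ℂ) else (f (m - 7)).2.2 i

noncomputable def zs (n : ℕ) (z8 : RR 8 → ℂ) (f : ℕ → PairT) : RR n → ℂ :=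
  Sum.elim (fun s => gs z8 f s.1 s.2) (Sum.elim (fun s => rs z8 f s.1 s.2)
    (Sum.elim (ta z8) (lm z8)))

lemma ta_zs (l : Fin 9) : ta (zs n z8 f) l = ta z8 l := rfl

lemma lm_zs (l : Fin 9) : lm (zs n z8 f) l = lm z8 l := rfl

lemma gc_zs_e7 (hn : 6 ≤ n) (j : Fin 7) : gc (zs n z8 f) (e7 hn j) = gc z8 (e7 h68 j) := by
  funext k
  by_cases h : k < 4
  · have h1 : k < mu n (e7 hn j) + 1 := by rw [mu_e7]; exact h
    rw [gc, dif_pos h1]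
    change gs z8 f ((e7 hn j : Fin (n + 1)) : ℕ) k = _
    unfold gs
    rw [dif_pos (show ((e7 hn j : Fin (n + 1)) : ℕ) < 7 from j.2)]
    rfl
  · rw [gc, dif_neg (by rw [mu_e7]; exact h), gc, dif_neg (by rw [mu_e7]; exact h)]

lemma rc_zs_e7 (hn : 6 ≤ n) (j : Fin 7) : rc (zs n z8 f) (e7 hn j) = rc z8 (e7 h68 j) := by
  funext k
  by_cases h : k < 3
  · have h1 : k < mu n (e7 hn j) := by rw [mu_e7]; exact h
    rw [rc, dif_pos h1]
    change rs z8 f ((e7 hn j : Fin (n + 1)) : ℕ) k = _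
    unfold rs
    rw [dif_pos (show ((e7 hn j : Fin (n + 1)) : ℕ) < 7 from j.2)]
    rfl
  · rw [rc, dif_neg (by rw [mu_e7]; exact h), rc, dif_neg (by rw [mu_e7]; exact h)]

lemma mu_ge {m : Fin (n + 1)} (h : 7 ≤ (m : ℕ)) : mu n m = 4 := by
  unfold mu; rw [if_neg (by omega)]

lemma lt_or_ge (hn : 6 ≤ n) (m : Fin (n + 1)) : (∃ j, m = e7 hn j) ∨ 7 ≤ (m : ℕ) := by
  by_cases h : (m : ℕ) < 7
  · exact Or.inl ⟨⟨m, h⟩, Fin.ext rfl⟩
  · exact Or.inr (by omega)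

lemma gc_zs_ge {m : Fin (n + 1)} (h : 7 ≤ (m : ℕ)) (k : Fin 5) :
    gc (zs n z8 f) m k = (f (m - 7)).1 k := by
  have h1 : (k : ℕ) < mu n m + 1 := by rw [mu_ge h]; exact k.2
  rw [gc, dif_pos h1]
  change gs z8 f m k = _
  unfold gs
  rw [dif_neg (by omega), dif_pos k.2]

lemma rc_zs_ge {m : Fin (n + 1)} (h : 7 ≤ (m : ℕ)) (k : Fin 4) :
    rc (zs n z8 f) m k = (f (m - 7)).2.1 k := by
  have h1 : (k : ℕ) < mu n m := by rw [mu_ge h]; exact k.2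
  rw [rc, dif_pos h1]
  change rs z8 f m k = _
  unfold rs
  rw [dif_neg (by omega), dif_pos k.2]

lemma Gev_zs_e7 (hn : 6 ≤ n) (j : Fin 7) (x : ℂ) :
    Gev (zs n z8 f) (e7 hn j) x = Gev z8 (e7 h68 j) x := by
  unfold Gev
  rw [gc_zs_e7, mu_e7, mu_e7]

lemma Dev_zs_e7 (hn : 6 ≤ n) (j : Fin 7) (x : ℂ) :
    Dev (zs n z8 f) (e7 hn j) x = Dev z8 (e7 h68 j) x := by
  unfold Dev
  rw [rc_zs_e7, mu_e7, mu_e7]

lemma EE_zs (hn : 6 ≤ n) (h8 : ∀ q, EE (fun s => (P8 s : ℂ)) z8 q = 0)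
    (hf : ∀ i, Cont (ta z8) (lm z8) (f i).1 (f i).2.1 (f i).2.2) (q : Fin 9 × Fin (n + 1)) :
    EE (fun s : Fin 3 × Fin (n + 1) => ps f s.1 s.2) (zs n z8 f) q = 0 := by
  obtain ⟨l, m⟩ := q
  unfold EE
  simp only [ta_zs, lm_zs]
  rcases lt_or_ge hn m with ⟨j, rfl⟩ | h
  · rw [Gev_zs_e7, Dev_zs_e7]
    have h1 := h8 (l, e7 h68 j)
    unfold EE at h1
    simp only at h1
    have h2 : ps f (ix l) ((e7 hn j : Fin (n + 1)) : ℕ) = (P8 (ix l, e7 h68 j) : ℂ) := by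
      unfold ps
      rw [dif_pos (show ((e7 hn j : Fin (n + 1)) : ℕ) < 7 from j.2)]
      rfl
    rw [h2]
    exact h1
  · rw [Gev_four _ (mu_ge h), Dev_four _ (mu_ge h)]
    have h1 := hf (m - 7) l
    have h2 : ps f (ix l) (m : ℕ) = (f (m - 7)).2.2 (ix l) := by
      unfold ps
      rw [dif_neg (by omega)]
    have h3 : (fun k : Fin 5 => gc (zs n z8 f) m k) = (f (m - 7)).1 := by
      funext k; exact gc_zs_ge h k
    have h4 : (fun k : Fin 4 => rc (zs n z8 f) m k) = (f (m - 7)).2.1 := by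
      funext k; exact rc_zs_ge h k
    rw [h2, h3, h4, h1]
    ring

/-- the roots -/
lemma root_cases (hn : 6 ≤ n) (s : Σ m : Fin (n + 1), Fin (mu n m)) :
    (∃ (j : Fin 7) (k : Fin (mu 8 (e7 h68 j))), (s.1 : ℕ) = j ∧ (s.2 : ℕ) = k ∧
      zs n z8 f (Sum.inr (Sum.inl s)) = z8 (Sum.inr (Sum.inl ⟨e7 h68 j, k⟩))) ∨
    (7 ≤ (s.1 : ℕ) ∧ ∃ k : Fin 4, (s.2 : ℕ) = k ∧
      zs n z8 f (Sum.inr (Sum.inl s)) = (f (s.1 - 7)).2.1 k) := by
  obtain ⟨m, k⟩ := s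
  rcases lt_or_ge hn m with ⟨j, rfl⟩ | h
  · left
    have hk : (k : ℕ) < mu 8 (e7 h68 j) :=
      lt_of_lt_of_eq k.2 ((mu_e7 hn j).trans (mu_e7 h68 j).symm)
    refine ⟨j, ⟨k, hk⟩, rfl, rfl, ?_⟩
    have h1 := rc_eq (zs n z8 f) (e7 hn j) k
    rw [← h1, rc_zs_e7]
    exact rc_eq' z8 _ hk
  · right
    have hk : (k : ℕ) < 4 := lt_of_lt_of_eq k.2 (mu_ge h)
    refine ⟨h, ⟨k, hk⟩, rfl, ?_⟩
    have h1 := rc_eq (zs n z8 f) m k
    rw [← h1]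
    exact rc_zs_ge h ⟨k, hk⟩

lemma sig_ext {s s' : Σ m : Fin (n + 1), Fin (mu n m)}
    (h1 : (s.1 : ℕ) = s'.1) (h2 : (s.2 : ℕ) = s'.2) : s = s' := by
  obtain ⟨m, k⟩ := s
  obtain ⟨m', k'⟩ := s'
  have : m = m' := Fin.ext h1
  subst this
  have : k = k' := Fin.ext h2
  subst this
  rfl

lemma good_zs (hn : 6 ≤ n) (h8 : Good h68 z8)
    (hf : ∀ i, Opn (ta z8) ((f i).1, (f i).2.1) ∧
      ∀ k (s : Σ m : Fin (8 + 1), Fin (mu 8 m)), (f i).2.1 k ≠ z8 (Sum.inr (Sum.inl s)))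
    (hff : ∀ i j, i < j → ∀ k k', (f i).2.1 k ≠ (f j).2.1 k') : Good hn (zs n z8 f) where
  τ_ne := h8.τ_ne
  lm_ne := h8.lm_ne
  r_τ := by
    intro s l
    rw [ta_zs]
    rcases root_cases hn s (z8 := z8) (f := f) with ⟨j, k, -, -, h⟩ | ⟨h1, k, -, h⟩
    · rw [h]; exact h8.r_τ _ l
    · rw [h]; exact (hf _).1.2.1 k l
  r_r := by
    intro s s' hne
    rcases root_cases hn s (z8 := z8) (f := f) with ⟨j, k, e1, e2, h⟩ | ⟨h1, k, e2, h⟩
    · rcases root_cases hn s' (z8 := z8) (f := f) with ⟨j', k', e1', e2', h'⟩ | ⟨h1', k', e2', h'⟩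
      · rw [h, h']
        refine h8.r_r _ _ fun h3 => hne ?_
        have h4 : j' = j := Fin.ext (by
          have := congrArg (fun s : (Σ m : Fin (8 + 1), Fin (mu 8 m)) => (s.1 : ℕ)) h3
          exact this)
        have h5 : (k' : ℕ) = k := by
          have := congrArg (fun s : (Σ m : Fin (8 + 1), Fin (mu 8 m)) => (s.2 : ℕ)) h3
          exact this
        exact sig_ext (by rw [e1', e1, h4]) (by rw [e2', e2, h5])
      · rw [h, h']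
        exact sub_ne_zero.mpr ((hf _).2 k' _).symm
    · rcases root_cases hn s' (z8 := z8) (f := f) with ⟨j', k', e1', e2', h'⟩ | ⟨h1', k', e2', h'⟩
      · rw [h, h']
        exact sub_ne_zero.mpr ((hf _).2 k _)
      · rw [h, h']
        rcases lt_trichotomy (s.1 : ℕ) s'.1 with h3 | h3 | h3
        · exact sub_ne_zero.mpr (hff _ _ (by omega) k k')
        · rw [h3]
          refine (hf _).1.1 k k' fun h4 => hne ?_
          exact sig_ext h3.symm (by rw [e2', e2, h4])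
        · exact sub_ne_zero.mpr (hff _ _ (by omega) k' k).symm
  G_r := by
    intro s
    rcases root_cases hn s (z8 := z8) (f := f) with ⟨j, k, e1, e2, h⟩ | ⟨h1, k, e2, h⟩
    · rw [h]
      have h3 : s.1 = e7 hn j := Fin.ext e1
      rw [h3, Gev_zs_e7]
      exact h8.G_r ⟨e7 h68 j, k⟩
    · rw [h, Gev_four _ (mu_ge h1), gP_eval]
      have h3 : ∀ k' : Fin 5, gc (zs n z8 f) s.1 k' = (f (s.1 - 7)).1 k' := fun k' =>
        gc_zs_ge h1 k'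
      simp only [h3]
      exact (hf _).1.2.2 k
  G_inf := by
    rw [gc_zs_e7]; exact h8.G_inf
  d1 := by
    simp only [gc_zs_e7, rc_zs_e7]; exact h8.d1
  d2 := by
    simp only [gc_zs_e7, rc_zs_e7]; exact h8.d2
  d3 := by
    simp only [gc_zs_e7, rc_zs_e7]; exact h8.d3

end

/-- **The example**. -/
theorem exists_example {n : ℕ} (hn : 6 ≤ n) : ∃ (P : Fin 3 × Fin (n + 1) → ℂ) (z : RR n → ℂ),
    Good hn z ∧ ∀ q, EE P z q = 0 := by
  classical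
  obtain ⟨z8, hE, hG⟩ := exists8
  have hτ : Function.Injective (ta z8) := by
    intro l l' h
    by_contra hne
    exact hG.τ_ne l l' (Ne.symm hne) (sub_eq_zero.mpr h)
  have m7 : mu 8 (7 : Fin (8 + 1)) = 4 := by decide
  have m8 : mu 8 (8 : Fin (8 + 1)) = 4 := by decide
  obtain ⟨f, hf, hff⟩ := exists_pairs hτ hG.lm_ne (cont_of_EE hE m7) (opn_of_good hG m7)
    (cont_of_EE hE m8) (opn_of_good hG m8) (by
      intro k k'
      rw [rc_eq' z8 7 (by rw [m7]; exact k.2), rc_eq' z8 8 (by rw [m8]; exact k'.2)]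
      refine sub_ne_zero.mp (hG.r_r _ _ fun h => ?_)
      have := congrArg (fun s : (Σ m : Fin (8 + 1), Fin (mu 8 m)) => (s.1 : ℕ)) h
      exact absurd this (by decide : ¬ (((8 : Fin (8 + 1)) : ℕ) = ((7 : Fin (8 + 1)) : ℕ)))) (Finset.univ.image fun s : (Σ m : Fin (8 + 1), Fin (mu 8 m)) =>
        z8 (Sum.inr (Sum.inl s)))
  refine ⟨_, zs n z8 f, good_zs hn hG (fun i => ⟨(hf i).2.1, fun k s h => (hf i).2.2 k ?_⟩) hff,
    EE_zs hn hE fun i => (hf i).1⟩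
  rw [h]
  exact mem_image_of_mem _ (mem_univ s)

end Pool.Agent.Y204.MC
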