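import Mathlib

/-!
# Lifting solutions of polynomial equations from a finite field to characteristic zero
-/

open MvPolynomial

namespace Pool.Agent.Y204.MC

section

variable {σ : Type} [Fintype σ] [DecidableEq σ]

/-- Taylor expansion -/
lemma taylor_dvd (F : MvPolynomial σ ℤ) (z h : σ → ℤ) (ε : ℤ) :
    ε ^ 2 ∣ eval (fun s => z s + ε * h s) F - eval z F -
      ε * ∑ s, eval z (pderiv s F) * h s := by
  induction F using MvPolynomial.induction_on with
  | C a => simp
  | add F G hF hG =>
    have := dvd_add hF hG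
    have e : (eval (fun s => z s + ε * h s) F - eval z F -
        ε * ∑ s, eval z (pderiv s F) * h s) + (eval (fun s => z s + ε * h s) G - eval z G -
        ε * ∑ s, eval z (pderiv s G) * h s) =
        eval (fun s => z s + ε * h s) (F + G) - eval z (F + G) -
        ε * ∑ s, eval z (pderiv s (F + G)) * h s := by
      simp only [map_add, add_mul, Finset.sum_add_distrib]
      ring
    rw [← e]; exact this
  | mul_X F i hF =>
    obtain ⟨c, hc⟩ := hF
    have e : ∑ s, eval z (pderiv s (F * X i)) * h s =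
        (∑ s, eval z (pderiv s F) * h s) * z i + eval z F * h i := by
      have hs : ∀ s, eval z (pderiv s (F * X i)) * h s =
          eval z (pderiv s F) * h s * z i + (if s = i then eval z F * h i else 0) := by
        intro s
        rw [Derivation.leibniz, smul_eq_mul, smul_eq_mul, map_add, map_mul, map_mul, eval_X]
        by_cases hsi : s = i
        · subst hsi
          rw [pderiv_X_self, if_pos rfl, map_one]
          ring
        · rw [pderiv_X_of_ne (Ne.symm hsi), if_neg hsi, map_zero]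
          ring
      rw [Finset.sum_congr rfl fun s _ => hs s, Finset.sum_add_distrib, Finset.sum_mul,
        Finset.sum_ite_eq' Finset.univ i, if_pos (Finset.mem_univ i)]
    rw [e]
    simp only [map_mul, eval_X]
    have hc' : eval (fun s => z s + ε * h s) F = eval z F +
        ε * ∑ s, eval z (pderiv s F) * h s + ε ^ 2 * c := by linear_combination hc
    rw [hc']
    refine ⟨(∑ s, eval z (pderiv s F) * h s) * h i + c * (z i + ε * h i), ?_⟩
    ring

lemma eval_congr_dvd (F : MvPolynomial σ ℤ) (z w : σ → ℤ) (p : ℤ) (h : ∀ s, p ∣ z s - w s) :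
    p ∣ eval z F - eval w F := by
  induction F using MvPolynomial.induction_on with
  | C a => simp
  | add F G hF hG =>
    rw [map_add, map_add, add_sub_add_comm]
    exact dvd_add hF hG
  | mul_X F i hF =>
    simp only [map_mul, eval_X]
    have e : eval z F * z i - eval w F * w i = (eval z F - eval w F) * z i +
        eval w F * (z i - w i) := by ring
    rw [e]
    exact dvd_add (Dvd.dvd.mul_right hF _) (Dvd.dvd.mul_left (h i) _)

variable {κ : Type} [Fintype κ] [DecidableEq κ]

/-- approximate solutions -/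
lemma approx (F : κ → MvPolynomial σ ℤ) (p : ℤ) (hp : p ≠ 0) (a : σ → ℤ)
    (h0 : ∀ q, p ∣ eval a (F q)) (c : κ → σ → ℤ) (hc : ∀ q s, p ∣ c q s - a s)
    (hb : ∀ q q', p ^ 2 ∣ eval (c q') (F q) - eval a (F q) - (if q = q' then p else 0))
    (k : ℕ) : ∃ z : σ → ℤ, (∀ s, p ∣ z s - a s) ∧ ∀ q, p ^ (k + 1) ∣ eval z (F q) := by
  choose b hbs using hc
  have hJ : ∀ q q', p ∣ ∑ s, eval a (pderiv s (F q)) * b q' s - (if q = q' then 1 else 0) := by
    intro q q'
    have h1 := taylor_dvd (F q) a (b q') p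
    have h2 : (fun s => a s + p * b q' s) = c q' := by
      funext s
      rw [← hbs q' s]; ring
    rw [h2] at h1
    have h3 := dvd_sub (hb q q') h1
    have e : (eval (c q') (F q) - eval a (F q) - (if q = q' then p else 0)) -
        (eval (c q') (F q) - eval a (F q) - p * ∑ s, eval a (pderiv s (F q)) * b q' s) =
        p * (∑ s, eval a (pderiv s (F q)) * b q' s - (if q = q' then 1 else 0)) := by
      split <;> ring
    rw [e, pow_two] at h3
    exact (mul_dvd_mul_iff_left hp).mp h3
  induction k with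
  | zero => exact ⟨a, fun s => by simp, fun q => by simpa using h0 q⟩
  | succ k ih =>
    obtain ⟨z, hz, hF⟩ := ih
    choose u hu using hF
    refine ⟨fun s => z s + p ^ (k + 1) * (-∑ q', u q' * b q' s), fun s => ?_, fun q => ?_⟩
    · have e : z s + p ^ (k + 1) * (-∑ q', u q' * b q' s) - a s =
          (z s - a s) + p * (p ^ k * (-∑ q', u q' * b q' s)) := by ring
      rw [e]
      exact dvd_add (hz s) (dvd_mul_right _ _)
    · have h1 := taylor_dvd (F q) z (fun s => -∑ q', u q' * b q' s) (p ^ (k + 1))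
      have h2 : p ^ (k + 1 + 1) ∣ (p ^ (k + 1)) ^ 2 := by
        rw [← pow_mul]
        exact pow_dvd_pow p (by omega)
      have h3 := h2.trans h1
      have h4 : p ∣ ∑ s, eval z (pderiv s (F q)) * (-∑ q', u q' * b q' s) + u q := by
        have h5 : p ∣ ∑ s, (eval z (pderiv s (F q)) - eval a (pderiv s (F q))) *
            (-∑ q', u q' * b q' s) :=
          Finset.dvd_sum fun s _ => Dvd.dvd.mul_right (eval_congr_dvd _ z a p hz) _
        have h6 : p ∣ ∑ q', u q' * (∑ s, eval a (pderiv s (F q)) * b q' s -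
            (if q = q' then 1 else 0)) :=
          Finset.dvd_sum fun q' _ => Dvd.dvd.mul_left (hJ q q') _
        have h7 : ∑ q', u q' * (∑ s, eval a (pderiv s (F q)) * b q' s -
            (if q = q' then 1 else 0)) =
            (∑ q', u q' * ∑ s, eval a (pderiv s (F q)) * b q' s) - u q := by
          simp only [mul_sub, Finset.sum_sub_distrib, mul_ite, mul_one, mul_zero,
            Finset.sum_ite_eq, Finset.mem_univ, if_true]
        have h8 : ∑ s, eval a (pderiv s (F q)) * (-∑ q', u q' * b q' s) =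
            -∑ q', u q' * ∑ s, eval a (pderiv s (F q)) * b q' s := by
          simp only [mul_neg, Finset.sum_neg_distrib, Finset.mul_sum]
          rw [Finset.sum_comm]
          congr 1
          refine Finset.sum_congr rfl fun q' _ => Finset.sum_congr rfl fun s _ => by ring
        have h9 := dvd_sub h5 h6
        have h10 : ∑ s, eval z (pderiv s (F q)) * (-∑ q', u q' * b q' s) + u q =
            (∑ s, (eval z (pderiv s (F q)) - eval a (pderiv s (F q))) *
              (-∑ q', u q' * b q' s)) - ∑ q', u q' * (∑ s, eval a (pderiv s (F q)) * b q' s -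
            (if q = q' then 1 else 0)) := by
          rw [h7]
          simp only [sub_mul, Finset.sum_sub_distrib]
          rw [h8]
          ring
        rw [h10]
        exact h9
      have h5 : eval (fun s => z s + p ^ (k + 1) * (-∑ q', u q' * b q' s)) (F q) =
          (eval (fun s => z s + p ^ (k + 1) * (-∑ q', u q' * b q' s)) (F q) - eval z (F q) -
            p ^ (k + 1) * ∑ s, eval z (pderiv s (F q)) * (-∑ q', u q' * b q' s)) +
          p ^ (k + 1) * (∑ s, eval z (pderiv s (F q)) * (-∑ q', u q' * b q' s) + u q) := by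
        rw [hu q]; ring
      rw [h5]
      refine dvd_add h3 ?_
      rw [pow_succ p (k + 1)]
      exact mul_dvd_mul_left _ h4

/-- **Hensel's lemma** in several variables. -/
theorem hensel_mv (F : κ → MvPolynomial σ ℤ) (p : ℕ) [Fact p.Prime] (a : σ → ℤ)
    (h0 : ∀ q, (p : ℤ) ∣ eval a (F q)) (c : κ → σ → ℤ) (hc : ∀ q s, (p : ℤ) ∣ c q s - a s)
    (hb : ∀ q q', (p : ℤ) ^ 2 ∣ eval (c q') (F q) - eval a (F q) -
      (if q = q' then (p : ℤ) else 0)) :
    ∃ z : σ → ℤ_[p], (∀ q, eval z (map (Int.castRingHom ℤ_[p]) (F q)) = 0) ∧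
      ∀ s, PadicInt.toZMod (z s) = (a s : ZMod p) := by
  have hp : ((p : ℕ) : ℤ) ≠ 0 := by exact_mod_cast (Fact.out : p.Prime).ne_zero
  set K : ℕ → Set (σ → ℤ_[p]) := fun k =>
    (⋂ s, {z : σ → ℤ_[p] | ‖z s - (a s : ℤ_[p])‖ ≤ (p : ℝ) ^ (-((1 : ℕ) : ℤ))}) ∩
    (⋂ q, {z : σ → ℤ_[p] | ‖eval z (map (Int.castRingHom ℤ_[p]) (F q))‖ ≤
      (p : ℝ) ^ (-((k + 1 : ℕ) : ℤ))}) with hK
  have hmem : ∀ k z, z ∈ K k ↔ (∀ s, ‖z s - (a s : ℤ_[p])‖ ≤ (p : ℝ) ^ (-((1 : ℕ) : ℤ))) ∧
      ∀ q, ‖eval z (map (Int.castRingHom ℤ_[p]) (F q))‖ ≤ (p : ℝ) ^ (-((k + 1 : ℕ) : ℤ)) := by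
    intro k z
    simp only [hK, Set.mem_inter_iff, Set.mem_iInter]
    rfl
  have hclosed : ∀ k, IsClosed (K k) := by
    intro k
    refine IsClosed.inter ?_ ?_
    · exact isClosed_iInter fun s => isClosed_le
        (((continuous_apply s).sub continuous_const).norm) continuous_const
    · exact isClosed_iInter fun q => isClosed_le (MvPolynomial.continuous_eval _).norm
        continuous_const
  have hne : ∀ k, (K k).Nonempty := by
    intro k
    obtain ⟨z, hz, hzF⟩ := approx F p hp a h0 c hc hb k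
    refine ⟨fun s => (z s : ℤ_[p]), (hmem _ _).mpr ⟨fun s => ?_, fun q => ?_⟩⟩
    · rw [PadicInt.norm_le_pow_iff_mem_span_pow, Ideal.mem_span_singleton, pow_one]
      obtain ⟨d, hd⟩ := hz s
      refine ⟨(d : ℤ_[p]), ?_⟩
      have := congrArg (Int.cast : ℤ → ℤ_[p]) hd
      push_cast at this
      exact this
    · rw [PadicInt.norm_le_pow_iff_mem_span_pow, Ideal.mem_span_singleton]
      obtain ⟨d, hd⟩ := hzF q
      refine ⟨(d : ℤ_[p]), ?_⟩
      have h1 : eval (fun s => (z s : ℤ_[p])) (map (Int.castRingHom ℤ_[p]) (F q)) =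
          ((eval z (F q) : ℤ) : ℤ_[p]) := by
        rw [eval_map]
        have := MvPolynomial.eval₂_comp_left (Int.castRingHom ℤ_[p]) (RingHom.id ℤ) z (F q)
        simp only [RingHom.comp_id] at this
        have h2 : eval₂ (RingHom.id ℤ) z (F q) = eval z (F q) := rfl
        rw [h2] at this
        exact this.symm
      rw [h1, hd, Int.cast_mul, Int.cast_pow, Int.cast_natCast]
  have hmono : ∀ k, K (k + 1) ⊆ K k := by
    intro k z hz
    obtain ⟨h1, h2⟩ := (hmem _ _).mp hz
    refine (hmem _ _).mpr ⟨h1, fun q => (h2 q).trans ?_⟩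
    have hp1 : (1 : ℝ) ≤ p := by exact_mod_cast (Fact.out : p.Prime).one_lt.le
    exact zpow_le_zpow_right₀ hp1 (by omega)
  obtain ⟨z, hz⟩ := IsCompact.nonempty_iInter_of_sequence_nonempty_isCompact_isClosed K hmono hne
    (hclosed 0).isCompact hclosed
  rw [Set.mem_iInter] at hz
  refine ⟨z, fun q => ?_, fun s => ?_⟩
  · by_contra hne0
    have hpos : 0 < ‖eval z (map (Int.castRingHom ℤ_[p]) (F q))‖ := norm_pos_iff.mpr hne0
    have hp1 : (1 : ℝ) < p := by exact_mod_cast (Fact.out : p.Prime).one_lt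
    obtain ⟨n, hn⟩ := exists_pow_lt_of_lt_one hpos (inv_lt_one_of_one_lt₀ hp1)
    have h1 := ((hmem _ _).mp (hz n)).2 q
    rw [zpow_neg, zpow_natCast] at h1
    have h2 : ((p : ℝ) ^ (n + 1))⁻¹ ≤ ((p : ℝ)⁻¹) ^ n := by
      rw [← inv_pow]
      exact pow_le_pow_of_le_one (by positivity) (inv_lt_one_of_one_lt₀ hp1).le (by omega)
    linarith
  · have h1 := ((hmem _ _).mp (hz 0)).1 s
    rw [PadicInt.norm_le_pow_iff_mem_span_pow, Ideal.mem_span_singleton, pow_one] at h1
    obtain ⟨d, hd⟩ := h1
    have h2 := congrArg PadicInt.toZMod hd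
    rw [map_sub, map_mul, map_intCast, map_natCast, CharP.cast_eq_zero, zero_mul] at h2
    exact sub_eq_zero.mp h2

end

/-- **Transfer** from a field of characteristic zero to the complex numbers. -/
theorem transfer {σ κ : Type} [Finite σ] {K : Type} [Field K] [CharZero K]
    (F : κ → MvPolynomial σ ℤ) (D : MvPolynomial σ ℤ) (z : σ → K)
    (hF : ∀ q, eval z (map (Int.castRingHom K) (F q)) = 0)
    (hD : eval z (map (Int.castRingHom K) D) ≠ 0) :
    ∃ w : σ → ℂ, (∀ q, eval w (map (Int.castRingHom ℂ) (F q)) = 0) ∧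
      eval w (map (Int.castRingHom ℂ) D) ≠ 0 := by
  set S : Set K := Set.range z ∪ {(eval z (map (Int.castRingHom K) D))⁻¹} with hS
  have hSf : S.Finite := (Set.finite_range z).union (Set.finite_singleton _)
  set A : Subalgebra ℚ K := Algebra.adjoin ℚ S with hA
  have hfg : Algebra.FiniteType ℚ A := by
    rw [← Subalgebra.fg_iff_finiteType]
    exact Subalgebra.fg_def.mpr ⟨S, hSf, rfl⟩
  obtain ⟨m, hm⟩ := Ideal.exists_maximal A
  let : Field (A ⧸ m) := Ideal.Quotient.field m
  have hft : Algebra.FiniteType ℚ (A ⧸ m) := inferInstance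
  have hfin : Module.Finite ℚ (A ⧸ m) := finite_of_finite_type_of_isJacobsonRing ℚ (A ⧸ m)
  have halg : Algebra.IsAlgebraic ℚ (A ⧸ m) := inferInstance
  let ψ : (A ⧸ m) →ₐ[ℚ] ℂ := IsAlgClosed.lift
  let φ : A →+* ℂ := (ψ : (A ⧸ m) →+* ℂ).comp (Ideal.Quotient.mk m)
  have hzA : ∀ s, z s ∈ A := fun s => Algebra.subset_adjoin (Or.inl ⟨s, rfl⟩)
  have hiA : (eval z (map (Int.castRingHom K) D))⁻¹ ∈ A :=
    Algebra.subset_adjoin (Or.inr rfl)
  let zA : σ → A := fun s => ⟨z s, hzA s⟩
  have e1 : ∀ G : MvPolynomial σ ℤ, ((eval zA (map (Int.castRingHom A) G) : A) : K) =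
      eval z (map (Int.castRingHom K) G) := by
    intro G
    have := MvPolynomial.eval₂_comp_left (A.val : A →+* K) (Int.castRingHom A) zA G
    rw [eval_map, eval_map]
    have h2 : ((A.val : A →+* K).comp (Int.castRingHom A)) = Int.castRingHom K :=
      RingHom.ext_int _ _
    rw [h2] at this
    exact this
  have e2 : ∀ G : MvPolynomial σ ℤ, φ (eval zA (map (Int.castRingHom A) G)) =
      eval (fun s => φ (zA s)) (map (Int.castRingHom ℂ) G) := by
    intro G
    have := MvPolynomial.eval₂_comp_left φ (Int.castRingHom A) zA G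
    rw [eval_map, eval_map]
    have h2 : (φ.comp (Int.castRingHom A)) = Int.castRingHom ℂ := RingHom.ext_int _ _
    rw [h2] at this
    exact this
  refine ⟨fun s => φ (zA s), fun q => ?_, ?_⟩
  · rw [← e2]
    have : eval zA (map (Int.castRingHom A) (F q)) = 0 := by
      apply Subtype.ext
      rw [e1, hF]; rfl
    rw [this, map_zero]
  · rw [← e2]
    intro h
    have h3 : eval zA (map (Int.castRingHom A) D) * ⟨_, hiA⟩ = 1 := by
      apply Subtype.ext
      push_cast
      rw [e1]
      exact mul_inv_cancel₀ hD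
    have h4 := congrArg φ h3
    rw [map_mul, h, zero_mul, map_one] at h4
    exact zero_ne_one h4

end Pool.Agent.Y204.MC
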