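import Pool.Agent.Y204.MC.CertNorm

/-!
# Solutions of the polynomial conditions are normalised data
-/

open Polynomial

namespace Pool.Agent.Y204.MC

open Pool.Agent.H403R3

variable {n : ℕ}

structure Good (hn : 6 ≤ n) (z : RR n → ℂ) : Prop where
  τ_ne : ∀ l l', l' ≠ l → ta z l - ta z l' ≠ 0
  lm_ne : ∀ l, lm z l ≠ 0
  r_τ : ∀ s : (Σ m : Fin (n + 1), Fin (mu n m)), ∀ l, z (Sum.inr (Sum.inl s)) - ta z l ≠ 0
  r_r : ∀ s s' : (Σ m : Fin (n + 1), Fin (mu n m)), s' ≠ s →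
    z (Sum.inr (Sum.inl s)) - z (Sum.inr (Sum.inl s')) ≠ 0
  G_r : ∀ s : (Σ m : Fin (n + 1), Fin (mu n m)), Gev z s.1 (z (Sum.inr (Sum.inl s))) ≠ 0
  G_inf : gc z (e7 hn 0) 3 ≠ 0
  d1 : (M1 (fun j => gc z (e7 hn j)) (fun j => dcf (rc z (e7 hn j)))).det ≠ 0
  d2 : (M2 (fun j => gc z (e7 hn j)) (fun j => dcf (rc z (e7 hn j)))).det ≠ 0
  d3 : ∀ i, (M3 (fun j => gc z (e7 hn j)) (fun j => dcf (rc z (e7 hn j)))
    (ta z (la i)) (ta z (lb i))).det ≠ 0

lemma good_iff (hn : 6 ≤ n) (z : RR n → ℂ) : Good hn z ↔ DeltaZ hn z ≠ 0 := by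
  unfold DeltaZ
  simp only [ne_eq, mul_eq_zero, not_or, Finset.prod_eq_zero_iff, not_exists, Finset.mem_univ,
    true_and, Finset.mem_erase, and_true]
  constructor
  · intro h
    refine ⟨⟨⟨⟨⟨⟨⟨⟨?_, ?_⟩, ?_⟩, ?_⟩, ?_⟩, ?_⟩, ?_⟩, ?_⟩, ?_⟩
    · rintro l l' ⟨h1, h2⟩
      exact h.τ_ne l l' h1 h2
    · exact h.lm_ne
    · exact h.r_τ
    · rintro s s' ⟨h1, h2⟩
      exact h.r_r s s' h1 h2
    · exact h.G_r
    · exact h.G_inf
    · exact h.d1
    · exact h.d2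
    · exact h.d3
  · rintro ⟨⟨⟨⟨⟨⟨⟨⟨h1, h2⟩, h3⟩, h4⟩, h5⟩, h6⟩, h7⟩, h8⟩, h9⟩
    exact ⟨fun l l' h h' => h1 l l' ⟨h, h'⟩, h2, h3, fun s s' h h' => h4 s s' ⟨h, h'⟩, h5, h6, h7,
      h8, h9⟩

/-- solutions are normalised data -/
noncomputable def toNorm (hn : 6 ≤ n) {P : Fin 3 → Vec n} {z : RR n → ℂ}
    (hE : ∀ q, EE (fun s => P s.1 s.2) z q = 0) (hG : Good hn z) : Norm n P where
  hn := hn
  G := Gp z
  r := rp z
  τ := ta z
  lam := lm z
  degG := by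
    intro m
    unfold Gp
    refine natDegree_sum_le_of_forall_le _ _ fun k hk => ?_
    exact (natDegree_C_mul_X_pow_le _ _).trans (Nat.lt_succ_iff.mp (Finset.mem_range.mp hk))
  contact := by
    intro l m
    have := hE (l, m)
    unfold EE at this
    rw [Gp_eval, Dp_eval]
    linear_combination this
  τ_inj := by
    intro l l' h
    by_contra hne
    exact hG.τ_ne l l' (Ne.symm hne) (sub_eq_zero.mpr h)
  lam_ne := hG.lm_ne
  r_ne_τ := fun m k l h => hG.r_τ ⟨m, k⟩ l (sub_eq_zero.mpr h)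
  r_inj := by
    intro m k m' k' h
    by_contra hne
    exact hG.r_r ⟨m, k⟩ ⟨m', k'⟩ (Ne.symm hne) (sub_eq_zero.mpr h)
  G_ne := by
    intro m k
    rw [Gp_eval]
    exact hG.G_r ⟨m, k⟩
  G_inf := by
    rw [Gp_coeff]
    exact hG.G_inf
  star := by
    intro c h1 h2
    simp only [Gp_e7, Dp_e7] at h1 h2
    exact star_of_det hG.d1 c h1 h2
  quints := by
    intro y h1 h2
    simp only [Gp_e7, Dp_e7] at h1
    exact quints_of_det hG.d2 y h1 h2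
  dirs := by
    intro i x y w h
    have h1 : ∀ j : Fin 7, (Gp z (e7 hn j)).eval (ta z (lb i)) =
        lm z (lb i) * P (ix (la i)) (e7 hn j) *
          (∏ k, (X - C (rp z (e7 hn j) k)) : ℂ[X]).eval (ta z (lb i)) := by
      intro j
      have := hE (lb i, e7 hn j)
      unfold EE at this
      have hix : ∀ i, ix (la i) = ix (lb i) := by decide
      rw [Gp_eval, Dp_eval, hix i]
      linear_combination this
    refine dirs_of_det (hG.d3 i) x y (w * (lm z (lb i))⁻¹) fun j => ?_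
    have h2 := h (e7 hn j)
    have h3 := h1 j
    rw [Gp_e7, Dp_e7, quad_eval, quad_eval] at h3
    simp only [Gp_e7, Dp_e7, quad_eval, quad_wr_eval] at h2
    have h4 : (lm z (lb i))⁻¹ * lm z (lb i) = 1 := inv_mul_cancel₀ (hG.lm_ne _)
    rw [h3]
    linear_combination h2 + w * P (ix (la i)) (e7 hn j) *
      qe (dcf (rc z (e7 hn j))) (ta z (lb i)) ^ 2 *
      qe (dcf (rc z (e7 hn j))) (ta z (la i)) ^ 2 * h4

end Pool.Agent.Y204.MC
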