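import Pool.Agent.Y204.MC.DataDelta
import Pool.Agent.Y204.MC.Hensel
import Pool.Agent.Y204.MC.ToNorm

/-!
# A solution over the complex numbers in dimension eight
-/

open MvPolynomial

namespace Pool.Agent.Y204.MC

instance fact97 : Fact (Nat.Prime 97) := ⟨by norm_num⟩

lemma not_dvd_det {n : ℕ} (A B : Matrix (Fin n) (Fin n) ℤ)
    (h : ∀ i j, (97 : ℤ) ∣ (∑ k, A i k * B k j) - (if i = j then 1 else 0)) :
    ¬ (97 : ℤ) ∣ A.det := by
  intro hd
  have h1 : (Int.castRingHom (ZMod 97)).mapMatrix A * (Int.castRingHom (ZMod 97)).mapMatrix B = 1 := by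
    ext i j
    rw [Matrix.mul_apply, Matrix.one_apply]
    have h2 := (CharP.intCast_eq_zero_iff (ZMod 97) 97 _).mpr (by exact_mod_cast h i j)
    push_cast at h2
    rw [sub_eq_zero] at h2
    simpa using h2
  have h2 := congrArg Matrix.det h1
  rw [Matrix.det_mul, Matrix.det_one, ← RingHom.map_det] at h2
  have h3 : (Int.castRingHom (ZMod 97)) A.det = 0 :=
    (CharP.intCast_eq_zero_iff (ZMod 97) 97 _).mpr (by exact_mod_cast hd)
  rw [h3, zero_mul] at h2
  exact zero_ne_one h2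

lemma prime97 : Prime (97 : ℤ) := Nat.prime_iff_prime_int.mp (by norm_num)

theorem delta_AA : ¬ (97 : ℤ) ∣ DeltaZ h68 (zN AA) := by
  have h9 : ∀ i, ¬ (97 : ℤ) ∣ (M3 gA dA (ta (zN AA) (la i)) (ta (zN AA) (lb i))).det := by
    intro i
    have := A9 i
    rw [Matrix.det_fin_three]
    exact this
  unfold DeltaZ
  intro h
  rw [prime97.dvd_mul, prime97.dvd_mul, prime97.dvd_mul, prime97.dvd_mul, prime97.dvd_mul,
    prime97.dvd_mul, prime97.dvd_mul, prime97.dvd_mul] at h
  rcases h with (((((((h | h) | h) | h) | h) | h) | h) | h) | h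
  · obtain ⟨l, _, h⟩ := (prime97.dvd_finsetProd_iff _).mp h
    obtain ⟨l', h', h⟩ := (prime97.dvd_finsetProd_iff _).mp h
    exact A1 l l' (Finset.mem_erase.mp h').1.symm h
  · obtain ⟨l, _, h⟩ := (prime97.dvd_finsetProd_iff _).mp h
    exact A2 l h
  · obtain ⟨s, _, h⟩ := (prime97.dvd_finsetProd_iff _).mp h
    obtain ⟨l, _, h⟩ := (prime97.dvd_finsetProd_iff _).mp h
    exact A3 s l h
  · obtain ⟨s, _, h⟩ := (prime97.dvd_finsetProd_iff _).mp h
    obtain ⟨s', h', h⟩ := (prime97.dvd_finsetProd_iff _).mp h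
    exact A4 s s' (Finset.mem_erase.mp h').1.symm h
  · obtain ⟨s, _, h⟩ := (prime97.dvd_finsetProd_iff _).mp h
    exact A5 s h
  · exact A6 h
  · exact not_dvd_det _ _ A7 h
  · exact not_dvd_det _ _ A8 h
  · obtain ⟨i, _, h⟩ := (prime97.dvd_finsetProd_iff _).mp h
    exact h9 i h

/-- the equations -/
noncomputable def F8 (q : Fin 9 × Fin 9) : MvPolynomial (RR 8) ℤ := EE (fun s => C (P8 s)) X q

noncomputable def D8 : MvPolynomial (RR 8) ℤ := DeltaZ h68 X

lemma eval_F8 {K : Type*} [CommRing K] (z : RR 8 → K) (q : Fin 9 × Fin 9) :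
    eval z (map (Int.castRingHom K) (F8 q)) = EE (fun s => (P8 s : K)) z q := by
  unfold F8
  have := map_EE ((eval z).comp (map (Int.castRingHom K))) (fun s => C (P8 s)) (X : RR 8 → _) q
  simp only [RingHom.comp_apply, map_C, map_X, eval_C, eval_X, Int.coe_castRingHom] at this
  exact this.symm

lemma eval_D8 {K : Type*} [CommRing K] (z : RR 8 → K) :
    eval z (map (Int.castRingHom K) D8) = DeltaZ h68 z := by
  unfold D8
  have := map_DeltaZ ((eval z).comp (map (Int.castRingHom K))) h68 (X : RR 8 → _)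
  simp only [RingHom.comp_apply, map_X, eval_X] at this
  exact this.symm

lemma eval_F8' (z : RR 8 → ℤ) (q : Fin 9 × Fin 9) :
    eval z (F8 q) = EE P8 z q := by
  unfold F8
  have := map_EE (eval z) (fun s => C (P8 s)) (X : RR 8 → _) q
  simp only [eval_C, eval_X] at this
  exact this.symm

/-- the index of an equation -/
def qi (q : Fin 9 × Fin 9) : Fin 81 := ⟨9 * (q.2 : ℕ) + q.1, by omega⟩

lemma en_dvd (i : Fin 81) {j : ℕ} (hj : j < 85) : (97 : ℤ) ∣ en (CC i) j - en AA j :=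
  CC_ok i ⟨j, hj⟩

lemma mu8 (m : Fin (8 + 1)) (k : ℕ) (h : k < mu 8 m + 1) : (m : ℕ) < 7 ∧ k < 4 ∨
    7 ≤ (m : ℕ) ∧ k < 5 := by
  unfold mu at h
  split at h <;> omega

lemma mu8' (m : Fin (8 + 1)) (k : ℕ) (h : k < mu 8 m) : (m : ℕ) < 7 ∧ k < 3 ∨
    7 ≤ (m : ℕ) ∧ k < 4 := by
  unfold mu at h
  split at h <;> omega

theorem exists8 : ∃ z : RR 8 → ℂ, (∀ q, EE (fun s => (P8 s : ℂ)) z q = 0) ∧ Good h68 z := by
  obtain ⟨z, hz, hza⟩ := hensel_mv F8 97 (zN AA) (by
      intro q
      rw [eval_F8', EE_zN]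
      exact AA_ok q.2 q.1) (fun q' => zN (CC (qi q'))) (by
      intro q' s
      rcases s with ⟨m, k⟩ | ⟨m, k⟩ | l | l
      · refine en_dvd (qi q') ?_
        have h1 := mu8 m k k.2
        have h2 := m.2
        change 4 * (m : ℕ) + ((m : ℕ) - 7) + (k : ℕ) < 85
        omega
      · refine en_dvd (qi q') ?_
        have h1 := mu8' m k k.2
        have h2 := m.2
        change 38 + 3 * (m : ℕ) + ((m : ℕ) - 7) + (k : ℕ) < 85
        omega
      · exact en_dvd (qi q') (by omega)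
      · exact en_dvd (qi q') (by omega)) (by
      intro q q'
      rw [eval_F8', EE_zN, eval_F8', EE_zN]
      have h1 := CC_ev (qi q') q.2 q.1
      have h2 : (if 9 * (q.2 : ℕ) + (q.1 : ℕ) = ((qi q' : Fin 81) : ℕ) then (97 : ℤ) else 0) =
          if q = q' then ((97 : ℕ) : ℤ) else 0 := by
        have : 9 * (q.2 : ℕ) + (q.1 : ℕ) = ((qi q' : Fin 81) : ℕ) ↔ q = q' := by
          constructor
          · intro h
            unfold qi at h
            simp only at h
            have h3 := q.1.2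
            have h4 := q'.1.2
            exact Prod.ext (Fin.ext (by omega)) (Fin.ext (by omega))
          · rintro rfl; rfl
        simp only [this]
        rfl
      rw [h2] at h1
      exact h1)
  have hD : eval (fun s => ((z s : ℤ_[97]) : ℚ_[97])) (map (Int.castRingHom ℚ_[97]) D8) ≠ 0 := by
    rw [eval_D8]
    have h1 := map_DeltaZ (PadicInt.Coe.ringHom (p := 97)) h68 z
    have h2 : (fun s => (PadicInt.Coe.ringHom (p := 97)) (z s)) = fun s => ((z s : ℤ_[97]) : ℚ_[97]) := rfl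
    rw [h2] at h1
    rw [h1]
    intro h3
    have h4 : DeltaZ h68 z = 0 := by
      apply Subtype.ext
      exact h3
    have h5 := map_DeltaZ (PadicInt.toZMod (p := 97)) h68 z
    rw [h4, map_zero] at h5
    have h6 : (fun s => (PadicInt.toZMod (p := 97)) (z s)) =
        fun s => (Int.castRingHom (ZMod 97)) (zN AA s) := by
      funext s
      rw [hza s]; rfl
    rw [h6, map_DeltaZ] at h5
    exact delta_AA ((CharP.intCast_eq_zero_iff (ZMod 97) 97 _).mp h5)
  obtain ⟨w, hw, hwD⟩ := transfer F8 D8 (fun s => ((z s : ℤ_[97]) : ℚ_[97])) (by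
    intro q
    rw [eval_F8]
    have h1 := hz q
    rw [eval_F8] at h1
    have h2 := map_EE (PadicInt.Coe.ringHom (p := 97)) (fun s => (P8 s : ℤ_[97])) z q
    rw [h1, map_zero] at h2
    rw [← h2]
    congr 1) hD
  refine ⟨w, fun q => ?_, ?_⟩
  · rw [← eval_F8]; exact hw q
  · rw [good_iff, ← eval_D8]; exact hwD

end Pool.Agent.Y204.MC
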