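import Mathlib

namespace Pool.Agent.Y204.MC

/-- The multiplicities `3, 3, 3, 3, 3, 3, 3, 4, …, 4, 3, 3, 3` at the points `p 0, …, p (n + 3)`:
seven times `3`, then `n - 6` times `4`, then three times `3`. -/
def mult (n : ℕ) (i : Fin (n + 4)) : ℤ :=
  if (i : ℕ) < 7 then 3 else if (i : ℕ) ≤ n then 4 else 3

end Pool.Agent.Y204.MC
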