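import Pool.Agent.H403R3.BlowUp

/-!
# The Weyl orbit of a dominant class

A class whose degree `≥ 2` cannot be made smaller by a Cremona transformation is not in the Weyl
orbit of the class of a line, for `n + 4` points.
-/

open Finset

namespace Pool.Agent.Y204.MC

open Pool.Agent.H403R3

variable {n s : ℕ}

/-- `t = δ - ∑ μ i` -/
def tt (Γ : Finset (Fin s)) (c : ℤ × (Fin s → ℤ)) : ℤ := c.1 - ∑ i ∈ Γ, c.2 i

/-- the root -/
def al (n : ℕ) {s : ℕ} (Γ : Finset (Fin s)) : ℤ × (Fin s → ℤ) :=
  ((n : ℤ) - 1, fun i => if i ∈ Γ then 1 else 0)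

lemma cremona_eq (Γ : Finset (Fin s)) (c : ℤ × (Fin s → ℤ)) :
    cremona n Γ c = c + tt Γ c • al n Γ := by
  unfold cremona al tt
  refine Prod.ext ?_ ?_
  · simp only [Prod.fst_add, Prod.smul_fst, smul_eq_mul]
    ring
  · funext i
    simp only [Prod.snd_add, Prod.smul_snd, Pi.add_apply, Pi.smul_apply, smul_eq_mul]
    split <;> ring

lemma tt_add_smul (Γ Δ : Finset (Fin s)) (c : ℤ × (Fin s → ℤ)) (x : ℤ) :
    tt Δ (c + x • al n Γ) = tt Δ c + x * ((n : ℤ) - 1 - ((Γ ∩ Δ).card : ℤ)) := by
  unfold tt al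
  simp only [Prod.fst_add, Prod.smul_fst, smul_eq_mul, Prod.snd_add, Prod.smul_snd, Pi.add_apply,
    Pi.smul_apply, Finset.sum_add_distrib, ← Finset.mul_sum]
  have : ∑ i ∈ Δ, (if i ∈ Γ then (1 : ℤ) else 0) = ((Γ ∩ Δ).card : ℤ) := by
    rw [Finset.sum_ite_mem, Finset.inter_comm]
    simp
  rw [this]
  ring

/-- the classes obtained from dominant classes of degree `≥ D` by degree increasing Cremona
transformations -/
inductive RO (n s : ℕ) (D : ℤ) : ℤ × (Fin s → ℤ) → Prop
  | base (c : ℤ × (Fin s → ℤ)) : D ≤ c.1 → (∀ Γ : Finset (Fin s), Γ.card = n + 1 → 0 ≤ tt Γ c) →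
      RO n s D c
  | step (c : ℤ × (Fin s → ℤ)) (Γ : Finset (Fin s)) : Γ.card = n + 1 → RO n s D c → 0 < tt Γ c →
      RO n s D (c + tt Γ c • al n Γ)

lemma RO.le {D : ℤ} (hn : 2 ≤ n) {c : ℤ × (Fin s → ℤ)} (h : RO n s D c) : D ≤ c.1 := by
  induction h with
  | base c h _ => exact h
  | step c Γ _ _ ht ih =>
    simp only [Prod.fst_add, Prod.smul_fst, smul_eq_mul, al]
    have : 0 ≤ tt Γ c * ((n : ℤ) - 1) := mul_nonneg ht.le (by omega)
    omega

/-- permutations -/
def pm (σ : Equiv.Perm (Fin s)) (c : ℤ × (Fin s → ℤ)) : ℤ × (Fin s → ℤ) := (c.1, fun i => c.2 (σ i))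

lemma tt_pm (σ : Equiv.Perm (Fin s)) (Γ : Finset (Fin s)) (c : ℤ × (Fin s → ℤ)) :
    tt Γ (pm σ c) = tt (Γ.map σ.toEmbedding) c := by
  unfold tt pm
  rw [Finset.sum_map]
  rfl

lemma pm_step (σ : Equiv.Perm (Fin s)) (Γ : Finset (Fin s)) (c : ℤ × (Fin s → ℤ)) :
    pm σ (c + tt Γ c • al n Γ) =
      pm σ c + tt (Γ.map σ.symm.toEmbedding) (pm σ c) • al n (Γ.map σ.symm.toEmbedding) := by
  rw [tt_pm]
  have h1 : (Γ.map σ.symm.toEmbedding).map σ.toEmbedding = Γ := by
    rw [Finset.map_map]
    ext x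
    simp
  rw [h1]
  refine Prod.ext rfl ?_
  funext i
  simp only [pm, al, Prod.snd_add, Prod.smul_snd, Pi.add_apply, Pi.smul_apply, smul_eq_mul]
  have h2 : σ i ∈ Γ ↔ i ∈ Γ.map σ.symm.toEmbedding := by
    rw [Finset.mem_map_equiv]
    simp
  simp only [h2]

lemma RO.perm {D : ℤ} {c : ℤ × (Fin s → ℤ)} (h : RO n s D c) (σ : Equiv.Perm (Fin s)) :
    RO n s D (pm σ c) := by
  induction h with
  | base c h h' =>
    refine RO.base _ h fun Γ hΓ => ?_
    rw [tt_pm]
    exact h' _ (by rw [Finset.card_map, hΓ])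
  | step c Γ hΓ _ ht ih =>
    rw [pm_step]
    refine RO.step _ _ (by rw [Finset.card_map, hΓ]) ih ?_
    rw [tt_pm]
    have h1 : (Γ.map σ.symm.toEmbedding).map σ.toEmbedding = Γ := by
      rw [Finset.map_map]
      ext x
      simp
    rw [h1]
    exact ht

/-- `RO` is closed under all Cremona transformations -/
theorem RO.closed {D : ℤ} (hn : 2 ≤ n) (hs : s = n + 4) : ∀ N : ℕ, ∀ c : ℤ × (Fin s → ℤ),
    RO n s D c → (c.1 - D).toNat = N → ∀ Δ : Finset (Fin s), Δ.card = n + 1 →
      RO n s D (c + tt Δ c • al n Δ) := by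
  intro N
  induction N using Nat.strong_induction_on with
  | _ N ih =>
  intro c hc hN Δ hΔ
  rcases lt_trichotomy (tt Δ c) 0 with hlt | h0 | hgt
  swap
  · rw [h0, zero_smul, add_zero]; exact hc
  swap
  · exact RO.step c Δ hΔ hc hgt
  cases hc with
  | base c h h' => exact absurd (h' Δ hΔ) (by omega)
  | step b Γ hΓ hb ht =>
    set t := tt Γ b with htdef
    set u := tt Δ b with hudef
    have hbD := hb.le hn
    have hdeg : (b + t • al n Γ).1 = b.1 + t * ((n : ℤ) - 1) := rfl
    have hpos : 0 < t * ((n : ℤ) - 1) := mul_pos ht (by omega)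
    have hbN : (b.1 - D).toNat < N := by
      rw [hdeg] at hN
      omega
    have htΔ : tt Δ (b + t • al n Γ) = u + t * ((n : ℤ) - 1 - ((Γ ∩ Δ).card : ℤ)) :=
      tt_add_smul Γ Δ b t
    rw [htΔ] at hlt ⊢
    have hk1 : (Γ ∩ Δ).card ≤ n + 1 := (Finset.card_le_card Finset.inter_subset_left).trans hΓ.le
    have hk2 : n - 2 ≤ (Γ ∩ Δ).card := by
      have h1 := Finset.card_union_add_card_inter Γ Δ
      have h2 : (Γ ∪ Δ).card ≤ s := by
        have := Finset.card_le_univ (Γ ∪ Δ)
        rwa [Fintype.card_fin] at this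
      omega
    have hcases : (Γ ∩ Δ).card = n + 1 ∨ (Γ ∩ Δ).card = n ∨ (Γ ∩ Δ).card = n - 1 ∨
        (Γ ∩ Δ).card = n - 2 := by omega
    rcases hcases with hk | hk | hk | hk
    · -- `Γ = Δ`
      have h1 : Γ ∩ Δ = Γ := Finset.eq_of_subset_of_card_le Finset.inter_subset_left (by omega)
      have h2 : Γ ∩ Δ = Δ := Finset.eq_of_subset_of_card_le Finset.inter_subset_right (by omega)
      have h3 : Γ = Δ := h1.symm.trans h2
      subst h3
      have h4 : t * ((n : ℤ) - 1 - ((Γ ∩ Γ).card : ℤ)) = -2 * t := by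
        rw [hk]; push_cast; ring
      rw [h4]
      have h5 : b + t • al n Γ + (u + -2 * t) • al n Γ = b := by
        have h6 : u = t := rfl
        have h7 : t + (t + -2 * t) = 0 := by ring
        rw [h6, add_assoc, ← add_smul, h7, zero_smul, add_zero]
      rw [h5]
      exact hb
    · -- transposition
      have h4 : t * ((n : ℤ) - 1 - ((Γ ∩ Δ).card : ℤ)) = -t := by rw [hk]; ring
      rw [h4]
      have hc1 : (Γ \ Δ).card = 1 := by
        have := Finset.card_sdiff_add_card_inter Γ Δ
        omega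
      have hc2 : (Δ \ Γ).card = 1 := by
        have := Finset.card_sdiff_add_card_inter Δ Γ
        rw [Finset.inter_comm] at this
        omega
      obtain ⟨i, hi⟩ := Finset.card_eq_one.mp hc1
      obtain ⟨j, hj⟩ := Finset.card_eq_one.mp hc2
      have hiΓ : i ∈ Γ ∧ i ∉ Δ := by
        have : i ∈ Γ \ Δ := by rw [hi]; exact Finset.mem_singleton_self i
        exact Finset.mem_sdiff.mp this
      have hjΔ : j ∈ Δ ∧ j ∉ Γ := by
        have : j ∈ Δ \ Γ := by rw [hj]; exact Finset.mem_singleton_self j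
        exact Finset.mem_sdiff.mp this
      have hij : i ≠ j := fun h => hiΓ.2 (h ▸ hjΔ.1)
      have hiff : ∀ k, k ≠ i → k ≠ j → (k ∈ Γ ↔ k ∈ Δ) := by
        intro k h1 h2
        constructor
        · intro h
          by_contra h3
          have : k ∈ Γ \ Δ := Finset.mem_sdiff.mpr ⟨h, h3⟩
          rw [hi, Finset.mem_singleton] at this
          exact h1 this
        · intro h
          by_contra h3
          have : k ∈ Δ \ Γ := Finset.mem_sdiff.mpr ⟨h, h3⟩
          rw [hj, Finset.mem_singleton] at this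
          exact h2 this
      have hmap : Γ.map (Equiv.swap i j).toEmbedding = Δ := by
        ext k
        rw [Finset.mem_map_equiv, Equiv.symm_swap]
        by_cases h1 : k = i
        · subst h1
          rw [Equiv.swap_apply_left]
          exact iff_of_false hjΔ.2 hiΓ.2
        · by_cases h2 : k = j
          · subst h2
            rw [Equiv.swap_apply_right]
            exact iff_of_true hiΓ.1 hjΔ.1
          · rw [Equiv.swap_apply_of_ne_of_ne h1 h2]
            exact hiff k h1 h2
      have htu : t - u = b.2 j - b.2 i := by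
        rw [htdef, hudef]
        unfold tt
        have e1 : ∑ k ∈ Γ, b.2 k = ∑ k ∈ Γ ∩ Δ, b.2 k + b.2 i := by
          rw [← Finset.sum_inter_add_sum_sdiff Γ Δ, hi, Finset.sum_singleton]
        have e2 : ∑ k ∈ Δ, b.2 k = ∑ k ∈ Γ ∩ Δ, b.2 k + b.2 j := by
          rw [← Finset.sum_inter_add_sum_sdiff Δ Γ, hj, Finset.sum_singleton, Finset.inter_comm]
        rw [e1, e2]
        ring
      have hσ : tt Γ (pm (Equiv.swap i j) b) = u := by
        rw [tt_pm, hmap]
      have h5 : b + t • al n Γ + (u + -t) • al n Δ =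
          pm (Equiv.swap i j) b + tt Γ (pm (Equiv.swap i j) b) • al n Γ := by
        rw [hσ]
        refine Prod.ext ?_ ?_
        · simp only [pm, al, Prod.fst_add, Prod.smul_fst, smul_eq_mul]
          ring
        · funext k
          simp only [pm, al, Prod.snd_add, Prod.smul_snd, Pi.add_apply, Pi.smul_apply, smul_eq_mul]
          by_cases h1 : k = i
          · subst h1
            rw [Equiv.swap_apply_left, if_pos hiΓ.1, if_neg hiΓ.2]
            linear_combination htu
          · by_cases h2 : k = j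
            · subst h2
              rw [Equiv.swap_apply_right, if_neg hjΔ.2, if_pos hjΔ.1]
              linear_combination -htu
            · rw [Equiv.swap_apply_of_ne_of_ne h1 h2]
              by_cases h3 : k ∈ Γ
              · rw [if_pos h3, if_pos ((hiff k h1 h2).mp h3)]
                ring
              · rw [if_neg h3, if_neg (fun h => h3 ((hiff k h1 h2).mpr h))]
                ring
      rw [h5]
      exact ih _ hbN _ (hb.perm _) rfl Γ hΓ
    · -- commuting
      have h4 : t * ((n : ℤ) - 1 - ((Γ ∩ Δ).card : ℤ)) = 0 := by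
        rw [hk]
        push_cast [Nat.cast_sub (by omega : 1 ≤ n)]
        ring
      rw [h4, add_zero] at hlt ⊢
      have h5 := ih _ hbN b hb rfl Δ hΔ
      have h6 : tt Γ (b + u • al n Δ) = t := by
        rw [tt_add_smul, Finset.inter_comm, hk]
        push_cast [Nat.cast_sub (by omega : 1 ≤ n)]
        rw [← htdef]
        ring
      have h7 := RO.step _ Γ hΓ h5 (by rw [h6]; exact ht)
      rw [← hudef, h6] at h7
      have h8 : b + t • al n Γ + u • al n Δ = b + u • al n Δ + t • al n Γ := by abel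
      rw [h8]
      exact h7
    · -- braid relation
      have hp : (n : ℤ) - 1 - ((Γ ∩ Δ).card : ℤ) = 1 := by
        rw [hk]
        push_cast [Nat.cast_sub hn]
        ring
      have hp' : (n : ℤ) - 1 - ((Δ ∩ Γ).card : ℤ) = 1 := by
        rw [Finset.inter_comm]; exact hp
      have hpΓ : (n : ℤ) - 1 - ((Γ ∩ Γ).card : ℤ) = -2 := by
        rw [Finset.inter_self, hΓ]; push_cast; ring
      have hpΔ : (n : ℤ) - 1 - ((Δ ∩ Δ).card : ℤ) = -2 := by
        rw [Finset.inter_self, hΔ]; push_cast; ring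
      rw [hp, mul_one] at hlt ⊢
      have hu : u < 0 := by omega
      -- first reflection
      have r1 := ih _ hbN b hb rfl Δ hΔ
      rw [← hudef] at r1
      have t1 : tt Γ (b + u • al n Δ) = t + u := by
        rw [tt_add_smul, hp', ← htdef]; ring
      have d1 := r1.le hn
      have e1 : (b + u • al n Δ).1 = b.1 + u * ((n : ℤ) - 1) := rfl
      have q1 : u * ((n : ℤ) - 1) < 0 := mul_neg_of_neg_of_pos hu (by omega)
      have hN1 : ((b + u • al n Δ).1 - D).toNat < N := by
        rw [e1]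
        omega
      have r2 := ih _ hN1 _ r1 rfl Γ hΓ
      rw [t1] at r2
      have t2 : tt Δ (b + u • al n Δ + (t + u) • al n Γ) = t := by
        rw [tt_add_smul, hp, tt_add_smul, hpΔ, ← hudef]; ring
      have r3 := RO.step _ Δ hΔ r2 (by rw [t2]; exact ht)
      rw [t2] at r3
      have t3 : tt Γ (b + u • al n Δ + (t + u) • al n Γ + t • al n Δ) = -u := by
        rw [tt_add_smul, hp', tt_add_smul, hpΓ, t1]; ring
      have r4 := RO.step _ Γ hΓ r3 (by rw [t3]; omega)
      rw [t3] at r4
      have h8 : b + t • al n Γ + (u + t) • al n Δ =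
          b + u • al n Δ + (t + u) • al n Γ + t • al n Δ + -u • al n Γ := by
        rw [add_smul, add_smul, neg_smul]
        abel
      rw [h8]
      exact r4

/-- **Dominant classes are not in the orbit of the classes of lines.** -/
theorem not_inWeylOrbit {n : ℕ} (hn : 2 ≤ n) {c : ℤ × (Fin (n + 4) → ℤ)} (h1 : 1 < c.1)
    (h : ∀ Γ : Finset (Fin (n + 4)), Γ.card = n + 1 → ∑ i ∈ Γ, c.2 i ≤ c.1) :
    ¬ InWeylOrbit n (n + 4) c := by
  have hc : RO n (n + 4) c.1 c := RO.base c le_rfl fun Γ hΓ => by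
    have := h Γ hΓ
    unfold tt
    omega
  have key : ∀ c' : ℤ × (Fin (n + 4) → ℤ), InWeylOrbit n (n + 4) c' → ¬ RO n (n + 4) c.1 c' := by
    intro c' h'
    induction h' with
    | line i j hij =>
      intro h2
      have := h2.le hn
      simp only at this
      omega
    | cremona Γ c' hΓ _ ih =>
      intro h2
      apply ih
      have h3 := RO.closed hn rfl _ _ h2 rfl Γ hΓ
      have h4 : cremona n Γ c' + tt Γ (cremona n Γ c') • al n Γ = c' := by
        rw [cremona_eq, tt_add_smul, Finset.inter_self, hΓ]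
        have h5 : tt Γ c' + tt Γ c' * ((n : ℤ) - 1 - ((n + 1 : ℕ) : ℤ)) = - tt Γ c' := by
          push_cast; ring
        rw [h5, neg_smul]
        abel
      rw [h4] at h3
      exact h3
  exact fun h' => key c h' hc

end Pool.Agent.Y204.MC
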