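import Pool.Agent.Y204.MC.NormCurve

/-!
# The curve data of a normalised curve: assembly
-/

open Polynomial Module

namespace Pool.Agent.Y204.MC

open Pool.Agent.H403R3

namespace Norm

variable {n : ℕ} {P : Fin 3 → Vec n} (N : Norm n P)

/-- all contact parameters -/
noncomputable def tt : QQ n → ℂ := Sum.elim N.rr N.τ

lemma tt_inj : Function.Injective N.tt := by
  rintro (s | l) (s' | l') h
  · exact congrArg _ (N.rr_inj h)
  · exact absurd h (N.r_ne_τ s.1 s.2 l')
  · exact absurd h.symm (N.r_ne_τ s'.1 s'.2 l)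
  · exact congrArg _ (N.τ_inj h)

/-- the factors at the contacts -/
noncomputable def uu : QQ n → ℂ :=
  Sum.elim (fun s => (N.f s.1).eval (N.rr s)) (fun l => N.lam l * N.DD.eval (N.τ l))

lemma contact_tt (q : QQ n) : vev N.f (N.tt q) = N.uu q • nPts P (ptQ n q) := by
  rcases q with s | l
  · simp only [tt, uu, ptQ, Sum.elim_inl]
    rw [N.f_pole, nPts_iL]
  · simp only [tt, uu, ptQ, Sum.elim_inr]
    rw [nPts_iR]
    funext m
    simp only [vev, Pi.smul_apply, smul_eq_mul]
    have h1 := congrArg (eval (N.τ l)) (N.f_D m)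
    rw [eval_mul, eval_mul, N.contact'] at h1
    apply mul_right_cancel₀ (N.eval_D_ne m l)
    linear_combination h1

lemma dir_pole (s s' : Σ m : Fin (n + 1), Fin (mu n m)) (hss : s ≠ s') (h1 : s.1 = s'.1) :
    vev (fun j => derivative (N.f j)) (N.rr s') ∉
    Submodule.span ℂ {vev (fun j => derivative (N.f j)) (N.rr s), (Pi.single s.1 (1 : ℂ) : Vec n)} := by
  intro h
  rw [Submodule.mem_span_pair] at h
  obtain ⟨x, y, hxy⟩ := h
  have hA := N.eval_dDD_rr s
  have hB := N.eval_dDD_rr s'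
  set A := (derivative N.DD).eval (N.rr s) with hAd
  set B := (derivative N.DD).eval (N.rr s') with hBd
  have key : ∀ m, m ≠ s.1 → (N.G m).eval (N.rr s') * (N.D m).eval (N.rr s) * B =
      x * A * ((N.G m).eval (N.rr s) * (N.D m).eval (N.rr s')) := by
    intro m hm
    have h2 := congrFun hxy m
    simp only [Pi.add_apply, Pi.smul_apply, smul_eq_mul, vev, Pi.single_eq_of_ne hm, mul_zero,
      add_zero] at h2
    have h3 := N.eval_df_rr (m := m) (s := s) hm
    have h4 := N.eval_df_rr (m := m) (s := s') (by rw [← h1]; exact hm)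
    rw [← hAd] at h3
    rw [← hBd] at h4
    linear_combination (-(N.D m).eval (N.rr s)) * h4 +
      x * (N.D m).eval (N.rr s') * h3 - (N.D m).eval (N.rr s) * (N.D m).eval (N.rr s') * h2
  have hp := N.pairs (a := ![1, N.rr s]) (b := ![1, N.rr s']) (pair_ne_zero _) (pair_ne_zero _) (by
    intro j j'
    rw [N.g_one, N.g_one, N.g_one, N.g_one, N.d_one, N.d_one, N.d_one, N.d_one]
    by_cases hj : e7 N.hn j = s.1
    · have z1 : (N.D (e7 N.hn j)).eval (N.rr s) = 0 := (N.eval_D_rr _ _).mpr hj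
      have z2 : (N.D (e7 N.hn j)).eval (N.rr s') = 0 := (N.eval_D_rr _ _).mpr (hj.trans h1)
      rw [z1, z2]; ring
    · by_cases hj' : e7 N.hn j' = s.1
      · have z1 : (N.D (e7 N.hn j')).eval (N.rr s) = 0 := (N.eval_D_rr _ _).mpr hj'
        have z2 : (N.D (e7 N.hn j')).eval (N.rr s') = 0 := (N.eval_D_rr _ _).mpr (hj'.trans h1)
        rw [z1, z2]; ring
      · apply mul_left_cancel₀ hB
        have k1 := key _ hj
        have k2 := key _ hj'
        linear_combination (N.G (e7 N.hn j)).eval (N.rr s) * (N.D (e7 N.hn j)).eval (N.rr s') * k2 -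
          (N.G (e7 N.hn j')).eval (N.rr s) * (N.D (e7 N.hn j')).eval (N.rr s') * k1)
  rcases hp with h0 | ⟨l, l', _, _, ⟨c, hc⟩, _⟩
  · simp only [Matrix.cons_val_zero, Matrix.cons_val_one] at h0
    exact hss (N.rr_inj (by linear_combination (-1 : ℂ) * h0))
  · have e0 := congrFun hc 0
    have e1 := congrFun hc 1
    simp only [Pi.smul_apply, Matrix.cons_val_zero, Matrix.cons_val_one, smul_eq_mul,
      mul_one] at e0 e1
    rw [← e0, one_mul] at e1
    exact N.r_ne_τ s.1 s.2 l e1

lemma df_D2 (m : Fin (n + 1)) (t : ℂ) :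
    (derivative (N.f m)).eval t * (N.D m).eval t ^ 2 =
      (N.Wr m).eval t * N.DD.eval t + (N.G m).eval t * (N.D m).eval t *
        (derivative N.DD).eval t := by
  have h1 := congrArg (eval t) (N.df_D m)
  have h2 := congrArg (eval t) (N.DD_eq m)
  simp only [eval_mul, eval_add] at h1 h2
  linear_combination (N.D m).eval t * h1 - (N.Wr m).eval t * h2

lemma dir_node (i : Fin 9) {l l' : Fin 9} (h : (l = la i ∧ l' = lb i) ∨ (l = lb i ∧ l' = la i)) :
    vev (fun j => derivative (N.f j)) (N.τ l') ∉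
    Submodule.span ℂ {vev (fun j => derivative (N.f j)) (N.τ l), P (ix l)} := by
  intro hmem
  rw [Submodule.mem_span_pair] at hmem
  obtain ⟨x, y, hxy⟩ := hmem
  have hd := N.dirs i
  have hA := N.eval_DD_τ (la i)
  have hB := N.eval_DD_τ (lb i)
  have hix := ix_la_lb i
  have hWr : ∀ m t, (derivative (N.G m) * (∏ k, (X - C (N.r m k))) -
          N.G m * derivative (∏ k, (X - C (N.r m k)))).eval t = (N.Wr m).eval t := fun m t => rfl
  have hDe : ∀ m t, (∏ k, (X - C (N.r m k))).eval t = (N.D m).eval t := fun m t => rfl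
  simp only [hWr, hDe] at hd
  have ca := fun m => N.contact' (la i) m
  have cb := fun m => N.contact' (lb i) m
  rw [← hix] at cb
  rcases h with ⟨rfl, rfl⟩ | ⟨rfl, rfl⟩
  · have := hd (x * N.DD.eval (N.τ (la i))) (-N.DD.eval (N.τ (lb i)))
      (x * N.lam (la i) * (derivative N.DD).eval (N.τ (la i)) -
        N.lam (lb i) * (derivative N.DD).eval (N.τ (lb i)) + y) (by
      intro m
      have h2 := congrFun hxy m
      simp only [Pi.add_apply, Pi.smul_apply, smul_eq_mul, vev] at h2
      have f1 := N.df_D2 m (N.τ (la i))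
      have f2 := N.df_D2 m (N.τ (lb i))
      rw [ca m] at f1
      rw [cb m] at f2
      linear_combination (-x * (N.D m).eval (N.τ (lb i)) ^ 2) * f1 +
        (N.D m).eval (N.τ (la i)) ^ 2 * f2 +
        (N.D m).eval (N.τ (la i)) ^ 2 * (N.D m).eval (N.τ (lb i)) ^ 2 * h2)
    exact hB (neg_eq_zero.mp this.2)
  · rw [← hix] at hxy
    have := hd (-N.DD.eval (N.τ (la i))) (x * N.DD.eval (N.τ (lb i)))
      (x * N.lam (lb i) * (derivative N.DD).eval (N.τ (lb i)) -
        N.lam (la i) * (derivative N.DD).eval (N.τ (la i)) + y) (by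
      intro m
      have h2 := congrFun hxy m
      simp only [Pi.add_apply, Pi.smul_apply, smul_eq_mul, vev] at h2
      have f1 := N.df_D2 m (N.τ (la i))
      have f2 := N.df_D2 m (N.τ (lb i))
      rw [ca m] at f1
      rw [cb m] at f2
      linear_combination (-x * (N.D m).eval (N.τ (la i)) ^ 2) * f2 +
        (N.D m).eval (N.τ (lb i)) ^ 2 * f1 +
        (N.D m).eval (N.τ (la i)) ^ 2 * (N.D m).eval (N.τ (lb i)) ^ 2 * h2)
    exact hA (neg_eq_zero.mp this.1)

lemma ix_cases {l l' : Fin 9} (h : l ≠ l') (hix : ix l = ix l') :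
    ∃ i : Fin 9, (l = la i ∧ l' = lb i) ∨ (l = lb i ∧ l' = la i) := by
  revert l l'; decide

lemma ptQ_surj (n : ℕ) : Function.Surjective (ptQ n) := by
  intro i
  rcases iL_or_iR i with ⟨m, rfl⟩ | ⟨k, rfl⟩
  · have : 0 < mu n m := by have := mu_pos n m; omega
    exact ⟨Sum.inl ⟨m, ⟨0, this⟩⟩, rfl⟩
  · have : ∃ l, ix l = k := by revert k; decide
    obtain ⟨l, rfl⟩ := this
    exact ⟨Sum.inr l, rfl⟩

/-- the curve data -/
noncomputable def curveData : CurveData (nPts P) (QQ n) (ptQ n) (dg n) where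
  f := N.f
  t := N.tt
  u := N.uu
  deg := N.natDegree_f
  t_inj := N.tt_inj
  contact := N.contact_tt
  surj := ptQ_surj n
  mult_lt := by
    have h10 : 21 ≤ dg n := by rw [dg_eq N.hn]; have := N.hn; omega
    intro i
    rcases iL_or_iR i with ⟨m, rfl⟩ | ⟨k, rfl⟩
    · rw [card_fiber_iL]
      have := mu_le n m
      omega
    · rw [card_fiber_iR, card_fiber_ix]
      omega
  imm := fun a ha c₀ c₁ h => N.imm ha h
  inj := fun a b ha hb h => N.inj ha hb h
  dir := by
    rintro (s | l) (s' | l') hqq hpt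
    · have h1 : s.1 = s'.1 := iL_inj hpt
      have h2 := N.dir_pole s s' (fun h => hqq (by rw [h])) h1
      simp only [ptQ, Sum.elim_inl, nPts_iL]
      exact h2
    · exact absurd hpt (iL_ne_iR _ _)
    · exact absurd hpt.symm (iL_ne_iR _ _)
    · have h1 : ix l = ix l' := iR_inj hpt
      obtain ⟨i, hi⟩ := ix_cases (fun h => hqq (by rw [h])) h1
      have h2 := N.dir_node i hi
      simp only [ptQ, Sum.elim_inr, nPts_iR]
      exact h2
  H0 := fun ξ hξ h => N.H0 ξ hξ (fun s => h (Sum.inl s)) (fun l => h (Sum.inr l))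
  num := by
    rw [card_QQ, dg_eq N.hn]
    have := N.hn
    obtain ⟨k, rfl⟩ : ∃ k, n = k + 6 := ⟨n - 6, by omega⟩
    have e1 : 4 * (k + 6) - 3 + 2 = 4 * k + 23 := by omega
    have e2 : 4 * (k + 6) - 3 + 9 = 4 * k + 30 := by omega
    have e3 : k + 6 - 1 = k + 5 := by omega
    rw [e1, e2, e3]
    ring
  hn := by have := N.hn; omega

end Norm

end Pool.Agent.Y204.MC
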