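import Pool.Agent.Y204.MC.Norm

/-!
# The vector fields along a normalised curve
-/

open Polynomial Module

namespace Pool.Agent.Y204.MC

open Pool.Agent.H403R3

lemma eval_derivative_prod_ne {Q : Type*} [DecidableEq Q] (S : Finset Q) {t : Q → ℂ}
    (ht : Function.Injective t) {q : Q} (hq : q ∈ S) :
    (derivative (∏ q ∈ S, (X - C (t q)))).eval (t q) ≠ 0 := by
  rw [← Finset.mul_prod_erase _ _ hq, derivative_mul, eval_add, eval_mul, eval_mul]
  simp only [derivative_sub, derivative_X, derivative_C, sub_zero, eval_one, one_mul, eval_sub,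
    eval_X, eval_C, sub_self, zero_mul, add_zero]
  rw [eval_prod, Finset.prod_ne_zero_iff]
  intro q' hq'
  simp only [eval_sub, eval_X, eval_C]
  rw [sub_ne_zero]
  exact fun h => (Finset.mem_erase.mp hq').1 (ht h).symm

namespace Norm

variable {n : ℕ} {P : Fin 3 → Vec n} (N : Norm n P)

/-- the degree of the curve -/
def dg (n : ℕ) : ℕ := ∑ m : Fin (n + 1), mu n m

lemma le_dg (n : ℕ) (m : Fin (n + 1)) : mu n m ≤ dg n :=
  Finset.single_le_sum (f := mu n) (fun _ _ => Nat.zero_le _) (Finset.mem_univ m)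

lemma dg_pos (n : ℕ) : 2 ≤ dg n := (mu_pos n 0).trans (le_dg n 0)

noncomputable def DD : ℂ[X] := ∏ m, N.D m

noncomputable def Dc (m : Fin (n + 1)) : ℂ[X] := ∏ m' ∈ Finset.univ.erase m, N.D m'

noncomputable def f (m : Fin (n + 1)) : ℂ[X] := N.G m * N.Dc m

/-- the poles -/
def rr : (Σ m : Fin (n + 1), Fin (mu n m)) → ℂ := fun s => N.r s.1 s.2

lemma rr_inj : Function.Injective N.rr := fun s s' h => N.r_inj s.1 s.2 s'.1 s'.2 h

lemma DD_eq (m : Fin (n + 1)) : N.DD = N.D m * N.Dc m :=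
  (Finset.mul_prod_erase _ _ (Finset.mem_univ m)).symm

lemma f_D (m : Fin (n + 1)) : N.f m * N.D m = N.G m * N.DD := by
  rw [N.DD_eq m, f]; ring

lemma df_D (m : Fin (n + 1)) :
    derivative (N.f m) * N.D m = N.Wr m * N.Dc m + N.G m * derivative N.DD := by
  rw [N.DD_eq m, f, Wr, derivative_mul, derivative_mul]; ring

lemma monic_DD : N.DD.Monic := monic_prod_of_monic _ _ fun m _ => N.monic_D m

lemma monic_Dc (m : Fin (n + 1)) : (N.Dc m).Monic := monic_prod_of_monic _ _ fun m _ => N.monic_D m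

lemma natDegree_DD : N.DD.natDegree = dg n := by
  unfold DD
  rw [natDegree_prod_of_monic _ _ fun m _ => N.monic_D m]
  exact Finset.sum_congr rfl fun m _ => N.natDegree_D m

lemma natDegree_Dc (m : Fin (n + 1)) : (N.Dc m).natDegree = dg n - mu n m := by
  have h1 := (N.monic_D m).natDegree_mul (N.monic_Dc m)
  rw [← N.DD_eq m, N.natDegree_DD, N.natDegree_D] at h1
  omega

lemma natDegree_f (m : Fin (n + 1)) : (N.f m).natDegree ≤ dg n := by
  have := le_dg n m
  exact (natDegree_mul_le_of_le (N.degG m) (N.natDegree_Dc m).le).trans (by omega)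

lemma DD_sigma : N.DD = ∏ s : (Σ m : Fin (n + 1), Fin (mu n m)), (X - C (N.rr s)) := by
  unfold DD D rr
  rw [Fintype.prod_sigma]

lemma Dc_sigma (m : Fin (n + 1)) : N.Dc m =
    ∏ s ∈ (Finset.univ.erase m).sigma (fun m' => (Finset.univ : Finset (Fin (mu n m')))),
      (X - C (N.rr s)) := by
  unfold Dc D rr
  rw [Finset.prod_sigma]

lemma eval_DD_τ (l : Fin 9) : N.DD.eval (N.τ l) ≠ 0 := by
  unfold DD
  rw [eval_prod, Finset.prod_ne_zero_iff]
  exact fun m _ => N.eval_D_ne m l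

lemma eval_D_rr (m : Fin (n + 1)) (s : Σ m : Fin (n + 1), Fin (mu n m)) :
    (N.D m).eval (N.rr s) = 0 ↔ m = s.1 := by
  constructor
  · intro h
    unfold D at h
    rw [eval_prod, Finset.prod_eq_zero_iff] at h
    obtain ⟨k, _, hk⟩ := h
    simp only [eval_sub, eval_X, eval_C, sub_eq_zero] at hk
    have := N.rr_inj (a₁ := s) (a₂ := ⟨m, k⟩) hk
    rw [this]
  · rintro rfl
    exact N.eval_D_r _ _

lemma eval_Dc_rr_of_ne {m : Fin (n + 1)} {s : Σ m : Fin (n + 1), Fin (mu n m)} (h : m ≠ s.1) :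
    (N.Dc m).eval (N.rr s) = 0 := by
  unfold Dc
  rw [eval_prod]
  exact Finset.prod_eq_zero (Finset.mem_erase.mpr ⟨h.symm, Finset.mem_univ _⟩)
    ((N.eval_D_rr _ _).mpr rfl)

lemma eval_Dc_rr (s : Σ m : Fin (n + 1), Fin (mu n m)) : (N.Dc s.1).eval (N.rr s) ≠ 0 := by
  unfold Dc
  rw [eval_prod, Finset.prod_ne_zero_iff]
  intro m hm h
  exact (Finset.mem_erase.mp hm).1 ((N.eval_D_rr _ _).mp h)

lemma eval_dDD_rr (s : Σ m : Fin (n + 1), Fin (mu n m)) : (derivative N.DD).eval (N.rr s) ≠ 0 := by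
  rw [N.DD_sigma]
  exact eval_derivative_prod_ne _ N.rr_inj (Finset.mem_univ s)

lemma dDD_rr (s : Σ m : Fin (n + 1), Fin (mu n m)) : (derivative N.DD).eval (N.rr s) =
    (derivative (N.D s.1)).eval (N.rr s) * (N.Dc s.1).eval (N.rr s) := by
  rw [N.DD_eq s.1, derivative_mul, eval_add, eval_mul, eval_mul, (N.eval_D_rr _ _).mpr rfl]
  ring

/-- the values of the curve at the poles -/
lemma eval_f_rr_of_ne {m : Fin (n + 1)} {s : Σ m : Fin (n + 1), Fin (mu n m)} (h : m ≠ s.1) :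
    (N.f m).eval (N.rr s) = 0 := by
  rw [f, eval_mul, N.eval_Dc_rr_of_ne h, mul_zero]

lemma eval_f_rr (s : Σ m : Fin (n + 1), Fin (mu n m)) : (N.f s.1).eval (N.rr s) ≠ 0 := by
  rw [f, eval_mul]
  exact mul_ne_zero (N.G_ne s.1 s.2) (N.eval_Dc_rr s)

lemma eval_df_rr {m : Fin (n + 1)} {s : Σ m : Fin (n + 1), Fin (mu n m)} (h : m ≠ s.1) :
    (derivative (N.f m)).eval (N.rr s) * (N.D m).eval (N.rr s) =
      (N.G m).eval (N.rr s) * (derivative N.DD).eval (N.rr s) := by
  have := congrArg (eval (N.rr s)) (N.df_D m)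
  rw [eval_mul, eval_add, eval_mul, eval_mul, N.eval_Dc_rr_of_ne h] at this
  linear_combination this

/-- divisibility by the polynomial `Dc m` -/
lemma exists_div_Dc (m : Fin (n + 1)) {φ : ℂ[X]} {d : ℕ} (hφ : φ.natDegree ≤ d + (dg n - mu n m))
    (h : ∀ s : Σ m : Fin (n + 1), Fin (mu n m), m ≠ s.1 → φ.eval (N.rr s) = 0) :
    ∃ ψ : ℂ[X], ψ.natDegree ≤ d ∧ φ = N.Dc m * ψ := by
  have hcard : ((Finset.univ.erase m).sigma
      (fun m' => (Finset.univ : Finset (Fin (mu n m'))))).card = dg n - mu n m := by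
    rw [← N.natDegree_Dc m, N.Dc_sigma m, natDegree_nodes]
  have := exists_div ((Finset.univ.erase m).sigma
      (fun m' => (Finset.univ : Finset (Fin (mu n m'))))) N.rr_inj (φ := φ) (d := d)
      (by rw [hcard]; exact hφ) (fun s hs => h s (fun e => by
        have := (Finset.mem_sigma.mp hs).1
        exact (Finset.mem_erase.mp this).1 e.symm))
  obtain ⟨ψ, hψ, he⟩ := this
  exact ⟨ψ, hψ, by rw [he, N.Dc_sigma m]⟩

lemma exists_div_DD {φ : ℂ[X]} {d : ℕ} (hφ : φ.natDegree ≤ d + dg n)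
    (h : ∀ s : Σ m : Fin (n + 1), Fin (mu n m), φ.eval (N.rr s) = 0) :
    ∃ ψ : ℂ[X], ψ.natDegree ≤ d ∧ φ = N.DD * ψ := by
  have hcard : (Finset.univ : Finset (Σ m : Fin (n + 1), Fin (mu n m))).card = dg n := by
    rw [← N.natDegree_DD, N.DD_sigma, natDegree_nodes]
  have := exists_div Finset.univ N.rr_inj (φ := φ) (d := d)
      (by rw [hcard]; exact hφ) (fun s _ => h s)
  obtain ⟨ψ, hψ, he⟩ := this
  exact ⟨ψ, hψ, by rw [he, N.DD_sigma]⟩

lemma coeff_f_inf : (N.f (e7 N.hn 0)).coeff (dg n) ≠ 0 := by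
  have h1 := le_dg n (e7 N.hn 0)
  have h2 := N.degG (e7 N.hn 0)
  have h3 := N.natDegree_Dc (e7 N.hn 0)
  rw [mu_e7] at h1 h2 h3
  have h4 : dg n = 3 + (dg n - 3) := by omega
  rw [h4, f, coeff_mul_add_eq_of_natDegree_le h2 h3.le]
  have h5 : (N.Dc (e7 N.hn 0)).coeff (dg n - 3) = 1 := by
    have := (N.monic_Dc (e7 N.hn 0)).coeff_natDegree
    rwa [h3] at this
  rw [h5, mul_one]
  exact N.G_inf

/-- the condition `H0` -/
lemma H0 (ξ : Fin (n + 1) → ℂ[X]) (hξ : ∀ j, (ξ j).natDegree ≤ dg n)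
    (hr : ∀ s, vev ξ (N.rr s) ∈
      Submodule.span ℂ {vev N.f (N.rr s), vev (fun j => derivative (N.f j)) (N.rr s)})
    (hτ : ∀ l, vev ξ (N.τ l) ∈
      Submodule.span ℂ {vev N.f (N.τ l), vev (fun j => derivative (N.f j)) (N.τ l)}) :
    ∃ B₀ B₁ : ℂ[X], B₀.natDegree ≤ 1 ∧ B₁.natDegree ≤ 1 ∧
      ∀ j, ξ j = B₀ * der0 (dg n) (N.f j) + B₁ * derivative (N.f j) := by
  have hr' : ∀ s, ∃ x c : ℂ, ∀ m, (ξ m).eval (N.rr s) =
      x * (N.f m).eval (N.rr s) + c * (derivative (N.f m)).eval (N.rr s) := by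
    intro s
    obtain ⟨x, c, h⟩ := Submodule.mem_span_pair.mp (hr s)
    refine ⟨x, c, fun m => ?_⟩
    have := congrFun h m
    simp only [vev, Pi.add_apply, Pi.smul_apply, smul_eq_mul] at this
    exact this.symm
  have hτ' : ∀ l, ∃ x y : ℂ, ∀ m, (ξ m).eval (N.τ l) =
      x * (N.f m).eval (N.τ l) + y * (derivative (N.f m)).eval (N.τ l) := by
    intro l
    obtain ⟨x, c, h⟩ := Submodule.mem_span_pair.mp (hτ l)
    refine ⟨x, c, fun m => ?_⟩
    have := congrFun h m
    simp only [vev, Pi.add_apply, Pi.smul_apply, smul_eq_mul] at this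
    exact this.symm
  choose xr c hc using hr'
  choose x y hxy using hτ'
  have hcard : (Finset.univ : Finset (Σ m : Fin (n + 1), Fin (mu n m))).card = dg n := by
    rw [← N.natDegree_DD, N.DD_sigma, natDegree_nodes]
  obtain ⟨A, hA, hAe⟩ := exists_interp (Finset.univ : Finset (Σ m : Fin (n + 1), Fin (mu n m)))
    N.rr_inj (fun s => c s * (derivative N.DD).eval (N.rr s))
  rw [hcard] at hA
  have hN : ∀ m, ∃ Nm : ℂ[X], Nm.natDegree ≤ 2 * mu n m ∧
      ξ m * N.D m - A * N.G m = N.Dc m * Nm := by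
    intro m
    have hm := le_dg n m
    refine N.exists_div_Dc m ?_ ?_
    · refine (natDegree_sub_le _ _).trans (max_le ?_ ?_)
      · exact (natDegree_mul_le_of_le (hξ m) (N.natDegree_D m).le).trans (by omega)
      · exact (natDegree_mul_le_of_le hA (N.degG m)).trans (by omega)
    · intro s hs
      have h1 := N.eval_df_rr hs
      rw [eval_sub, eval_mul, eval_mul, hc, N.eval_f_rr_of_ne hs, hAe s (Finset.mem_univ s)]
      linear_combination c s * h1
  choose Nm hNm hNe using hN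
  obtain ⟨κ, β, hβ, hz, hy, hcore⟩ := N.core (y := y)
    (z := fun l => x l + (y l * (derivative N.DD).eval (N.τ l) - A.eval (N.τ l)) /
      N.DD.eval (N.τ l)) hNm (by
    intro m l
    have h0 := N.eval_DD_τ l
    have h1 := congrArg (eval (N.τ l)) (hNe m)
    have h2 := congrArg (eval (N.τ l)) (N.f_D m)
    have h3 := congrArg (eval (N.τ l)) (N.df_D m)
    have h4 := congrArg (eval (N.τ l)) (N.DD_eq m)
    have h5 := N.eval_D_ne m l
    simp only [eval_mul, eval_sub, eval_add] at h1 h2 h3 h4 ⊢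
    rw [hxy] at h1
    set DDv := N.DD.eval (N.τ l)
    have h6 : (Nm m).eval (N.τ l) * DDv = (y l * (N.Wr m).eval (N.τ l) +
      (x l + (y l * (derivative N.DD).eval (N.τ l) - A.eval (N.τ l)) / DDv) *
        ((N.G m).eval (N.τ l) * (N.D m).eval (N.τ l))) * DDv := by
      field_simp
      linear_combination (Nm m).eval (N.τ l) * h4 - (N.D m).eval (N.τ l) * h1 +
        x l * (N.D m).eval (N.τ l) * h2 + y l * (N.D m).eval (N.τ l) * h3 -
        y l * (N.Wr m).eval (N.τ l) * h4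
    exact mul_right_cancel₀ h0 h6)
  -- the polynomial `A`
  have hA2 : ∀ s, (A - β * derivative N.DD).eval (N.rr s) = 0 := by
    intro s
    have h1 := congrArg (eval (N.rr s)) (hNe s.1)
    rw [hcore s.1] at h1
    simp only [eval_mul, eval_sub, eval_add, eval_C, Wr] at h1
    rw [(N.eval_D_rr _ s).mpr rfl] at h1
    have h2 := N.dDD_rr s
    have h3 : (N.G s.1).eval (N.rr s) ≠ 0 := N.G_ne s.1 s.2
    rw [eval_sub, eval_mul, h2]
    apply mul_left_cancel₀ h3
    linear_combination (-1 : ℂ) * h1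
  obtain ⟨B, hB, hBe⟩ := N.exists_div_DD (φ := A - β * derivative N.DD) (d := 1) (by
    have h1 : (derivative N.DD).natDegree ≤ dg n - 1 :=
      (natDegree_derivative_le _).trans (by rw [N.natDegree_DD])
    have := dg_pos n
    refine (natDegree_sub_le _ _).trans (max_le (by omega) ?_)
    exact (natDegree_mul_le_of_le hβ h1).trans (by omega)) hA2
  have hform : ∀ m, ξ m = β * derivative (N.f m) + (B + C κ) * N.f m := by
    intro m
    apply mul_right_cancel₀ (N.monic_D m).ne_zero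
    have h1 := hNe m
    have h2 := N.f_D m
    have h3 := N.df_D m
    have h4 := N.DD_eq m
    rw [hcore m] at h1
    linear_combination h1 + N.G m * hBe - β * h3 - (B + C κ) * h2 - C κ * N.G m * h4
  -- the leading coefficient
  have hδ := dg_pos n
  have hδ0 : (dg n : ℂ) ≠ 0 := by exact_mod_cast (by omega : dg n ≠ 0)
  have hlead : β.coeff 2 + (dg n : ℂ)⁻¹ * B.coeff 1 = 0 := by
    set m := e7 N.hn 0 with hm
    have h1 : (ξ m).coeff (dg n + 1) = 0 :=
      coeff_eq_zero_of_natDegree_lt (lt_of_le_of_lt (hξ m) (by omega))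
    rw [hform m, coeff_add] at h1
    have h2 : (β * derivative (N.f m)).coeff (dg n + 1) =
        β.coeff 2 * (derivative (N.f m)).coeff (dg n - 1) := by
      have e : dg n + 1 = 2 + (dg n - 1) := by omega
      rw [e]
      refine coeff_mul_add_eq_of_natDegree_le hβ ?_
      exact (natDegree_derivative_le _).trans (Nat.sub_le_sub_right (N.natDegree_f m) 1)
    have h3 : ((B + C κ) * N.f m).coeff (dg n + 1) = B.coeff 1 * (N.f m).coeff (dg n) := by
      have e : dg n + 1 = 1 + dg n := by omega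
      rw [e, coeff_mul_add_eq_of_natDegree_le (natDegree_add_le_of_degree_le hB (by simp))
        (N.natDegree_f m), coeff_add, coeff_C_of_ne_zero one_ne_zero, add_zero]
    rw [h2, h3, coeff_derivative] at h1
    have e : dg n - 1 + 1 = dg n := by omega
    have e' : ((dg n - 1 : ℕ) : ℂ) + 1 = dg n := by
      rw [← Nat.cast_succ]; congr 1
    rw [e, e'] at h1
    have h4 := N.coeff_f_inf
    rw [← hm] at h4
    apply mul_left_cancel₀ (mul_ne_zero hδ0 h4)
    have h5 : (dg n : ℂ) * (dg n : ℂ)⁻¹ = 1 := mul_inv_cancel₀ hδ0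
    linear_combination h1 + (N.f m).coeff (dg n) * B.coeff 1 * h5
  refine ⟨C (dg n : ℂ)⁻¹ * (B + C κ), β + X * (C (dg n : ℂ)⁻¹ * (B + C κ)), ?_, ?_, fun j => ?_⟩
  · exact (natDegree_C_mul_le _ _).trans (natDegree_add_le_of_degree_le hB (by simp))
  · have h1 : (β + X * (C (dg n : ℂ)⁻¹ * (B + C κ))).natDegree ≤ 2 := by
      refine natDegree_add_le_of_degree_le hβ ?_
      refine (natDegree_mul_le_of_le natDegree_X_le ((natDegree_C_mul_le _ _).trans
        (natDegree_add_le_of_degree_le hB (by simp))))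
    refine natDegree_le_pred (n := 2) h1 ?_
    rw [coeff_add, coeff_X_mul, coeff_C_mul, coeff_add, coeff_C_of_ne_zero one_ne_zero, add_zero]
    exact hlead
  · rw [hform j, der0]
    have e : (C (dg n : ℂ) * C (dg n : ℂ)⁻¹ : ℂ[X]) = 1 := by
      rw [← C_mul, mul_inv_cancel₀ hδ0, C_1]
    linear_combination (-(B + C κ) * N.f j) * e

end Norm

end Pool.Agent.Y204.MC
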