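import Pool.Agent.Y204.MC.NormKc

/-!
# The triple points of a normalised curve
-/

open Polynomial Module

namespace Pool.Agent.Y204.MC

open Pool.Agent.H403R3

lemma ee_ne {a b : Fin 2 → ℂ} (ha : a ≠ 0) (hb : b ≠ 0) : ee a b ≠ 0 := by
  intro h
  have h0 := congrFun h 0
  have h1 := congrFun h 1
  have h2 := congrFun h 2
  simp only [ee, Matrix.cons_val_zero, Matrix.cons_val_one, Matrix.cons_val, Pi.zero_apply] at h0 h1 h2
  rcases mul_eq_zero.mp h0 with ha0 | hb0
  · have ha1 := a1_ne ha ha0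
    have hb1 := (mul_eq_zero.mp h2).resolve_left ha1
    rw [ha0, zero_mul, zero_add] at h1
    have hb0 := (mul_eq_zero.mp h1).resolve_left ha1
    exact hb (by funext i; fin_cases i <;> simp [hb0, hb1])
  · have hb1 := a1_ne hb hb0
    have ha1 := (mul_eq_zero.mp h2).resolve_right hb1
    rw [hb0, mul_zero, add_zero] at h1
    have ha0 := (mul_eq_zero.mp h1).resolve_right hb1
    exact ha (by funext i; fin_cases i <;> simp [ha0, ha1])

namespace Norm

variable {n : ℕ} {P : Fin 3 → Vec n} (N : Norm n P)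

/-- the sextics -/
noncomputable def KK (j j' : Fin 7) : ℂ[X] := N.G (e7 N.hn j) * N.D (e7 N.hn j')

noncomputable def KK' (j j' : Fin 7) : ℂ[X] := N.D (e7 N.hn j) * N.G (e7 N.hn j')

noncomputable def g (j : Fin 7) (a : Fin 2 → ℂ) : ℂ := hev 3 (N.G (e7 N.hn j)) a

noncomputable def d (j : Fin 7) (a : Fin 2 → ℂ) : ℂ := hev 3 (N.D (e7 N.hn j)) a

lemma degG7 (j : Fin 7) : (N.G (e7 N.hn j)).natDegree ≤ 3 := by
  have := N.degG (e7 N.hn j)
  rwa [mu_e7] at this

lemma degD7 (j : Fin 7) : (N.D (e7 N.hn j)).natDegree ≤ 3 := by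
  have := (N.natDegree_D (e7 N.hn j)).le
  rwa [mu_e7] at this

lemma hev_KK (j j' : Fin 7) (a : Fin 2 → ℂ) : hev 6 (N.KK j j') a = N.g j a * N.d j' a :=
  hev_mul' (show 3 + 3 = 6 by norm_num) (N.degG7 j) (N.degD7 j') a

lemma hev_KK' (j j' : Fin 7) (a : Fin 2 → ℂ) : hev 6 (N.KK' j j') a = N.d j a * N.g j' a :=
  hev_mul' (show 3 + 3 = 6 by norm_num) (N.degD7 j) (N.degG7 j') a

lemma natDegree_KK (j j' : Fin 7) : (N.KK j j').natDegree ≤ 6 :=
  natDegree_mul_le_of_le (N.degG7 j) (N.degD7 j')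

lemma natDegree_KK' (j j' : Fin 7) : (N.KK' j j').natDegree ≤ 6 :=
  natDegree_mul_le_of_le (N.degD7 j) (N.degG7 j')

noncomputable def qq (i : Fin 9) : Fin 3 → ℂ := qv N.τ i

lemma la_ne_lb (i : Fin 9) : la i ≠ lb i := by revert i; decide

lemma ix_la_lb (i : Fin 9) : ix (la i) = ix (lb i) := by revert i; decide

lemma g_one (j : Fin 7) (t : ℂ) : N.g j ![1, t] = (N.G (e7 N.hn j)).eval t := by
  unfold g
  rw [hev_of_ne (N.degG7 j) (by simp)]
  simp

lemma d_one (j : Fin 7) (t : ℂ) : N.d j ![1, t] = (N.D (e7 N.hn j)).eval t := by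
  unfold d
  rw [hev_of_ne (N.degD7 j) (by simp)]
  simp

lemma cf_qq (i : Fin 9) (j j' : Fin 7) : cf (N.KK j j') (N.KK' j j') (vv (N.qq i)) = 0 := by
  have h1 := psi_eq (N.KK j j') (N.KK' j j') ![1, N.τ (la i)] ![1, N.τ (lb i)]
  rw [N.hev_KK, N.hev_KK, N.hev_KK', N.hev_KK', N.g_one, N.g_one, N.g_one, N.g_one, N.d_one,
    N.d_one, N.d_one, N.d_one] at h1
  have e : ee ![1, N.τ (la i)] ![1, N.τ (lb i)] = N.qq i := by
    funext k
    fin_cases k <;> simp [ee, qq, qv]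
    ring
  rw [e] at h1
  have h2 : N.τ (lb i) - N.τ (la i) ≠ 0 := by
    rw [sub_ne_zero]
    exact fun h => la_ne_lb i (N.τ_inj h).symm
  have c1 := N.contact' (la i) (e7 N.hn j)
  have c2 := N.contact' (la i) (e7 N.hn j')
  have c3 := N.contact' (lb i) (e7 N.hn j)
  have c4 := N.contact' (lb i) (e7 N.hn j')
  rw [← ix_la_lb i] at c3 c4
  rw [c1, c2, c3, c4] at h1
  simp only [Matrix.cons_val_zero, Matrix.cons_val_one] at h1
  have h3 : (N.τ (lb i) - N.τ (la i)) * cf (N.KK j j') (N.KK' j j') (vv (N.qq i)) = 0 := by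
    linear_combination (-1 : ℂ) * h1
  exact (mul_eq_zero.mp h3).resolve_left h2

/-- Lemma K -/
lemma lemK {e : Fin 3 → ℂ}
    (h : ∀ j j', cf (N.KK j j') (N.KK' j j') (vv e) = 0) :
    ∃ i, e ∈ Submodule.span ℂ {N.qq i} := by
  by_contra hcon
  push Not at hcon
  have hx1 : ∀ j j' (o : Option (Fin 9)), cf (N.KK j j') (N.KK' j j') (vv (xo N.τ e o)) = 0 := by
    intro j j' o
    rcases o with _ | i
    · exact h j j'
    · exact N.cf_qq i j j'
  obtain ⟨α, hα, h0⟩ := exists_dep (fun o => vv (xo N.τ e o))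
  have h3 : ∑ o, α o • vv (xo N.τ e o) = 0 := by
    refine N.quints _ (fun j j' => ?_) h0
    have := cf_lin (N.KK j j') (N.KK' j j') α (fun o => vv (xo N.τ e o))
    refine this.trans ?_
    exact Finset.sum_eq_zero fun i _ => by rw [hx1, mul_zero]
  exact hα (ten_points N.τ_inj hcon α h3)

/-- pairs of points with the same image -/
lemma pairs {a b : Fin 2 → ℂ} (ha : a ≠ 0) (hb : b ≠ 0)
    (h : ∀ j j', N.g j a * N.d j' a * (N.d j b * N.g j' b) =
      N.g j b * N.d j' b * (N.d j a * N.g j' a)) :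
    a 0 * b 1 - a 1 * b 0 = 0 ∨ ∃ l l', l ≠ l' ∧ ix l = ix l' ∧ (∃ c : ℂ, a = c • ![1, N.τ l]) ∧
      ∃ c : ℂ, b = c • ![1, N.τ l'] := by
  by_cases hab : a 0 * b 1 - a 1 * b 0 = 0
  · exact Or.inl hab
  right
  have h1 : ∀ j j', cf (N.KK j j') (N.KK' j j') (vv (ee a b)) = 0 := by
    intro j j'
    have h2 := psi_eq (N.KK j j') (N.KK' j j') a b
    rw [N.hev_KK, N.hev_KK, N.hev_KK', N.hev_KK', h j j', sub_self] at h2
    exact (mul_eq_zero.mp h2.symm).resolve_left hab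
  obtain ⟨i, hi⟩ := N.lemK h1
  rw [Submodule.mem_span_singleton] at hi
  obtain ⟨c, hc⟩ := hi
  have e0 := congrFun hc 0
  have e1 := congrFun hc 1
  have e2 := congrFun hc 2
  simp only [qq, qv, ee, Pi.smul_apply, smul_eq_mul, Matrix.cons_val_zero, Matrix.cons_val_one,
    Matrix.cons_val] at e0 e1 e2
  rw [mul_one] at e0
  have hc0 : c ≠ 0 := by
    rintro rfl
    rw [zero_smul] at hc
    exact ee_ne ha hb hc.symm
  rw [e0] at hc0
  have ha0 : a 0 ≠ 0 := left_ne_zero_of_mul hc0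
  have hb0 : b 0 ≠ 0 := right_ne_zero_of_mul hc0
  rw [e0] at e1 e2
  have ee3 : (a 1 - a 0 * N.τ (la i)) * (a 1 - a 0 * N.τ (lb i)) = 0 := by
    apply mul_left_cancel₀ hb0
    linear_combination (-a 1) * e1 + a 0 * e2
  have form : ∀ (v : Fin 2 → ℂ) (t : ℂ), v 1 = v 0 * t → v = v 0 • ![1, t] := by
    intro v t hv
    funext k
    fin_cases k
    · simp
    · simp [hv]
  have fa : a = a 0 • ![1, a 1 / a 0] := form a _ (by field_simp)
  rcases mul_eq_zero.mp ee3 with h | h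
  · have h5 : b 1 = b 0 * N.τ (lb i) := by
      apply mul_left_cancel₀ ha0
      linear_combination (-1 : ℂ) * e1 - b 0 * h
    exact ⟨la i, lb i, la_ne_lb i, ix_la_lb i, ⟨a 0, form a _ (by linear_combination h)⟩,
      ⟨b 0, form b _ h5⟩⟩
  · have h5 : b 1 = b 0 * N.τ (la i) := by
      apply mul_left_cancel₀ ha0
      linear_combination (-1 : ℂ) * e1 - b 0 * h
    exact ⟨lb i, la i, (la_ne_lb i).symm, (ix_la_lb i).symm,
      ⟨a 0, form a _ (by linear_combination h)⟩, ⟨b 0, form b _ h5⟩⟩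

lemma d_root (j : Fin 7) (k : Fin (mu n (e7 N.hn j))) :
    N.d j ![1, N.r (e7 N.hn j) k] = 0 := by
  rw [N.d_one, N.eval_D_r]

/-- the numerators have no common zero, even if one of them is omitted -/
lemma star_G {b : Fin 2 → ℂ} (hb : b ≠ 0) (j₀ : Fin 7) : ∃ j, j ≠ j₀ ∧ N.g j b ≠ 0 := by
  by_contra hcon
  push Not at hcon
  have h2 : 0 < mu n (e7 N.hn j₀) := by rw [mu_e7]; norm_num
  have h2' : 1 < mu n (e7 N.hn j₀) := by rw [mu_e7]; norm_num
  have key : ∀ k : Fin (mu n (e7 N.hn j₀)), b = b 0 • ![1, N.r (e7 N.hn j₀) k] := by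
    intro k
    have hz := N.d_root j₀ k
    set a : Fin 2 → ℂ := ![1, N.r (e7 N.hn j₀) k] with ha
    have hp := N.pairs (a := a) (b := b) (pair_ne_zero _) hb (by
      intro j j'
      by_cases hj : j = j₀
      · subst hj
        by_cases hj' : j' = j
        · subst hj'; ring
        · rw [hz, hcon j' hj']; ring
      · rw [hcon j hj]
        by_cases hj' : j' = j₀
        · subst hj'; rw [hz]; ring
        · rw [hcon j' hj']; ring)
    rcases hp with h | ⟨l, l', _, _, ⟨c, hc⟩, _⟩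
    · have : b 1 = b 0 * N.r (e7 N.hn j₀) k := by
        rw [ha] at h
        simp only [Matrix.cons_val_zero, Matrix.cons_val_one] at h
        linear_combination h
      funext i
      fin_cases i
      · simp [ha]
      · simp [ha, this]
    · exfalso
      rw [ha] at hc
      have e0 := congrFun hc 0
      have e1 := congrFun hc 1
      simp only [Pi.smul_apply, Matrix.cons_val_zero, Matrix.cons_val_one, smul_eq_mul,
        mul_one] at e0 e1
      rw [← e0, one_mul] at e1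
      exact N.r_ne_τ _ _ _ e1
  have k0 := key ⟨0, h2⟩
  have k1 := key ⟨1, h2'⟩
  have hb0 : b 0 ≠ 0 := by
    intro h0
    rw [h0, zero_smul] at k0
    exact hb k0
  have e1 := congrFun (k0.symm.trans k1) 1
  simp only [Pi.smul_apply, Matrix.cons_val_one, smul_eq_mul] at e1
  have e2 := mul_left_cancel₀ hb0 e1
  have e3 := N.r_inj _ _ _ _ e2
  simp at e3

lemma star_G' {b : Fin 2 → ℂ} (hb : b ≠ 0) (m₀ : Fin (n + 1)) :
    ∃ j, e7 N.hn j ≠ m₀ ∧ N.g j b ≠ 0 := by
  by_cases h : ∃ j₀, e7 N.hn j₀ = m₀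
  · obtain ⟨j₀, rfl⟩ := h
    obtain ⟨j, hj, hg⟩ := N.star_G hb j₀
    exact ⟨j, fun h => hj (e7_inj N.hn h), hg⟩
  · push Not at h
    obtain ⟨j, hj, hg⟩ := N.star_G hb 0
    exact ⟨j, h j, hg⟩

end Norm

end Pool.Agent.Y204.MC
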