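import Pool.Agent.Y204.MC.NormH0

/-!
# The triple points of a normalised curve
-/

open Polynomial Module

namespace Pool.Agent.Y204.MC

open Pool.Agent.H403R3

/-- quintic monomials -/
noncomputable def vv (e : Fin 3 → ℂ) : Fin 21 → ℂ :=
  ![e 0 ^ 5 * e 2 ^ 0 * 1,
    e 0 ^ 4 * e 2 ^ 0 * e 1,
    e 0 ^ 3 * e 2 ^ 0 * (e 1 ^ 2 - e 0 * e 2),
    e 0 ^ 2 * e 2 ^ 0 * (e 1 ^ 3 - 2 * e 0 * e 1 * e 2),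
    e 0 ^ 1 * e 2 ^ 0 * (e 1 ^ 4 - 3 * e 0 * e 1 ^ 2 * e 2 + e 0 ^ 2 * e 2 ^ 2),
    e 0 ^ 0 * e 2 ^ 0 * (e 1 ^ 5 - 4 * e 0 * e 1 ^ 3 * e 2 + 3 * e 0 ^ 2 * e 1 * e 2 ^ 2),
    e 0 ^ 4 * e 2 ^ 1 * 1,
    e 0 ^ 3 * e 2 ^ 1 * e 1,
    e 0 ^ 2 * e 2 ^ 1 * (e 1 ^ 2 - e 0 * e 2),
    e 0 ^ 1 * e 2 ^ 1 * (e 1 ^ 3 - 2 * e 0 * e 1 * e 2),
    e 0 ^ 0 * e 2 ^ 1 * (e 1 ^ 4 - 3 * e 0 * e 1 ^ 2 * e 2 + e 0 ^ 2 * e 2 ^ 2),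
    e 0 ^ 3 * e 2 ^ 2 * 1,
    e 0 ^ 2 * e 2 ^ 2 * e 1,
    e 0 ^ 1 * e 2 ^ 2 * (e 1 ^ 2 - e 0 * e 2),
    e 0 ^ 0 * e 2 ^ 2 * (e 1 ^ 3 - 2 * e 0 * e 1 * e 2),
    e 0 ^ 2 * e 2 ^ 3 * 1,
    e 0 ^ 1 * e 2 ^ 3 * e 1,
    e 0 ^ 0 * e 2 ^ 3 * (e 1 ^ 2 - e 0 * e 2),
    e 0 ^ 1 * e 2 ^ 4 * 1,
    e 0 ^ 0 * e 2 ^ 4 * e 1,
    e 0 ^ 0 * e 2 ^ 5 * 1]

/-- symmetric functions -/
noncomputable def ee (a b : Fin 2 → ℂ) : Fin 3 → ℂ := ![a 0 * b 0, a 0 * b 1 + a 1 * b 0, a 1 * b 1]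

lemma psi_eq (K K' : ℂ[X]) (a b : Fin 2 → ℂ) :
    hev 6 K a * hev 6 K' b - hev 6 K b * hev 6 K' a =
      (a 0 * b 1 - a 1 * b 0) * cf K K' (vv (ee a b)) := by
  simp only [hev, Finset.sum_range_succ, Finset.sum_range_zero, cf, vv, ee]
  simp
  ring

lemma wr_eq (K K' : ℂ[X]) (a : Fin 2 → ℂ) :
    hev 5 (der0 6 K) a * hev 5 (derivative K') a - hev 5 (derivative K) a * hev 5 (der0 6 K') a =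
      6 * cf K K' (vv (ee a a)) := by
  have h0 : ∀ φ : ℂ[X], (der0 6 φ).coeff 0 = 6 * φ.coeff 0 := by
    intro φ; simp [der0]
  have h1 : ∀ φ : ℂ[X], ∀ k, (der0 6 φ).coeff (k + 1) = (6 - (k + 1)) * φ.coeff (k + 1) := by
    intro φ k
    simp only [der0, coeff_sub, coeff_C_mul, coeff_X_mul, coeff_derivative]
    push_cast
    ring
  simp only [hev, Finset.sum_range_succ, Finset.sum_range_zero, cf, vv, ee, h0, h1,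
    coeff_derivative, zero_add, Nat.reduceAdd]
  simp
  ring

lemma cf_lin (K K' : ℂ[X]) {ι : Type*} [Fintype ι] (α : ι → ℂ) (x : ι → Fin 21 → ℂ) :
    cf K K' (∑ j, α j • x j) = ∑ j, α j * cf K K' (x j) := by
  simp only [cf, Finset.sum_apply, Pi.smul_apply, smul_eq_mul, Finset.mul_sum,
    ← Finset.sum_add_distrib]
  refine Finset.sum_congr rfl fun j _ => ?_
  ring

end Pool.Agent.Y204.MC
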