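import Pool.Agent.Y204.MC.NormKa

/-!
# Independence of the pairs of branches
-/

open Polynomial Module

namespace Pool.Agent.Y204.MC

open Pool.Agent.H403R3

section

variable {ι : Type*} [Fintype ι]

/-- the functional given by weighted points -/
noncomputable def SS (α : ι → ℂ) (x : ι → Fin 3 → ℂ) (φ : (Fin 3 → ℂ) → ℂ) : ℂ :=
  ∑ j, α j * φ (x j)

lemma SS_lin (α : ι → ℂ) (x : ι → Fin 3 → ℂ) (φ ψ χ : (Fin 3 → ℂ) → ℂ) (a b c : ℂ) :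
    SS α x (fun e => a * φ e + b * ψ e + c * χ e) = a * SS α x φ + b * SS α x ψ +
      c * SS α x χ := by
  unfold SS
  rw [Finset.mul_sum, Finset.mul_sum, Finset.mul_sum, ← Finset.sum_add_distrib,
    ← Finset.sum_add_distrib]
  exact Finset.sum_congr rfl fun j _ => by ring

/-- all quintic monomials are annihilated -/
lemma mono_zero (α : ι → ℂ) (x : ι → Fin 3 → ℂ) (h0 : ∑ j, α j • vv (x j) = 0) (a b c : ℕ)
    (habc : a + b + c = 5) : SS α x (fun e => e 0 ^ a * e 1 ^ b * e 2 ^ c) = 0 := by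
  have h : ∀ s : Fin 21, SS α x (fun e => vv e s) = 0 := by
    intro s
    have := congrFun h0 s
    simpa [SS, Finset.sum_apply] using this
  have m005 : SS α x (fun e => e 0 ^ 0 * e 1 ^ 0 * e 2 ^ 5) = 0 := by
    have he : (fun e : Fin 3 → ℂ => e 0 ^ 0 * e 1 ^ 0 * e 2 ^ 5) = fun e => vv e 20 := by
      funext e; simp [vv] <;> ring
    rw [he]; exact h 20
  have m104 : SS α x (fun e => e 0 ^ 1 * e 1 ^ 0 * e 2 ^ 4) = 0 := by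
    have he : (fun e : Fin 3 → ℂ => e 0 ^ 1 * e 1 ^ 0 * e 2 ^ 4) = fun e => vv e 18 := by
      funext e; simp [vv] <;> ring
    rw [he]; exact h 18
  have m203 : SS α x (fun e => e 0 ^ 2 * e 1 ^ 0 * e 2 ^ 3) = 0 := by
    have he : (fun e : Fin 3 → ℂ => e 0 ^ 2 * e 1 ^ 0 * e 2 ^ 3) = fun e => vv e 15 := by
      funext e; simp [vv] <;> ring
    rw [he]; exact h 15
  have m302 : SS α x (fun e => e 0 ^ 3 * e 1 ^ 0 * e 2 ^ 2) = 0 := by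
    have he : (fun e : Fin 3 → ℂ => e 0 ^ 3 * e 1 ^ 0 * e 2 ^ 2) = fun e => vv e 11 := by
      funext e; simp [vv] <;> ring
    rw [he]; exact h 11
  have m401 : SS α x (fun e => e 0 ^ 4 * e 1 ^ 0 * e 2 ^ 1) = 0 := by
    have he : (fun e : Fin 3 → ℂ => e 0 ^ 4 * e 1 ^ 0 * e 2 ^ 1) = fun e => vv e 6 := by
      funext e; simp [vv] <;> ring
    rw [he]; exact h 6
  have m500 : SS α x (fun e => e 0 ^ 5 * e 1 ^ 0 * e 2 ^ 0) = 0 := by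
    have he : (fun e : Fin 3 → ℂ => e 0 ^ 5 * e 1 ^ 0 * e 2 ^ 0) = fun e => vv e 0 := by
      funext e; simp [vv] <;> ring
    rw [he]; exact h 0
  have m014 : SS α x (fun e => e 0 ^ 0 * e 1 ^ 1 * e 2 ^ 4) = 0 := by
    have he : (fun e : Fin 3 → ℂ => e 0 ^ 0 * e 1 ^ 1 * e 2 ^ 4) = fun e => vv e 19 := by
      funext e; simp [vv] <;> ring
    rw [he]; exact h 19
  have m113 : SS α x (fun e => e 0 ^ 1 * e 1 ^ 1 * e 2 ^ 3) = 0 := by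
    have he : (fun e : Fin 3 → ℂ => e 0 ^ 1 * e 1 ^ 1 * e 2 ^ 3) = fun e => vv e 16 := by
      funext e; simp [vv] <;> ring
    rw [he]; exact h 16
  have m212 : SS α x (fun e => e 0 ^ 2 * e 1 ^ 1 * e 2 ^ 2) = 0 := by
    have he : (fun e : Fin 3 → ℂ => e 0 ^ 2 * e 1 ^ 1 * e 2 ^ 2) = fun e => vv e 12 := by
      funext e; simp [vv] <;> ring
    rw [he]; exact h 12
  have m311 : SS α x (fun e => e 0 ^ 3 * e 1 ^ 1 * e 2 ^ 1) = 0 := by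
    have he : (fun e : Fin 3 → ℂ => e 0 ^ 3 * e 1 ^ 1 * e 2 ^ 1) = fun e => vv e 7 := by
      funext e; simp [vv] <;> ring
    rw [he]; exact h 7
  have m410 : SS α x (fun e => e 0 ^ 4 * e 1 ^ 1 * e 2 ^ 0) = 0 := by
    have he : (fun e : Fin 3 → ℂ => e 0 ^ 4 * e 1 ^ 1 * e 2 ^ 0) = fun e => vv e 1 := by
      funext e; simp [vv] <;> ring
    rw [he]; exact h 1
  have m023 : SS α x (fun e => e 0 ^ 0 * e 1 ^ 2 * e 2 ^ 3) = 0 := by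
    have hl := SS_lin α x (fun e => vv e 17) (fun e => e 0 ^ 1 * e 1 ^ 0 * e 2 ^ 4)
      (fun e => e 0 ^ 1 * e 1 ^ 0 * e 2 ^ 4) 1 1 0
    rw [h 17, m104] at hl
    have he : (fun e : Fin 3 → ℂ => e 0 ^ 0 * e 1 ^ 2 * e 2 ^ 3) =
        fun e => 1 * vv e 17 + 1 * (e 0 ^ 1 * e 1 ^ 0 * e 2 ^ 4) + 0 * (e 0 ^ 1 * e 1 ^ 0 * e 2 ^ 4) := by
      funext e; simp [vv] <;> ring
    rw [he, hl]; ring
  have m122 : SS α x (fun e => e 0 ^ 1 * e 1 ^ 2 * e 2 ^ 2) = 0 := by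
    have hl := SS_lin α x (fun e => vv e 13) (fun e => e 0 ^ 2 * e 1 ^ 0 * e 2 ^ 3)
      (fun e => e 0 ^ 2 * e 1 ^ 0 * e 2 ^ 3) 1 1 0
    rw [h 13, m203] at hl
    have he : (fun e : Fin 3 → ℂ => e 0 ^ 1 * e 1 ^ 2 * e 2 ^ 2) =
        fun e => 1 * vv e 13 + 1 * (e 0 ^ 2 * e 1 ^ 0 * e 2 ^ 3) + 0 * (e 0 ^ 2 * e 1 ^ 0 * e 2 ^ 3) := by
      funext e; simp [vv] <;> ring
    rw [he, hl]; ring
  have m221 : SS α x (fun e => e 0 ^ 2 * e 1 ^ 2 * e 2 ^ 1) = 0 := by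
    have hl := SS_lin α x (fun e => vv e 8) (fun e => e 0 ^ 3 * e 1 ^ 0 * e 2 ^ 2)
      (fun e => e 0 ^ 3 * e 1 ^ 0 * e 2 ^ 2) 1 1 0
    rw [h 8, m302] at hl
    have he : (fun e : Fin 3 → ℂ => e 0 ^ 2 * e 1 ^ 2 * e 2 ^ 1) =
        fun e => 1 * vv e 8 + 1 * (e 0 ^ 3 * e 1 ^ 0 * e 2 ^ 2) + 0 * (e 0 ^ 3 * e 1 ^ 0 * e 2 ^ 2) := by
      funext e; simp [vv] <;> ring
    rw [he, hl]; ring
  have m320 : SS α x (fun e => e 0 ^ 3 * e 1 ^ 2 * e 2 ^ 0) = 0 := by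
    have hl := SS_lin α x (fun e => vv e 2) (fun e => e 0 ^ 4 * e 1 ^ 0 * e 2 ^ 1)
      (fun e => e 0 ^ 4 * e 1 ^ 0 * e 2 ^ 1) 1 1 0
    rw [h 2, m401] at hl
    have he : (fun e : Fin 3 → ℂ => e 0 ^ 3 * e 1 ^ 2 * e 2 ^ 0) =
        fun e => 1 * vv e 2 + 1 * (e 0 ^ 4 * e 1 ^ 0 * e 2 ^ 1) + 0 * (e 0 ^ 4 * e 1 ^ 0 * e 2 ^ 1) := by
      funext e; simp [vv] <;> ring
    rw [he, hl]; ring
  have m032 : SS α x (fun e => e 0 ^ 0 * e 1 ^ 3 * e 2 ^ 2) = 0 := by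
    have hl := SS_lin α x (fun e => vv e 14) (fun e => e 0 ^ 1 * e 1 ^ 1 * e 2 ^ 3)
      (fun e => e 0 ^ 1 * e 1 ^ 1 * e 2 ^ 3) 1 2 0
    rw [h 14, m113] at hl
    have he : (fun e : Fin 3 → ℂ => e 0 ^ 0 * e 1 ^ 3 * e 2 ^ 2) =
        fun e => 1 * vv e 14 + 2 * (e 0 ^ 1 * e 1 ^ 1 * e 2 ^ 3) + 0 * (e 0 ^ 1 * e 1 ^ 1 * e 2 ^ 3) := by
      funext e; simp [vv] <;> ring
    rw [he, hl]; ring
  have m131 : SS α x (fun e => e 0 ^ 1 * e 1 ^ 3 * e 2 ^ 1) = 0 := by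
    have hl := SS_lin α x (fun e => vv e 9) (fun e => e 0 ^ 2 * e 1 ^ 1 * e 2 ^ 2)
      (fun e => e 0 ^ 2 * e 1 ^ 1 * e 2 ^ 2) 1 2 0
    rw [h 9, m212] at hl
    have he : (fun e : Fin 3 → ℂ => e 0 ^ 1 * e 1 ^ 3 * e 2 ^ 1) =
        fun e => 1 * vv e 9 + 2 * (e 0 ^ 2 * e 1 ^ 1 * e 2 ^ 2) + 0 * (e 0 ^ 2 * e 1 ^ 1 * e 2 ^ 2) := by
      funext e; simp [vv] <;> ring
    rw [he, hl]; ring
  have m230 : SS α x (fun e => e 0 ^ 2 * e 1 ^ 3 * e 2 ^ 0) = 0 := by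
    have hl := SS_lin α x (fun e => vv e 3) (fun e => e 0 ^ 3 * e 1 ^ 1 * e 2 ^ 1)
      (fun e => e 0 ^ 3 * e 1 ^ 1 * e 2 ^ 1) 1 2 0
    rw [h 3, m311] at hl
    have he : (fun e : Fin 3 → ℂ => e 0 ^ 2 * e 1 ^ 3 * e 2 ^ 0) =
        fun e => 1 * vv e 3 + 2 * (e 0 ^ 3 * e 1 ^ 1 * e 2 ^ 1) + 0 * (e 0 ^ 3 * e 1 ^ 1 * e 2 ^ 1) := by
      funext e; simp [vv] <;> ring
    rw [he, hl]; ring
  have m041 : SS α x (fun e => e 0 ^ 0 * e 1 ^ 4 * e 2 ^ 1) = 0 := by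
    have hl := SS_lin α x (fun e => vv e 10) (fun e => e 0 ^ 1 * e 1 ^ 2 * e 2 ^ 2)
      (fun e => e 0 ^ 2 * e 1 ^ 0 * e 2 ^ 3) 1 3 (-1)
    rw [h 10, m122, m203] at hl
    have he : (fun e : Fin 3 → ℂ => e 0 ^ 0 * e 1 ^ 4 * e 2 ^ 1) =
        fun e => 1 * vv e 10 + 3 * (e 0 ^ 1 * e 1 ^ 2 * e 2 ^ 2) + (-1) * (e 0 ^ 2 * e 1 ^ 0 * e 2 ^ 3) := by
      funext e; simp [vv] <;> ring
    rw [he, hl]; ring
  have m140 : SS α x (fun e => e 0 ^ 1 * e 1 ^ 4 * e 2 ^ 0) = 0 := by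
    have hl := SS_lin α x (fun e => vv e 4) (fun e => e 0 ^ 2 * e 1 ^ 2 * e 2 ^ 1)
      (fun e => e 0 ^ 3 * e 1 ^ 0 * e 2 ^ 2) 1 3 (-1)
    rw [h 4, m221, m302] at hl
    have he : (fun e : Fin 3 → ℂ => e 0 ^ 1 * e 1 ^ 4 * e 2 ^ 0) =
        fun e => 1 * vv e 4 + 3 * (e 0 ^ 2 * e 1 ^ 2 * e 2 ^ 1) + (-1) * (e 0 ^ 3 * e 1 ^ 0 * e 2 ^ 2) := by
      funext e; simp [vv] <;> ring
    rw [he, hl]; ring
  have m050 : SS α x (fun e => e 0 ^ 0 * e 1 ^ 5 * e 2 ^ 0) = 0 := by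
    have hl := SS_lin α x (fun e => vv e 5) (fun e => e 0 ^ 1 * e 1 ^ 3 * e 2 ^ 1)
      (fun e => e 0 ^ 2 * e 1 ^ 1 * e 2 ^ 2) 1 4 (-3)
    rw [h 5, m131, m212] at hl
    have he : (fun e : Fin 3 → ℂ => e 0 ^ 0 * e 1 ^ 5 * e 2 ^ 0) =
        fun e => 1 * vv e 5 + 4 * (e 0 ^ 1 * e 1 ^ 3 * e 2 ^ 1) + (-3) * (e 0 ^ 2 * e 1 ^ 1 * e 2 ^ 2) := by
      funext e; simp [vv] <;> ring
    rw [he, hl]; ring
  have ha : a ≤ 5 := by omega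
  have hb : b ≤ 5 := by omega
  obtain rfl : c = 5 - a - b := by omega
  interval_cases b <;> interval_cases a <;> first | omega | assumption

/-- linear forms -/
noncomputable def lf (l e : Fin 3 → ℂ) : ℂ := l 0 * e 0 + l 1 * e 1 + l 2 * e 2

lemma form_step (α : ι → ℂ) (x : ι → Fin 3 → ℂ) (F : (Fin 3 → ℂ) → ℂ) (d : ℕ)
    (h : ∀ a b c : ℕ, a + b + c = d + 1 →
      SS α x (fun e => F e * (e 0 ^ a * e 1 ^ b * e 2 ^ c)) = 0) (l : Fin 3 → ℂ) (a b c : ℕ)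
    (habc : a + b + c = d) :
    SS α x (fun e => F e * lf l e * (e 0 ^ a * e 1 ^ b * e 2 ^ c)) = 0 := by
  have hl := SS_lin α x (fun e => F e * (e 0 ^ (a + 1) * e 1 ^ b * e 2 ^ c))
    (fun e => F e * (e 0 ^ a * e 1 ^ (b + 1) * e 2 ^ c))
    (fun e => F e * (e 0 ^ a * e 1 ^ b * e 2 ^ (c + 1))) (l 0) (l 1) (l 2)
  rw [h _ _ _ (by omega), h _ _ _ (by omega), h _ _ _ (by omega)] at hl
  have he : (fun e : Fin 3 → ℂ => F e * lf l e * (e 0 ^ a * e 1 ^ b * e 2 ^ c)) =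
      fun e => l 0 * (F e * (e 0 ^ (a + 1) * e 1 ^ b * e 2 ^ c)) +
        l 1 * (F e * (e 0 ^ a * e 1 ^ (b + 1) * e 2 ^ c)) +
        l 2 * (F e * (e 0 ^ a * e 1 ^ b * e 2 ^ (c + 1))) := by
    funext e; simp only [lf]; ring
  rw [he, hl]; ring

/-- products of five linear forms are annihilated -/
lemma five_forms (α : ι → ℂ) (x : ι → Fin 3 → ℂ) (h0 : ∑ j, α j • vv (x j) = 0)
    (l1 l2 l3 l4 l5 : Fin 3 → ℂ) :
    ∑ j, α j * (lf l1 (x j) * lf l2 (x j) * lf l3 (x j) * lf l4 (x j) * lf l5 (x j)) = 0 := by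
  have s0 : ∀ a b c : ℕ, a + b + c = 4 + 1 →
      SS α x (fun e => (1 : ℂ) * (e 0 ^ a * e 1 ^ b * e 2 ^ c)) = 0 := by
    intro a b c h
    have := mono_zero α x h0 a b c h
    simpa using this
  have s1 := form_step α x (fun _ => 1) 4 s0 l1
  have s2 := form_step α x _ 3 s1 l2
  have s3 := form_step α x _ 2 s2 l3
  have s4 := form_step α x _ 1 s3 l4
  have s5 := form_step α x _ 0 s4 l5 0 0 0 rfl
  simpa [SS] using s5

end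

/-! ### The nine pairs of branches and one more point -/

/-- the form of the pairs containing `t` -/
noncomputable def Lt (t : ℂ) : Fin 3 → ℂ := ![t ^ 2, -t, 1]

/-- the pairs of branches -/
noncomputable def qv (τ : Fin 9 → ℂ) (i : Fin 9) : Fin 3 → ℂ :=
  ![1, τ (la i) + τ (lb i), τ (la i) * τ (lb i)]

lemma lf_Lt (t : ℂ) (e : Fin 3 → ℂ) : lf (Lt t) e = t ^ 2 * e 0 - t * e 1 + e 2 := by
  simp only [lf, Lt]
  simp
  ring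

lemma lf_Lt_qv (τ : Fin 9 → ℂ) (t : ℂ) (i : Fin 9) :
    lf (Lt t) (qv τ i) = (τ (la i) - t) * (τ (lb i) - t) := by
  rw [lf_Lt]
  simp only [qv]
  simp
  ring

lemma lf_zero (τ : Fin 9 → ℂ) {s i : Fin 9} (h1 : ix s = ix i) (h2 : s ≠ i) :
    lf (Lt (τ s)) (qv τ i) = 0 := by
  have h3 : ∀ s i : Fin 9, ix s = ix i → s ≠ i → la i = s ∨ lb i = s := by decide
  rw [lf_Lt_qv]
  rcases h3 s i h1 h2 with h | h <;> rw [h] <;> ring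

lemma lf_ne {τ : Fin 9 → ℂ} (hτ : Function.Injective τ) {s i : Fin 9} (h : s = i ∨ ix s ≠ ix i) :
    lf (Lt (τ s)) (qv τ i) ≠ 0 := by
  have h3 : ∀ s i : Fin 9, (s = i ∨ ix s ≠ ix i) → la i ≠ s ∧ lb i ≠ s := by decide
  rw [lf_Lt_qv]
  obtain ⟨h4, h5⟩ := h3 s i h
  exact mul_ne_zero (sub_ne_zero.mpr fun h => h4 (hτ h)) (sub_ne_zero.mpr fun h => h5 (hτ h))

/-- the form of the line through two points -/
noncomputable def cr (u v : Fin 3 → ℂ) : Fin 3 → ℂ :=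
  ![u 1 * v 2 - u 2 * v 1, u 2 * v 0 - u 0 * v 2, u 0 * v 1 - u 1 * v 0]

lemma lf_cr (u v e : Fin 3 → ℂ) : lf (cr u v) e = (u 1 * v 2 - u 2 * v 1) * e 0 +
    (u 2 * v 0 - u 0 * v 2) * e 1 + (u 0 * v 1 - u 1 * v 0) * e 2 := by
  simp [lf, cr]

lemma lf_cr_left (u v : Fin 3 → ℂ) : lf (cr u v) u = 0 := by rw [lf_cr]; ring

lemma lf_cr_right (u v : Fin 3 → ℂ) : lf (cr u v) v = 0 := by rw [lf_cr]; ring

section

variable {τ : Fin 9 → ℂ} (hτ : Function.Injective τ) {e : Fin 3 → ℂ}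
  (he : ∀ i, e ∉ Submodule.span ℂ {qv τ i})

include hτ he in
lemma not_both {s s' : Fin 9} (h1 : ix s = ix s') (h2 : s ≠ s') (h3 : lf (Lt (τ s)) e = 0)
    (h4 : lf (Lt (τ s')) e = 0) : False := by
  have h5 : ∀ s s' : Fin 9, ix s = ix s' → s ≠ s' →
      ∃ i, (la i = s ∧ lb i = s') ∨ (la i = s' ∧ lb i = s) := by decide
  obtain ⟨i, hi⟩ := h5 s s' h1 h2
  rw [lf_Lt] at h3 h4
  have hne : τ s - τ s' ≠ 0 := sub_ne_zero.mpr fun h => h2 (hτ h)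
  have e1 : e 1 = (τ s + τ s') * e 0 := by
    apply mul_left_cancel₀ hne
    linear_combination h4 - h3
  have e2 : e 2 = τ s * τ s' * e 0 := by
    linear_combination h3 + τ s * e1
  apply he i
  rw [Submodule.mem_span_singleton]
  refine ⟨e 0, ?_⟩
  funext k
  rcases hi with ⟨a1, a2⟩ | ⟨a1, a2⟩
  · fin_cases k
    · simp [qv]
    · simp [qv, a1, a2, e1]; ring
    · simp [qv, a1, a2, e2]; ring
  · fin_cases k
    · simp [qv]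
    · simp [qv, a1, a2, e1]; ring
    · simp [qv, a1, a2, e2]; ring

include hτ he in
lemma two_of (k : Fin 3) : ∃ s s' : Fin 9, s ≠ s' ∧ ix s = k ∧ ix s' = k ∧
    lf (Lt (τ s)) e ≠ 0 ∧ lf (Lt (τ s')) e ≠ 0 := by
  have h5 : ∀ k : Fin 3, ∃ a b c : Fin 9, a ≠ b ∧ a ≠ c ∧ b ≠ c ∧ ix a = k ∧ ix b = k ∧
      ix c = k := by decide
  obtain ⟨a, b, c, hab, hac, hbc, ha, hb, hc⟩ := h5 k
  by_cases h1 : lf (Lt (τ a)) e = 0
  · exact ⟨b, c, hbc, hb, hc, fun h => not_both hτ he (ha.trans hb.symm) hab h1 h,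
      fun h => not_both hτ he (ha.trans hc.symm) hac h1 h⟩
  · by_cases h2 : lf (Lt (τ b)) e = 0
    · exact ⟨a, c, hac, ha, hc, h1, fun h => not_both hτ he (hb.trans hc.symm) hbc h2 h⟩
    · exact ⟨a, b, hab, ha, hb, h1, h2⟩

include hτ he in
lemma cr_or {i j j' : Fin 9} (hij : ix i ≠ ix j) (hjj : ix j = ix j') (hne : j ≠ j') :
    lf (cr (qv τ i) (qv τ j)) e ≠ 0 ∨ lf (cr (qv τ i) (qv τ j')) e ≠ 0 := by
  by_contra hcon
  push Not at hcon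
  obtain ⟨h1, h2⟩ := hcon
  have h5 : ∀ j j' : Fin 9, ix j = ix j' → j ≠ j' → ∃ k, k ≠ j ∧ k ≠ j' ∧ ix k = ix j ∧
      ((la j = k ∧ lb j = j') ∨ (la j = j' ∧ lb j = k)) ∧
      ((la j' = k ∧ lb j' = j) ∨ (la j' = j ∧ lb j' = k)) := by decide
  obtain ⟨k, hkj, hkj', hk, hj, hj'⟩ := h5 j j' hjj hne
  have qj : qv τ j = ![1, τ k + τ j', τ k * τ j'] := by
    rcases hj with ⟨a1, a2⟩ | ⟨a1, a2⟩
    · unfold qv; rw [a1, a2]
    · unfold qv; rw [a1, a2, add_comm, mul_comm]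
  have qj' : qv τ j' = ![1, τ k + τ j, τ k * τ j] := by
    rcases hj' with ⟨a1, a2⟩ | ⟨a1, a2⟩
    · unfold qv; rw [a1, a2]
    · unfold qv; rw [a1, a2, add_comm, mul_comm]
  have hL : lf (Lt (τ k)) (qv τ i) ≠ 0 := lf_ne hτ (Or.inr fun h => hij (h.symm.trans hk))
  have hd : τ j - τ j' ≠ 0 := sub_ne_zero.mpr fun h => hne (hτ h)
  rw [lf_cr] at h1 h2
  rw [lf_Lt] at hL
  rw [qj] at h1
  rw [qj'] at h2
  set A := qv τ i with hA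
  have hA0 : A 0 = 1 := by rw [hA]; simp [qv]
  simp only [Matrix.cons_val_zero, Matrix.cons_val_one, Matrix.cons_val] at h1 h2
  rw [hA0] at h1 h2 hL
  have hdet : (τ j - τ j') * (τ k ^ 2 * 1 - τ k * A 1 + A 2) ≠ 0 := mul_ne_zero hd hL
  apply he i
  rw [Submodule.mem_span_singleton]
  refine ⟨e 0, ?_⟩
  funext m
  apply mul_left_cancel₀ hdet
  fin_cases m
  · simp [← hA, hA0]
  · simp only [Fin.mk_one, Pi.smul_apply, smul_eq_mul, ← hA]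
    linear_combination (A 1 - (τ k + τ j)) * h1 - (A 1 - (τ k + τ j')) * h2
  · simp only [Fin.reduceFinMk, Pi.smul_apply, smul_eq_mul, ← hA]
    linear_combination (A 2 - (τ k * τ j)) * h1 - (A 2 - (τ k * τ j')) * h2

end

end Pool.Agent.Y204.MC
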