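import Pool.Agent.Y204.MC.NormKb

/-!
# Independence of the pairs of branches: the theorem
-/

open Polynomial Module

namespace Pool.Agent.Y204.MC

open Pool.Agent.H403R3

/-- the points -/
noncomputable def xo (τ : Fin 9 → ℂ) (e : Fin 3 → ℂ) : Option (Fin 9) → Fin 3 → ℂ
  | none => e
  | some i => qv τ i

/-- a form which vanishes at the nine points but not at `e` -/
lemma exists_quintic {τ : Fin 9 → ℂ} (hτ : Function.Injective τ) {e : Fin 3 → ℂ}
    (he : ∀ i, e ∉ Submodule.span ℂ {qv τ i}) : ∃ l1 l2 l3 l4 l5 : Fin 3 → ℂ,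
      lf l1 e * lf l2 e * lf l3 e * lf l4 e * lf l5 e ≠ 0 ∧
      ∀ i, lf l1 (qv τ i) * lf l2 (qv τ i) * lf l3 (qv τ i) * lf l4 (qv τ i) *
        lf l5 (qv τ i) = 0 := by
  obtain ⟨i, -, -, hi, -, hi0, -⟩ := two_of hτ he 0
  obtain ⟨j, j', hjj, hj, hj', hj0, hj0'⟩ := two_of hτ he 1
  obtain ⟨s, s', hss, hs, hs', hs0, hs0'⟩ := two_of hτ he 2
  have h3 : ∀ m : Fin 9, ix m = 0 ∨ ix m = 1 ∨ ix m = 2 := by decide
  have key : ∀ u : Fin 9, ix u = 1 → lf (Lt (τ u)) e ≠ 0 →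
      lf (cr (qv τ i) (qv τ u)) e ≠ 0 → ∃ l1 l2 l3 l4 l5 : Fin 3 → ℂ,
      lf l1 e * lf l2 e * lf l3 e * lf l4 e * lf l5 e ≠ 0 ∧
      ∀ i, lf l1 (qv τ i) * lf l2 (qv τ i) * lf l3 (qv τ i) * lf l4 (qv τ i) *
        lf l5 (qv τ i) = 0 := by
    intro u hu hu0 hM
    refine ⟨Lt (τ i), Lt (τ u), cr (qv τ i) (qv τ u), Lt (τ s), Lt (τ s'),
      mul_ne_zero (mul_ne_zero (mul_ne_zero (mul_ne_zero hi0 hu0) hM) hs0) hs0', fun m => ?_⟩
    rcases h3 m with hm | hm | hm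
    · by_cases h : i = m
      · subst h; rw [lf_cr_left]; ring
      · rw [lf_zero τ (hi.trans hm.symm) h]; ring
    · by_cases h : u = m
      · subst h; rw [lf_cr_right]; ring
      · rw [lf_zero τ (hu.trans hm.symm) h]; ring
    · by_cases h : s = m
      · rw [lf_zero τ (s := s') (hs'.trans hm.symm) (fun h' => hss (h.trans h'.symm))]; ring
      · rw [lf_zero τ (hs.trans hm.symm) h]; ring
  rcases cr_or hτ he (i := i) (j := j) (j' := j') (by rw [hi, hj]; decide) (hj.trans hj'.symm)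
    hjj with h | h
  · exact key j hj hj0 h
  · exact key j' hj' hj0' h

/-- ten points of the plane impose independent conditions on quintics -/
lemma ten_points {τ : Fin 9 → ℂ} (hτ : Function.Injective τ) {e : Fin 3 → ℂ}
    (he : ∀ i, e ∉ Submodule.span ℂ {qv τ i}) (α : Option (Fin 9) → ℂ)
    (h : ∑ o, α o • vv (xo τ e o) = 0) : α = 0 := by
  have h5 := five_forms α (xo τ e) h
  have hnone : α none = 0 := by
    obtain ⟨l1, l2, l3, l4, l5, hne, hz⟩ := exists_quintic hτ he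
    have := h5 l1 l2 l3 l4 l5
    rw [Fintype.sum_option] at this
    simp only [xo] at this
    rw [Finset.sum_eq_zero fun i _ => by rw [hz i, mul_zero], add_zero] at this
    exact (mul_eq_zero.mp this).resolve_right hne
  have hfour : ∀ i : Fin 9, ∃ a b c d : Fin 9, (ix a ≠ ix i ∧ ix b ≠ ix i ∧ ix c ≠ ix i ∧
      ix d ≠ ix i) ∧ ∀ m, m ≠ i → (ix i = ix m ∧ i ≠ m) ∨ (ix a = ix m ∧ a ≠ m) ∨
        (ix b = ix m ∧ b ≠ m) ∨ (ix c = ix m ∧ c ≠ m) ∨ (ix d = ix m ∧ d ≠ m) := by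
    intro i
    have h3 : ∀ i : Fin 9, ix i = 0 ∨ ix i = 1 ∨ ix i = 2 := by decide
    rcases h3 i with hi | hi | hi
    · refine ⟨3, 4, 6, 7, ?_⟩
      revert i; decide
    · refine ⟨0, 1, 6, 7, ?_⟩
      revert i; decide
    · refine ⟨0, 1, 3, 4, ?_⟩
      revert i; decide
  funext o
  rcases o with _ | i
  · exact hnone
  · obtain ⟨a, b, c, d, ⟨ha, hb, hc, hd⟩, hm⟩ := hfour i
    have := h5 (Lt (τ i)) (Lt (τ a)) (Lt (τ b)) (Lt (τ c)) (Lt (τ d))
    rw [Fintype.sum_option, hnone, zero_mul, zero_add] at this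
    simp only [xo] at this
    rw [Finset.sum_eq_single i] at this
    · exact (mul_eq_zero.mp this).resolve_right (mul_ne_zero (mul_ne_zero (mul_ne_zero
        (mul_ne_zero (lf_ne hτ (Or.inl rfl)) (lf_ne hτ (Or.inr ha))) (lf_ne hτ (Or.inr hb)))
        (lf_ne hτ (Or.inr hc))) (lf_ne hτ (Or.inr hd)))
    · intro m _ hmi
      rcases hm m hmi with ⟨h1, h2⟩ | ⟨h1, h2⟩ | ⟨h1, h2⟩ | ⟨h1, h2⟩ | ⟨h1, h2⟩ <;>
        rw [lf_zero τ h1 h2] <;> ring
    · intro h; exact absurd (Finset.mem_univ i) h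

lemma exists_dep (x : Option (Fin 9) → Fin 21 → ℂ) : ∃ α : Option (Fin 9) → ℂ, α ≠ 0 ∧
    ∀ i : Fin 21, (i : ℕ) < 9 → (∑ j, α j • x j) i = 0 := by
  let T : (Option (Fin 9) → ℂ) →ₗ[ℂ] (Fin 9 → ℂ) :=
    { toFun := fun α i => (∑ j, α j • x j) (Fin.castLE (by norm_num) i)
      map_add' := fun u v => by
        funext i
        simp [Finset.sum_add_distrib, add_smul]
      map_smul' := fun c v => by
        funext i
        simp [mul_assoc, Finset.mul_sum, mul_add] }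
  have hT : ∃ α ∈ LinearMap.ker T, α ≠ 0 := by
    apply Submodule.exists_mem_ne_zero_of_ne_bot
    intro hbot
    have h1 := T.finrank_range_add_finrank_ker
    rw [hbot, finrank_bot, finrank_pi, Fintype.card_option, Fintype.card_fin] at h1
    have h2 := Submodule.finrank_le (LinearMap.range T)
    rw [finrank_pi, Fintype.card_fin] at h2
    omega
  obtain ⟨α, hα, hne⟩ := hT
  have h : T α = 0 := hα
  refine ⟨α, hne, fun i hi => ?_⟩
  exact congrFun h ⟨i, hi⟩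

end Pool.Agent.Y204.MC
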