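import Pool.Agent.Y204.MC.Norm

/-!
# Infinitely many pairs of quartics
-/

open Polynomial Module Filter Topology

namespace Pool.Agent.Y204.MC

open Pool.Agent.H403R3

/-- the polynomial with the coefficients `g` -/
noncomputable def gP (g : Fin 5 → ℂ) : ℂ[X] := ∑ k, C (g k) * X ^ (k : ℕ)

/-- the polynomial with the roots `ρ` -/
noncomputable def dP (ρ : Fin 4 → ℂ) : ℂ[X] := ∏ k, (X - C (ρ k))

lemma gP_eval (g : Fin 5 → ℂ) (x : ℂ) : (gP g).eval x = ∑ k, g k * x ^ (k : ℕ) := by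
  simp [gP, eval_finsetSum]

lemma dP_eval (ρ : Fin 4 → ℂ) (x : ℂ) : (dP ρ).eval x = ∏ k, (x - ρ k) := by
  simp [dP, eval_prod]

lemma gP_natDegree (g : Fin 5 → ℂ) : (gP g).natDegree ≤ 4 := by
  unfold gP
  refine natDegree_sum_le_of_forall_le _ _ fun k _ => ?_
  exact (natDegree_C_mul_X_pow_le _ _).trans (by omega)

lemma gP_coeff (g : Fin 5 → ℂ) (k : Fin 5) : (gP g).coeff k = g k := by
  unfold gP
  rw [finsetSum_coeff, Finset.sum_eq_single k]
  · simp
  · intro b _ hb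
    rw [coeff_C_mul, coeff_X_pow, if_neg (fun h => hb (Fin.ext h.symm)), mul_zero]
  · intro h; exact absurd (Finset.mem_univ k) h

lemma gP_eq_zero {g : Fin 5 → ℂ} (h : gP g = 0) : g = 0 := by
  funext k
  rw [← gP_coeff g k, h, coeff_zero]; rfl

lemma dP_monic (ρ : Fin 4 → ℂ) : (dP ρ).Monic := monic_prod_of_monic _ _ fun _ _ => monic_X_sub_C _

lemma dP_natDegree (ρ : Fin 4 → ℂ) : (dP ρ).natDegree = 4 := by
  unfold dP
  rw [natDegree_prod_of_monic _ _ fun k _ => monic_X_sub_C _]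
  simp

/-- the contact conditions -/
def Cont (τ lam : Fin 9 → ℂ) (g : Fin 5 → ℂ) (ρ : Fin 4 → ℂ) (P : Fin 3 → ℂ) : Prop :=
  ∀ l, (gP g).eval (τ l) = lam l * P (ix l) * (dP ρ).eval (τ l)

/-- the open conditions -/
def Opn (τ : Fin 9 → ℂ) (z : (Fin 5 → ℂ) × (Fin 4 → ℂ)) : Prop :=
  (∀ k k', k ≠ k' → z.2 k - z.2 k' ≠ 0) ∧ (∀ k l, z.2 k - τ l ≠ 0) ∧
    ∀ k, ∑ j, z.1 j * z.2 k ^ (j : ℕ) ≠ 0

section Matrix

variable {R S : Type*} [CommRing R] [CommRing S]

/-- the matrix of the linear conditions -/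
def NM (τ lam : Fin 9 → R) (P : Fin 3 → R) (x : R) : Matrix (Fin 10) (Fin 10) R :=
  Matrix.of fun i j =>
    if h : (i : ℕ) < 9 then
      (if (j : ℕ) < 5 then τ ⟨i, h⟩ ^ (j : ℕ)
        else -(lam ⟨i, h⟩ * P (ix ⟨i, h⟩)) * τ ⟨i, h⟩ ^ ((j : ℕ) - 5))
    else (if (j : ℕ) < 5 then 0 else x ^ ((j : ℕ) - 5))

lemma map_NM (φ : R →+* S) (τ lam : Fin 9 → R) (P : Fin 3 → R) (x : R) :
    NM (fun l => φ (τ l)) (fun l => φ (lam l)) (fun k => φ (P k)) (φ x) =
      φ.mapMatrix (NM τ lam P x) := by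
  ext i j
  simp only [NM, Matrix.of_apply, RingHom.mapMatrix_apply, Matrix.map_apply]
  split <;> split <;> simp

end Matrix

lemma NM_mulVec_lt (τ lam : Fin 9 → ℂ) (P : Fin 3 → ℂ) (x : ℂ) (a b : Fin 5 → ℂ) (l : Fin 9) :
    ((NM τ lam P x).mulVec fun j : Fin 10 =>
      if h : (j : ℕ) < 5 then a ⟨j, h⟩ else b ⟨j - 5, by omega⟩) ⟨l, by omega⟩ =
      (gP a).eval (τ l) - lam l * P (ix l) * (gP b).eval (τ l) := by
  have h5 : ∀ F : Fin 10 → ℂ, ∑ c, F c =
      ∑ c : Fin 5, F ⟨c, by omega⟩ + ∑ c : Fin 5, F ⟨c + 5, by omega⟩ := by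
    intro F
    simp only [Fin.sum_univ_succ, Fin.sum_univ_zero]
    simp
    ring
  rw [Matrix.mulVec, dotProduct, h5, gP_eval, gP_eval, Finset.mul_sum, sub_eq_add_neg,
    ← Finset.sum_neg_distrib]
  congr 1
  · refine Finset.sum_congr rfl fun c _ => ?_
    simp only [NM, Matrix.of_apply, l.2, dif_pos, c.2, if_true]
    ring
  · refine Finset.sum_congr rfl fun c _ => ?_
    have h1 : ¬ ((c : ℕ) + 5 < 5) := by omega
    simp only [NM, Matrix.of_apply, l.2, dif_pos, h1, if_false, dif_neg, not_false_iff,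
      Nat.add_sub_cancel]
    ring

lemma NM_mulVec_last (τ lam : Fin 9 → ℂ) (P : Fin 3 → ℂ) (x : ℂ) (a b : Fin 5 → ℂ) :
    ((NM τ lam P x).mulVec fun j : Fin 10 =>
      if h : (j : ℕ) < 5 then a ⟨j, h⟩ else b ⟨j - 5, by omega⟩) 9 = (gP b).eval x := by
  have h5 : ∀ F : Fin 10 → ℂ, ∑ c, F c =
      ∑ c : Fin 5, F ⟨c, by omega⟩ + ∑ c : Fin 5, F ⟨c + 5, by omega⟩ := by
    intro F
    simp only [Fin.sum_univ_succ, Fin.sum_univ_zero]
    simp
    ring
  have h9 : ¬ (((9 : Fin 10) : ℕ) < 9) := by decide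
  rw [Matrix.mulVec, dotProduct, h5, gP_eval]
  rw [Finset.sum_eq_zero, zero_add]
  · refine Finset.sum_congr rfl fun c _ => ?_
    have h1 : ¬ ((c : ℕ) + 5 < 5) := by omega
    simp only [NM, Matrix.of_apply, h9, dif_neg, not_false_iff, h1, if_false,
      Nat.add_sub_cancel]
    ring
  · intro c _
    simp only [NM, Matrix.of_apply, h9, dif_neg, not_false_iff, c.2, if_true, zero_mul]

/-- two pairs of quartics for the same points -/
lemma cross_zero {τ lam : Fin 9 → ℂ} (hτ : Function.Injective τ) {g : Fin 5 → ℂ} {ρ : Fin 4 → ℂ}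
    {P : Fin 3 → ℂ} (h : Cont τ lam g ρ P) {a b : Fin 5 → ℂ}
    (hab : ∀ l, (gP a).eval (τ l) - lam l * P (ix l) * (gP b).eval (τ l) = 0) :
    gP a * dP ρ = gP g * gP b := by
  rw [← sub_eq_zero]
  refine eq_zero_of_nodes hτ ?_ fun l => ?_
  · refine (natDegree_sub_le _ _).trans (max_le ?_ ?_)
    · exact (natDegree_mul_le_of_le (gP_natDegree a) (dP_natDegree ρ).le)
    · exact (natDegree_mul_le_of_le (gP_natDegree g) (gP_natDegree b))
  · rw [eval_sub, eval_mul, eval_mul, h l]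
    linear_combination (dP ρ).eval (τ l) * hab l

lemma NM_det_ne {τ lam : Fin 9 → ℂ} (hτ : Function.Injective τ) {g : Fin 5 → ℂ} {ρ : Fin 4 → ℂ}
    {P : Fin 3 → ℂ} (h : Cont τ lam g ρ P) (ho : Opn τ (g, ρ)) {x : ℂ} (hx : ∀ k, ρ k ≠ x) :
    (NM τ lam P x).det ≠ 0 := by
  intro hdet
  obtain ⟨v, hv, hv0⟩ := Matrix.exists_mulVec_eq_zero_iff.mpr hdet
  set a : Fin 5 → ℂ := fun j => v ⟨j, by omega⟩ with ha
  set b : Fin 5 → ℂ := fun j => v ⟨j + 5, by omega⟩ with hb
  have hvab : v = fun j : Fin 10 =>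
      if h : (j : ℕ) < 5 then a ⟨j, h⟩ else b ⟨j - 5, by omega⟩ := by
    funext j
    by_cases hj : (j : ℕ) < 5
    · simp only [hj, dif_pos, ha]
    · simp only [hj, dif_neg, not_false_iff, hb]
      congr 1
      apply Fin.ext
      simp only
      omega
  rw [hvab] at hv0
  have h1 : ∀ l, (gP a).eval (τ l) - lam l * P (ix l) * (gP b).eval (τ l) = 0 := by
    intro l
    rw [← NM_mulVec_lt τ lam P x a b l, hv0]
    rfl
  have h2 : (gP b).eval x = 0 := by
    rw [← NM_mulVec_last τ lam P x a b, hv0]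
    rfl
  have h3 := cross_zero hτ h h1
  have h4 : ∀ k, (gP b).eval (ρ k) = 0 := by
    intro k
    have h5 := congrArg (eval (ρ k)) h3
    rw [eval_mul, eval_mul, dP_eval, Finset.prod_eq_zero (Finset.mem_univ k) (sub_self _),
      mul_zero] at h5
    have h6 : (gP g).eval (ρ k) ≠ 0 := by
      rw [gP_eval]; exact ho.2.2 k
    exact (mul_eq_zero.mp h5.symm).resolve_left h6
  have h5 : gP b = 0 := by
    have hinj : Function.Injective (fun o : Option (Fin 4) => o.elim x ρ) := by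
      rintro (_ | k) (_ | k') hk
      · rfl
      · exact absurd hk.symm (hx k')
      · exact absurd hk (hx k)
      · by_contra hne
        have : k ≠ k' := fun h => hne (by rw [h])
        exact ho.1 k k' this (sub_eq_zero.mpr hk)
    refine Polynomial.eq_zero_of_degree_lt_of_eval_index_eq_zero (s := Finset.univ)
      (v := fun o : Option (Fin 4) => o.elim x ρ) hinj.injOn ?_ (fun o _ => ?_)
    · rw [Finset.card_univ, Fintype.card_option, Fintype.card_fin]
      exact lt_of_le_of_lt (natDegree_le_iff_degree_le.mp (gP_natDegree b)) (by norm_num)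
    · rcases o with _ | k
      · exact h2
      · exact h4 k
  rw [h5, mul_zero] at h3
  have h6 : gP a = 0 := (mul_eq_zero.mp h3).resolve_right (dP_monic ρ).ne_zero
  apply hv
  rw [hvab, gP_eq_zero h5, gP_eq_zero h6]
  funext j
  split <;> rfl

lemma NM_det_eq {τ lam : Fin 9 → ℂ} {g : Fin 5 → ℂ} {ρ : Fin 4 → ℂ}
    {P : Fin 3 → ℂ} (h : Cont τ lam g ρ P) (k : Fin 4) :
    (NM τ lam P (ρ k)).det = 0 := by
  set b : Fin 5 → ℂ := fun j => (dP ρ).coeff j with hb
  have hgb : gP b = dP ρ := by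
    ext i
    by_cases hi : i < 5
    · have := gP_coeff b ⟨i, hi⟩
      exact this
    · rw [coeff_eq_zero_of_natDegree_lt (lt_of_le_of_lt (gP_natDegree b) (by omega)),
        coeff_eq_zero_of_natDegree_lt (by rw [dP_natDegree]; omega)]
  refine Matrix.exists_mulVec_eq_zero_iff.mp ⟨fun j : Fin 10 =>
      if h : (j : ℕ) < 5 then g ⟨j, h⟩ else b ⟨j - 5, by omega⟩, ?_, ?_⟩
  · intro h0
    have h1 := congrFun h0 9
    have h9 : ¬ (((9 : Fin 10) : ℕ) < 5) := by decide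
    simp only [h9, dif_neg, not_false_iff, Pi.zero_apply] at h1
    have h2 : b ⟨((9 : Fin 10) : ℕ) - 5, by decide⟩ = 1 := by
      have := (dP_monic ρ).coeff_natDegree
      rw [dP_natDegree] at this
      exact this
    rw [h2] at h1
    exact one_ne_zero h1
  · funext i
    by_cases hi : (i : ℕ) < 9
    · have := NM_mulVec_lt τ lam P (ρ k) g b ⟨i, hi⟩
      rw [hgb, h ⟨i, hi⟩, sub_self] at this
      exact this
    · have h9 : i = 9 := by
        apply Fin.ext
        have := i.2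
        have h9 : ((9 : Fin 10) : ℕ) = 9 := rfl
        omega
      rw [h9, NM_mulVec_last, hgb, dP_eval, Finset.prod_eq_zero (Finset.mem_univ k) (sub_self _)]
      rfl

end Pool.Agent.Y204.MC
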